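import Pool.Agent.H559.HY.SConv

set_option autoImplicit false

/-! # The formula of Bateman and Horn for all systems -/

open Finset MeasureTheory ProbabilityTheory Filter Topology Polynomial
open Pool.Agent.T2H32.BF (Model prob V V_pos V_anti V_ratio recip_le mertens)
open Pool.Agent.H559.BS (Limit TT TT_le TT_ge TT_top log_TT V_TT log_pow_le log_top g g_pos)

namespace Pool.Agent.H559.HY

/-- the systems of the problem -/
def Sys (F : Finset ℤ[X]) : Prop :=
  (∀ f ∈ F, Irreducible f ∧ 0 < f.natDegree) ∧ ∀ f ∈ F, ∀ g ∈ F, f ≠ g → f ≠ -g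

/-- the number of the `1 ≤ n ≤ x` for which all the `|f n|` are in `A` -/
noncomputable def cntF (A : Set ℕ) (F : Finset ℤ[X]) (x : ℕ) : ℕ :=
  {n : ℕ | 1 ≤ n ∧ n ≤ x ∧ ∀ f ∈ F, (f.eval (n : ℤ)).natAbs ∈ A}.ncard

/-- the number of the zeros modulo `p` -/
def omF (F : Finset ℤ[X]) (p : ℕ) : ℕ :=
  ((range p).filter fun n : ℕ => (p : ℤ) ∣ ∏ f ∈ F, f.eval (n : ℤ)).card

/-- the partial products -/
noncomputable def CF (F : Finset ℤ[X]) (x : ℕ) : ℝ :=
  ∏ p ∈ (range (x + 1)).filter Nat.Prime, (1 - (omF F p : ℝ) / p) / (1 - 1 / (p : ℝ)) ^ F.card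

/-- the polynomial with a positive leading coefficient -/
noncomputable def pos (f : ℤ[X]) : ℤ[X] := if 0 < f.leadingCoeff then f else -f

theorem pos_cases (f : ℤ[X]) : pos f = f ∨ pos f = -f := by
  unfold pos
  split_ifs
  · exact Or.inl rfl
  · exact Or.inr rfl

theorem pos_deg (f : ℤ[X]) : (pos f).natDegree = f.natDegree := by
  rcases pos_cases f with h | h
  · rw [h]
  · rw [h, natDegree_neg]

theorem pos_irr (f : ℤ[X]) (hf : Irreducible f) : Irreducible (pos f) := by
  rcases pos_cases f with h | h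
  · rw [h]
    exact hf
  · rw [h]
    exact (Associated.refl f).neg_left.symm.irreducible hf

theorem pos_lead (f : ℤ[X]) (hf : f ≠ 0) : 0 < (pos f).leadingCoeff := by
  unfold pos
  split_ifs with h
  · exact h
  · rw [leadingCoeff_neg]
    have := leadingCoeff_ne_zero.2 hf
    omega

theorem pos_eval (f : ℤ[X]) (n : ℤ) : |(pos f).eval n| = |f.eval n| := by
  rcases pos_cases f with h | h
  · rw [h]
  · rw [h, eval_neg, abs_neg]

/-- the polynomials of a system in some order -/
noncomputable def fam (F : Finset ℤ[X]) (i : Fin F.card) : ℤ[X] := pos (F.equivFin.symm i : ℤ[X])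

theorem fam_irr (F : Finset ℤ[X]) (hF : Sys F) (i : Fin F.card) : Irreducible (fam F i) :=
  pos_irr _ (hF.1 _ (F.equivFin.symm i).2).1

theorem fam_deg (F : Finset ℤ[X]) (hF : Sys F) (i : Fin F.card) : 0 < (fam F i).natDegree := by
  unfold fam
  rw [pos_deg]
  exact (hF.1 _ (F.equivFin.symm i).2).2

theorem fam_lead (F : Finset ℤ[X]) (hF : Sys F) (i : Fin F.card) : 0 < (fam F i).leadingCoeff :=
  pos_lead _ (hF.1 _ (F.equivFin.symm i).2).1.ne_zero

theorem fam_le (F : Finset ℤ[X]) (i : Fin F.card) : (fam F i).natDegree ≤ ∑ i, (fam F i).natDegree :=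
  single_le_sum (f := fun i => (fam F i).natDegree) (fun _ _ => Nat.zero_le _) (mem_univ i)

theorem fam_ne (F : Finset ℤ[X]) (hF : Sys F) (i j : Fin F.card) (hij : i ≠ j) : fam F i ≠ fam F j ∧ fam F i ≠ -fam F j := by
  have h1 : (F.equivFin.symm i : ℤ[X]) ≠ (F.equivFin.symm j : ℤ[X]) := by
    intro h
    apply hij
    have := Subtype.ext h
    exact F.equivFin.symm.injective this
  have h2 := hF.2 _ (F.equivFin.symm i).2 _ (F.equivFin.symm j).2 h1
  unfold fam
  rcases pos_cases (F.equivFin.symm i : ℤ[X]) with hi | hi <;> rcases pos_cases (F.equivFin.symm j : ℤ[X]) with hj | hj <;>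
    rw [hi, hj]
  · exact ⟨h1, h2⟩
  · rw [neg_neg]
    exact ⟨h2, h1⟩
  · refine ⟨fun h => h2 (by rw [← h, neg_neg]), fun h => h1 (neg_injective h)⟩
  · rw [neg_neg]
    refine ⟨fun h => h1 (neg_injective h), fun h => h2 (by rw [← h, neg_neg])⟩

theorem prod_fam (F : Finset ℤ[X]) (u : ℤ[X] → ℝ) : ∏ f ∈ F, u f = ∏ i : Fin F.card, u (F.equivFin.symm i : ℤ[X]) := by
  rw [← prod_coe_sort F u]
  exact (F.equivFin.symm.prod_comp (fun f : F => u f)).symm

theorem CF_eq (F : Finset ℤ[X]) (x : ℕ) : CF F x = Sg (arr (∑ i, (fam F i).natDegree) (fam F)) x := by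
  unfold CF Sg
  refine prod_congr rfl fun p hp => ?_
  rw [mem_filter] at hp
  have hpp := hp.2
  have e : omF F p = (rts (arr (∑ i, (fam F i).natDegree) (fam F)) p 0).card := by
    unfold omF rts
    congr 1
    refine filter_congr fun s _ => ?_
    have hprime : Prime (p : ℤ) := Nat.prime_iff_prime_int.1 hpp
    rw [hprime.dvd_finsetProd_iff]
    constructor
    · rintro ⟨f, hf, h1⟩
      refine ⟨F.equivFin ⟨f, hf⟩, (cls_eq_iff _ _ p s 0 hpp.pos hpp.pos).2 ?_⟩
      rw [evl_arr _ _ (fam_le F), Nat.cast_zero, sub_zero]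
      have h2 : fam F (F.equivFin ⟨f, hf⟩) = pos f := by
        unfold fam
        rw [Equiv.symm_apply_apply]
      rw [h2, ← dvd_abs, pos_eval, dvd_abs]
      exact h1
    · rintro ⟨i, h1⟩
      refine ⟨(F.equivFin.symm i : ℤ[X]), (F.equivFin.symm i).2, ?_⟩
      have h2 := (cls_eq_iff _ _ p s 0 hpp.pos hpp.pos).1 h1
      rw [evl_arr _ _ (fam_le F), Nat.cast_zero, sub_zero] at h2
      unfold fam at h2
      rw [← dvd_abs, pos_eval, dvd_abs] at h2
      exact h2
  rw [e]

/-- the constant of a system exists -/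
theorem CF_conv (F : Finset ℤ[X]) (hF : Sys F) : ∃ C : ℝ, Tendsto (CF F) atTop (𝓝 C) := by
  obtain ⟨S, hS⟩ := sg_conv (∑ i, (fam F i).natDegree) (fam F) (fam_le F) (fam_irr F hF) (fam_deg F hF)
    (fam_ne F hF)
  exact ⟨S, hS.congr fun x => (CF_eq F x).symm⟩

/-- **The formula of Bateman and Horn.** -/
theorem bh (z : ℕ → ℕ) (hz : Limit z) (c : ℝ) (hc : 1 < c) (b : ℕ → ℕ) (hOK : OK z (WW c) b)
    (F : Finset ℤ[X]) (hF : Sys F) (C : ℝ) (hC : Tendsto (CF F) atTop (𝓝 C)) :
    Tendsto (fun x : ℕ => (cntF (RS z (WW c) b) F x : ℝ) * (∏ f ∈ F, Real.log |((f.eval (x : ℤ) : ℤ) : ℝ)|) / x)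
      atTop (𝓝 C) := by
  classical
  set D := ∑ i, (fam F i).natDegree with hD
  have hinj : Function.Injective (fam F) := by
    intro i j h
    by_contra hij
    exact (fam_ne F hF i j hij).1 h
  have hS : Tendsto (fun w : ℕ => Sg (arr D (fam F)) w) atTop (𝓝 C) := hC.congr fun x => CF_eq F x
  have hmain := bh_pos z hz c hc b hOK D (fam F) (fam_le F) (fam_deg F hF) (fam_lead F hF) hinj C hS
  have hlogs : ∀ x : ℕ, ∏ f ∈ F, Real.log |((f.eval (x : ℤ) : ℤ) : ℝ)| =
      ∏ i, Real.log (((fam F i).eval (x : ℤ) : ℤ) : ℝ) := by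
    intro x
    rw [prod_fam]
    refine prod_congr rfl fun i _ => ?_
    rw [← Real.log_abs (((fam F i).eval (x : ℤ) : ℤ) : ℝ), ← Int.cast_abs, ← Int.cast_abs]
    unfold fam
    rw [pos_eval]
  -- positivity of the values
  have hgr : ∀ᶠ m : ℕ in atTop, ∀ i, 0 < (fam F i).eval (m : ℤ) := by
    refine eventually_all.2 fun i => ?_
    filter_upwards [growth (fam F i) (fam_deg F hF i) (fam_lead F hF i), eventually_ge_atTop 1] with m h1 h2
    have hm0 : (0 : ℝ) < m := by exact_mod_cast h2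
    have h3 : (0 : ℝ) < (((fam F i).eval (m : ℤ) : ℤ) : ℝ) := lt_of_lt_of_le (by positivity) h1.1
    exact_mod_cast h3
  obtain ⟨m0, hm0⟩ := eventually_atTop.1 hgr
  -- comparison of the counts
  have hcmp : ∀ x : ℕ, |(cntF (RS z (WW c) b) F x : ℝ) - cnt (arr D (fam F)) (RS z (WW c) b) 0 x| ≤ m0 := by
    intro x
    have e1 : cntF (RS z (WW c) b) F x = ((Ioc 0 (0 + x)).filter (fun n : ℕ => ∀ f ∈ F, (f.eval (n : ℤ)).natAbs ∈ RS z (WW c) b)).card := by
      unfold cntF
      rw [← Set.ncard_coe_finset]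
      congr 1
      ext n
      simp only [Set.mem_ofPred_eq, coe_filter, mem_Ioc, zero_add]
      constructor
      · rintro ⟨h1, h2, h3⟩
        exact ⟨⟨by omega, h2⟩, h3⟩
      · rintro ⟨⟨h1, h2⟩, h3⟩
        exact ⟨by omega, h2, h3⟩
    rw [e1]
    unfold cnt
    have hiff : ∀ n ∈ Ioc 0 (0 + x), m0 ≤ n → ((∀ f ∈ F, (f.eval (n : ℤ)).natAbs ∈ RS z (WW c) b) ↔
        ∀ i, (evl (arr D (fam F) i) n).toNat ∈ RS z (WW c) b) := by
      intro n _ hn
      have hv : ∀ i, (evl (arr D (fam F) i) n).toNat = ((F.equivFin.symm i : ℤ[X]).eval (n : ℤ)).natAbs := by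
        intro i
        rw [evl_arr D (fam F) (fam_le F)]
        have h1 := hm0 n hn i
        have h2 : ((fam F i).eval (n : ℤ)).toNat = ((fam F i).eval (n : ℤ)).natAbs := by omega
        rw [h2]
        have h3 : |(fam F i).eval (n : ℤ)| = |(F.equivFin.symm i : ℤ[X]).eval (n : ℤ)| := by
          unfold fam
          rw [pos_eval]
        have h4 := congrArg Int.toNat h3
        rw [← Int.natCast_natAbs, ← Int.natCast_natAbs, Int.toNat_natCast, Int.toNat_natCast] at h4
        exact h4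
      constructor
      · intro h i
        rw [hv]
        exact h _ (F.equivFin.symm i).2
      · intro h f hf
        have := h (F.equivFin ⟨f, hf⟩)
        rw [hv, Equiv.symm_apply_apply] at this
        exact this
    set P1 := (Ioc 0 (0 + x)).filter (fun n : ℕ => ∀ f ∈ F, (f.eval (n : ℤ)).natAbs ∈ RS z (WW c) b) with hP1
    set P2 := (Ioc 0 (0 + x)).filter (fun n : ℕ => ∀ i, (evl (arr D (fam F) i) n).toNat ∈ RS z (WW c) b) with hP2
    have hs1 : P1 ⊆ P2 ∪ range m0 := by
      intro n hn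
      rw [mem_union, mem_range]
      rcases lt_or_ge n m0 with h | h
      · exact Or.inr h
      · rw [hP1, mem_filter] at hn
        exact Or.inl (mem_filter.2 ⟨hn.1, (hiff n hn.1 h).1 hn.2⟩)
    have hs2 : P2 ⊆ P1 ∪ range m0 := by
      intro n hn
      rw [mem_union, mem_range]
      rcases lt_or_ge n m0 with h | h
      · exact Or.inr h
      · rw [hP2, mem_filter] at hn
        exact Or.inl (mem_filter.2 ⟨hn.1, (hiff n hn.1 h).2 hn.2⟩)
    have h1 := (card_le_card hs1).trans (card_union_le _ _)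
    have h2 := (card_le_card hs2).trans (card_union_le _ _)
    rw [card_range] at h1 h2
    have h1' : (P1.card : ℝ) ≤ P2.card + m0 := by exact_mod_cast h1
    have h2' : (P2.card : ℝ) ≤ P1.card + m0 := by exact_mod_cast h2
    rw [abs_le]
    constructor <;> linarith
  -- the product of the logarithms is small
  have hprod : Tendsto (fun x : ℕ => (∏ i, Real.log (((fam F i).eval (x : ℤ) : ℤ) : ℝ)) / x) atTop (𝓝 0) := by
    have h1 : Tendsto (fun x : ℕ => ∏ i, (Real.log (((fam F i).eval (x : ℤ) : ℤ) : ℝ) / Real.log x)) atTop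
        (𝓝 (∏ i, ((fam F i).natDegree : ℝ))) :=
      tendsto_finsetProd _ fun i _ => log_val (fam F i) (fam_deg F hF i) (fam_lead F hF i)
    have h2 : Tendsto (fun x : ℕ => Real.log x ^ F.card / (x : ℝ)) atTop (𝓝 0) := by
      have h2 : (fun x : ℝ => Real.log x ^ F.card) =o[atTop] fun x => x ^ (1 : ℝ) := by
        have := isLittleO_log_rpow_rpow_atTop (s := 1) (F.card : ℝ) (by norm_num)
        simpa using this
      have h3 := (h2.tendsto_div_nhds_zero).comp tendsto_natCast_atTop_atTop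
      refine h3.congr fun x => ?_
      simp
    have h3 := h1.mul h2
    rw [mul_zero] at h3
    refine h3.congr' ?_
    filter_upwards [log_top.eventually_ge_atTop 1] with x hx
    rw [prod_div_distrib, prod_const, card_univ, Fintype.card_fin]
    have : 0 < Real.log x ^ F.card := pow_pos (by linarith) _
    field_simp
  have hdiff : Tendsto (fun x : ℕ => ((cntF (RS z (WW c) b) F x : ℝ) - cnt (arr D (fam F)) (RS z (WW c) b) 0 x) *
      ((∏ i, Real.log (((fam F i).eval (x : ℤ) : ℤ) : ℝ)) / x)) atTop (𝓝 0) := by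
    have h1 : Tendsto (fun x : ℕ => (m0 : ℝ) * |(∏ i, Real.log (((fam F i).eval (x : ℤ) : ℤ) : ℝ)) / x|) atTop (𝓝 0) := by
      have := hprod.abs.const_mul (m0 : ℝ)
      rw [abs_zero, mul_zero] at this
      exact this
    refine squeeze_zero_norm (fun x => ?_) h1
    rw [norm_mul, Real.norm_eq_abs, Real.norm_eq_abs]
    exact mul_le_mul_of_nonneg_right (hcmp x) (abs_nonneg _)
  have h := hmain.add hdiff
  rw [add_zero] at h
  refine h.congr fun x => ?_
  rw [hlogs]
  ring

end Pool.Agent.H559.HY
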