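import Pool.Agent.H559.HY.Asym

set_option autoImplicit false

/-! # Systems of integer polynomials -/

open Finset MeasureTheory ProbabilityTheory Filter Topology Polynomial
open Pool.Agent.T2H32.BF (Model prob V V_pos V_anti V_ratio recip_le mertens)
open Pool.Agent.H559.BS (Limit TT TT_le TT_ge TT_top log_TT V_TT log_pow_le log_top g g_pos)

namespace Pool.Agent.H559.HY

variable {k : ℕ}

/-- the array of the coefficients -/
def arr (D : ℕ) (f : Fin k → ℤ[X]) : Arr k D := fun i j => (f i).coeff j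

theorem evl_arr (D : ℕ) (f : Fin k → ℤ[X]) (hD : ∀ i, (f i).natDegree ≤ D) (i : Fin k) (m : ℕ) :
    evl (arr D f i) m = (f i).eval (m : ℤ) := by
  unfold evl arr
  rw [eval_eq_sum_range' (Nat.lt_succ_of_le (hD i)), Finset.sum_range]

/-- the growth of a polynomial -/
theorem growth (q : ℤ[X]) (_hd : 0 < q.natDegree) (hl : 0 < q.leadingCoeff) :
    ∀ᶠ m : ℕ in atTop, (m : ℝ) ^ q.natDegree / 2 ≤ ((q.eval (m : ℤ) : ℤ) : ℝ) ∧
      ((q.eval (m : ℤ) : ℤ) : ℝ) ≤ 2 * q.leadingCoeff * (m : ℝ) ^ q.natDegree := by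
  set r : ℝ[X] := q.map (Int.castRingHom ℝ) with hr
  have hinj : Function.Injective (Int.castRingHom ℝ) := RingHom.injective_int _
  have hdeg : r.natDegree = q.natDegree := natDegree_map_eq_of_injective hinj q
  have hlc : r.leadingCoeff = (q.leadingCoeff : ℝ) := by
    rw [hr, leadingCoeff_map_of_injective hinj]
    simp
  have hl1 : (1 : ℝ) ≤ (q.leadingCoeff : ℝ) := by exact_mod_cast hl
  have h1 := Polynomial.isEquivalent_atTop_lead r
  rw [hdeg, hlc] at h1
  have h2 := (Asymptotics.isEquivalent_iff_tendsto_one (by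
    filter_upwards [eventually_gt_atTop (0 : ℝ)] with x hx
    positivity)).1 h1
  have h3 := h2.comp (tendsto_natCast_atTop_atTop (R := ℝ))
  filter_upwards [h3.eventually_lt_const (show (1 : ℝ) < 2 by norm_num),
    h3.eventually_const_lt (show (1 / 2 : ℝ) < 1 by norm_num), eventually_ge_atTop 1] with m h4 h5 hm
  simp only [Function.comp_apply, Pi.div_apply] at h4 h5
  have hm0 : (0 : ℝ) < m := by exact_mod_cast hm
  have hev : r.eval (m : ℝ) = ((q.eval (m : ℤ) : ℤ) : ℝ) := by
    rw [hr, eval_natCast_map]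
    simp
  have hmd : 0 < (m : ℝ) ^ q.natDegree := by positivity
  have hpos : 0 < (q.leadingCoeff : ℝ) * (m : ℝ) ^ q.natDegree := by positivity
  rw [hev, div_lt_iff₀ hpos] at h4
  rw [hev, lt_div_iff₀ hpos] at h5
  constructor
  · nlinarith
  · linarith

theorem good_arr (D : ℕ) (f : Fin k → ℤ[X]) (hD : ∀ i, (f i).natDegree ≤ D) (hd : ∀ i, 0 < (f i).natDegree)
    (hinj : Function.Injective f) : ∃ P0 : ℕ, ∀ p : ℕ, p.Prime → P0 < p → Good (arr D f) p := by
  refine ⟨∑ i, (f i).leadingCoeff.natAbs + ∑ i, ∑ i', (f i - f i').leadingCoeff.natAbs, fun p hp hP => ⟨fun i => ?_, fun i i' hi => ?_⟩⟩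
  · refine ⟨⟨(f i).natDegree, Nat.lt_succ_of_le (hD i)⟩, ?_, ?_⟩
    · intro h
      have := congrArg Fin.val h
      simp only [Fin.val_zero] at this
      have := hd i
      omega
    · intro hdvd
      have h1 : (p : ℤ) ∣ (f i).leadingCoeff := hdvd
      have h2 : p ∣ (f i).leadingCoeff.natAbs := Int.natCast_dvd.1 h1
      have h3 : (f i).leadingCoeff ≠ 0 := by
        rw [Ne, leadingCoeff_eq_zero]
        intro h4
        have := hd i
        rw [h4, natDegree_zero] at this
        omega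
      have h4 := Nat.le_of_dvd (Int.natAbs_pos.2 h3) h2
      have h5 : (f i).leadingCoeff.natAbs ≤ ∑ i, (f i).leadingCoeff.natAbs :=
        single_le_sum (f := fun i => (f i).leadingCoeff.natAbs) (fun _ _ => Nat.zero_le _) (mem_univ i)
      omega
  · have h0 : f i - f i' ≠ 0 := sub_ne_zero.2 fun h => hi (hinj h)
    have hdeg : (f i - f i').natDegree ≤ D := (natDegree_sub_le _ _).trans (max_le (hD i) (hD i'))
    refine ⟨⟨(f i - f i').natDegree, Nat.lt_succ_of_le hdeg⟩, ?_⟩
    intro hdvd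
    have h1 : (p : ℤ) ∣ (f i - f i').leadingCoeff := by
      have : (f i - f i').leadingCoeff = (f i).coeff (f i - f i').natDegree - (f i').coeff (f i - f i').natDegree := by
        rw [leadingCoeff, coeff_sub]
      rw [this]
      exact hdvd
    have h2 : p ∣ (f i - f i').leadingCoeff.natAbs := Int.natCast_dvd.1 h1
    have h3 : (f i - f i').leadingCoeff ≠ 0 := by
      rw [Ne, leadingCoeff_eq_zero]
      exact h0
    have h4 := Nat.le_of_dvd (Int.natAbs_pos.2 h3) h2
    have h5 : (f i - f i').leadingCoeff.natAbs ≤ ∑ i, ∑ i', (f i - f i').leadingCoeff.natAbs :=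
      (single_le_sum (f := fun i' => (f i - f i').leadingCoeff.natAbs) (fun _ _ => Nat.zero_le _) (mem_univ i')).trans
        (single_le_sum (f := fun i => ∑ i', (f i - f i').leadingCoeff.natAbs) (fun _ _ => Nat.zero_le _) (mem_univ i))
    omega

/-- the logarithm of a power of a linear function -/
theorem log_lin (u : ℕ → ℕ) (d : ℕ) (hd : 0 < d) (z : ℕ → ℕ) (hz : Limit z) (hu : Tendsto u atTop atTop)
    (hul : Tendsto (fun x : ℕ => Real.log (u x) / Real.log x) atTop (𝓝 1)) :
    Tendsto (fun x : ℕ => V (z (u x ^ d)) * Real.log x) atTop (𝓝 (1 / d)) := by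
  have hd0 : (0 : ℝ) < d := by exact_mod_cast hd
  have h1 : Tendsto (fun x => u x ^ d) atTop atTop := (tendsto_pow_atTop (by omega)).comp hu
  have h2 := hz.2.comp h1
  have h3 : Tendsto (fun x : ℕ => (d : ℝ) * (Real.log (u x) / Real.log x)) atTop (𝓝 (d * 1)) := hul.const_mul _
  rw [mul_one] at h3
  have h4 := h2.div h3 hd0.ne'
  refine h4.congr' ?_
  filter_upwards [hu.eventually_ge_atTop 2, log_top.eventually_ge_atTop 1] with x h5 h6
  simp only [Pi.div_apply, Function.comp_apply, Nat.cast_pow, Real.log_pow]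
  have h7 : 0 < Real.log (u x) := Real.log_pos (by exact_mod_cast h5)
  field_simp

theorem div_lim (J : ℕ) (hJ : 1 ≤ J) : Tendsto (fun x : ℕ => x / J) atTop atTop ∧
    Tendsto (fun x : ℕ => Real.log ((x / J : ℕ) : ℝ) / Real.log x) atTop (𝓝 1) := by
  have hJ0 : (0 : ℝ) < J := by exact_mod_cast hJ
  have h0 : Tendsto (fun x : ℕ => x / J) atTop atTop := Nat.tendsto_div_const_atTop (by omega)
  refine ⟨h0, ?_⟩
  have h1 : Tendsto (fun x : ℕ => (Real.log x - Real.log (2 * J)) / Real.log x) atTop (𝓝 1) := by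
    have h2 : Tendsto (fun x : ℕ => 1 - Real.log (2 * J) / Real.log x) atTop (𝓝 (1 - 0)) :=
      tendsto_const_nhds.sub (tendsto_const_nhds.div_atTop log_top)
    rw [sub_zero] at h2
    refine h2.congr' ?_
    filter_upwards [log_top.eventually_ge_atTop 1] with x hx
    field_simp
  refine tendsto_of_tendsto_of_tendsto_of_le_of_le' h1 tendsto_const_nhds ?_ ?_
  · filter_upwards [h0.eventually_ge_atTop 1, log_top.eventually_ge_atTop 1] with x h2 h3
    have h5 : (x : ℝ) ≤ (x / J : ℕ) * (2 * J) := by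
      have h6 : x < J * (x / J) + J := by
        have h7 := Nat.div_add_mod x J
        have h8 := Nat.mod_lt x (show 0 < J by omega)
        omega
      have h7 : J * 1 ≤ J * (x / J) := Nat.mul_le_mul_left _ h2
      have h8 : x ≤ (x / J) * (2 * J) := by
        have : (x / J) * (2 * J) = J * (x / J) + J * (x / J) := by ring
        omega
      exact_mod_cast h8
    have hx0 : (0 : ℝ) < x := by
      rcases Nat.eq_zero_or_pos x with h | h
      · rw [h] at h3
        simp at h3
        linarith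
      · exact_mod_cast h
    have h2' : (0 : ℝ) < ((x / J : ℕ) : ℝ) := by exact_mod_cast h2
    gcongr
    have h6 : Real.log x ≤ Real.log ((x / J : ℕ) : ℝ) + Real.log (2 * J) := by
      rw [← Real.log_mul (by positivity) (by positivity)]
      exact Real.log_le_log hx0 h5
    linarith
  · filter_upwards [h0.eventually_ge_atTop 1, log_top.eventually_ge_atTop 1] with x h2 h3
    rw [div_le_one (by linarith)]
    exact Real.log_le_log (by exact_mod_cast h2) (by exact_mod_cast Nat.div_le_self x J)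

theorem mul_lim (h : ℕ) (hh : 1 ≤ h) : Tendsto (fun x : ℕ => h * x) atTop atTop ∧
    Tendsto (fun x : ℕ => Real.log ((h * x : ℕ) : ℝ) / Real.log x) atTop (𝓝 1) := by
  have hh0 : (0 : ℝ) < h := by exact_mod_cast hh
  have h0 : Tendsto (fun x : ℕ => h * x) atTop atTop := tendsto_id.const_mul_atTop' (by omega)
  refine ⟨h0, ?_⟩
  have h2 : Tendsto (fun x : ℕ => 1 + Real.log h / Real.log x) atTop (𝓝 (1 + 0)) :=
    tendsto_const_nhds.add (tendsto_const_nhds.div_atTop log_top)
  rw [add_zero] at h2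
  refine h2.congr' ?_
  filter_upwards [log_top.eventually_ge_atTop 1, eventually_ge_atTop 1] with x hx hx1
  have hx0 : (0 : ℝ) < x := by exact_mod_cast hx1
  rw [Nat.cast_mul, Real.log_mul hh0.ne' hx0.ne']
  field_simp
  ring

/-- the logarithm of the value -/
theorem log_val (q : ℤ[X]) (hd : 0 < q.natDegree) (hl : 0 < q.leadingCoeff) :
    Tendsto (fun x : ℕ => Real.log ((q.eval (x : ℤ) : ℤ) : ℝ) / Real.log x) atTop (𝓝 (q.natDegree : ℝ)) := by
  have hl1 : (1 : ℝ) ≤ (q.leadingCoeff : ℝ) := by exact_mod_cast hl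
  have h1 : Tendsto (fun x : ℕ => (q.natDegree : ℝ) - Real.log 2 / Real.log x) atTop (𝓝 (q.natDegree - 0)) :=
    tendsto_const_nhds.sub (tendsto_const_nhds.div_atTop log_top)
  have h2 : Tendsto (fun x : ℕ => (q.natDegree : ℝ) + Real.log (2 * q.leadingCoeff) / Real.log x) atTop
      (𝓝 (q.natDegree + 0)) := tendsto_const_nhds.add (tendsto_const_nhds.div_atTop log_top)
  rw [sub_zero] at h1
  rw [add_zero] at h2
  refine tendsto_of_tendsto_of_tendsto_of_le_of_le' h1 h2 ?_ ?_
  · filter_upwards [growth q hd hl, log_top.eventually_ge_atTop 1, eventually_ge_atTop 1] with x h3 h4 h5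
    have hx0 : (0 : ℝ) < x := by exact_mod_cast h5
    have h6 : Real.log ((x : ℝ) ^ q.natDegree / 2) ≤ Real.log ((q.eval (x : ℤ) : ℤ) : ℝ) :=
      Real.log_le_log (by positivity) h3.1
    rw [Real.log_div (by positivity) (by norm_num), Real.log_pow] at h6
    rw [le_div_iff₀ (by linarith), sub_mul, div_mul_cancel₀ _ (by linarith)]
    exact h6
  · filter_upwards [growth q hd hl, log_top.eventually_ge_atTop 1, eventually_ge_atTop 1] with x h3 h4 h5
    have hx0 : (0 : ℝ) < x := by exact_mod_cast h5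
    have h7 : (0 : ℝ) < ((q.eval (x : ℤ) : ℤ) : ℝ) := lt_of_lt_of_le (by positivity) h3.1
    have h6 := Real.log_le_log h7 h3.2
    rw [Real.log_mul (by positivity) (by positivity), Real.log_pow] at h6
    rw [div_le_iff₀ (by linarith), add_mul, div_mul_cancel₀ _ (by linarith)]
    linarith

/-- **The formula of Bateman and Horn for the random primes, positive leading coefficients.** -/
theorem bh_pos (z : ℕ → ℕ) (hz : Limit z) (c : ℝ) (hc : 1 < c) (b : ℕ → ℕ) (hOK : OK z (WW c) b) (D : ℕ)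
    (f : Fin k → ℤ[X]) (hD : ∀ i, (f i).natDegree ≤ D) (hd : ∀ i, 0 < (f i).natDegree)
    (hl : ∀ i, 0 < (f i).leadingCoeff) (hinj : Function.Injective f)
    (S : ℝ) (hS : Tendsto (fun w : ℕ => Sg (arr D f) w) atTop (𝓝 S)) :
    Tendsto (fun x : ℕ => (cnt (arr D f) (RS z (WW c) b) 0 x : ℝ) *
      (∏ i, Real.log (((f i).eval (x : ℤ) : ℤ) : ℝ)) / x) atTop (𝓝 S) := by
  obtain ⟨P0, hP0⟩ := good_arr D f hD hd hinj
  have hev : ∀ i m, evl (arr D f i) m = (f i).eval (m : ℤ) := evl_arr D f hD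
  have hgr : ∀ᶠ m : ℕ in atTop, ∀ i, (m : ℝ) ^ (f i).natDegree / 2 ≤ (((f i).eval (m : ℤ) : ℤ) : ℝ) ∧
      (((f i).eval (m : ℤ) : ℤ) : ℝ) ≤ 2 * (f i).leadingCoeff * (m : ℝ) ^ (f i).natDegree :=
    eventually_all.2 fun i => growth (f i) (hd i) (hl i)
  obtain ⟨m0, hm0⟩ := eventually_atTop.1 hgr
  set H : ℕ := ∑ i, 2 * (f i).leadingCoeff.natAbs + 1 with hH
  have hHi : ∀ i, 2 * ((f i).leadingCoeff : ℝ) ≤ H := by
    intro i
    have h1 : 2 * (f i).leadingCoeff.natAbs ≤ ∑ i, 2 * (f i).leadingCoeff.natAbs :=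
      single_le_sum (f := fun i => 2 * (f i).leadingCoeff.natAbs) (fun _ _ => Nat.zero_le _) (mem_univ i)
    have h2 : ((f i).leadingCoeff : ℝ) = ((f i).leadingCoeff.natAbs : ℝ) := by
      rw [Nat.cast_natAbs, abs_of_pos (hl i)]
    rw [h2]
    exact_mod_cast (show 2 * (f i).leadingCoeff.natAbs ≤ H by omega)
  have hH1 : 1 ≤ H := by omega
  -- bounds for the values
  have hlowv : ∀ m : ℕ, m0 ≤ m → 2 ≤ m → ∀ i, ((m : ℝ) / 2) ^ (f i).natDegree ≤ (((f i).eval (m : ℤ) : ℤ) : ℝ) ∧
      (m : ℝ) / 2 ≤ (((f i).eval (m : ℤ) : ℤ) : ℝ) := by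
    intro m hm hm2 i
    have h1 := (hm0 m hm i).1
    have hm2' : (2 : ℝ) ≤ m := by exact_mod_cast hm2
    have h2 : ((m : ℝ) / 2) ^ (f i).natDegree ≤ (m : ℝ) ^ (f i).natDegree / 2 := by
      rw [div_pow]
      have h3 : (2 : ℝ) ≤ 2 ^ (f i).natDegree := by
        calc (2 : ℝ) = 2 ^ 1 := by norm_num
          _ ≤ 2 ^ (f i).natDegree := pow_le_pow_right₀ (by norm_num) (hd i)
      gcongr
    have h3 : (m : ℝ) / 2 ≤ ((m : ℝ) / 2) ^ (f i).natDegree :=
      le_self_pow₀ (by linarith) (by have := hd i; omega)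
    exact ⟨h2.trans h1, h3.trans (h2.trans h1)⟩
  have hupv : ∀ m x : ℕ, m0 ≤ m → m ≤ x → ∀ i, (((f i).eval (m : ℤ) : ℤ) : ℝ) ≤ ((H * x : ℕ) : ℝ) ^ (f i).natDegree := by
    intro m x hm hmx i
    have h1 := (hm0 m hm i).2
    have hH1' : (1 : ℝ) ≤ H := by exact_mod_cast hH1
    have hmx' : (m : ℝ) ≤ x := by exact_mod_cast hmx
    refine h1.trans ?_
    rw [Nat.cast_mul, mul_pow]
    have h2 : (H : ℝ) ≤ (H : ℝ) ^ (f i).natDegree := le_self_pow₀ hH1' (by have := hd i; omega)
    have h3 := (hHi i).trans h2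
    gcongr
  set A : ℕ := 2 * D + 1 with hA
  have hupA : ∀ x : ℕ, H ≤ x → 1 ≤ x → ∀ i, (H * x) ^ (f i).natDegree ≤ x ^ A := by
    intro x hx hx1 i
    calc (H * x) ^ (f i).natDegree ≤ (x * x) ^ (f i).natDegree := Nat.pow_le_pow_left (Nat.mul_le_mul_right _ hx) _
      _ = x ^ (2 * (f i).natDegree) := by rw [← sq, ← pow_mul]
      _ ≤ x ^ A := Nat.pow_le_pow_right hx1 (by have := hD i; omega)
  have hT : ∀ᶠ x : ℕ in atTop, (TT (1 / 4) x : ℝ) ≤ √x / 2 := by
    have h1 : Tendsto (fun n : ℕ => (n : ℝ) ^ (1 / 4 : ℝ)) atTop atTop :=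
      (tendsto_rpow_atTop (by norm_num)).comp tendsto_natCast_atTop_atTop
    filter_upwards [h1.eventually_ge_atTop 2, eventually_ge_atTop 1] with x hx hx1
    have hx0 : (0 : ℝ) < x := by exact_mod_cast hx1
    refine (TT_le _ _).trans ?_
    have h2 : √(x : ℝ) = (x : ℝ) ^ (1 / 4 : ℝ) * (x : ℝ) ^ (1 / 4 : ℝ) := by
      rw [← Real.rpow_add hx0, Real.sqrt_eq_rpow]
      norm_num
    rw [h2]
    nlinarith
  have hmain := asym z (WW c) hz b hOK (arr D f) P0 A (by omega) hP0 (by
    filter_upwards [hT, eventually_ge_atTop ((m0 + 2) ^ 2), eventually_ge_atTop H] with x h1 h2 h3 m hm1 hm2 i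
    rw [hev]
    have hms : m0 + 2 ≤ Nat.sqrt x := Nat.le_sqrt'.2 h2
    have hx1 : 1 ≤ x := by nlinarith
    constructor
    · have h4 := (hlowv m (by omega) (by omega) i).2
      have h5 : √(x : ℝ) ≤ m := by
        rw [Real.sqrt_le_left (Nat.cast_nonneg _)]
        have h6 : x < m ^ 2 := Nat.sqrt_lt'.1 hm1
        exact_mod_cast h6.le
      have h6 : (TT (1 / 4) x : ℝ) ≤ (((f i).eval (m : ℤ) : ℤ) : ℝ) := by linarith
      exact_mod_cast h6
    · have h4 := hupv m x (by omega) hm2 i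
      have h5 := hupA x h3 hx1 i
      have h6 : (((f i).eval (m : ℤ) : ℤ) : ℝ) ≤ ((x ^ A : ℕ) : ℝ) := by
        refine h4.trans ?_
        exact_mod_cast h5
      exact_mod_cast h6) (fun i => ((f i).natDegree : ℝ)) (fun i => by exact_mod_cast hd i) (by
    intro J hJ
    refine ⟨fun i x => (x / (2 * J)) ^ (f i).natDegree, fun i x => (H * x) ^ (f i).natDegree, ?_, ?_, ?_, ?_⟩
    · filter_upwards [eventually_ge_atTop (J * (m0 + 2))] with x h1 m hm1 hm2 i
      rw [hev]
      have hm3 : m0 + 2 ≤ x / J := by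
        rw [Nat.le_div_iff_mul_le (by omega)]
        linarith
      constructor
      · have h4 := (hlowv m (by omega) (by omega) i).1
        have h5 : ((x / (2 * J) : ℕ) : ℝ) ≤ (m : ℝ) / 2 := by
          have h6 : x / (2 * J) * 2 ≤ m := by
            have h7 : x / (2 * J) = x / J / 2 := by rw [Nat.div_div_eq_div_mul, mul_comm]
            rw [h7]
            omega
          have h7 : ((x / (2 * J) : ℕ) : ℝ) * 2 ≤ m := by exact_mod_cast h6
          linarith
        have h6 : ((((x / (2 * J)) ^ (f i).natDegree : ℕ) : ℤ) : ℝ) ≤ (((f i).eval (m : ℤ) : ℤ) : ℝ) := by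
          rw [Int.cast_natCast, Nat.cast_pow]
          exact (pow_le_pow_left₀ (Nat.cast_nonneg _) h5 _).trans h4
        exact Int.cast_le.1 h6
      · have h4 := hupv m x (by omega) hm2 i
        have h6 : (((f i).eval (m : ℤ) : ℤ) : ℝ) ≤ ((((H * x) ^ (f i).natDegree : ℕ) : ℤ) : ℝ) := by
          rw [Int.cast_natCast, Nat.cast_pow]
          exact h4
        exact Int.cast_le.1 h6
    · have hx : ∀ᶠ x : ℕ in atTop, TT (1 / 4) x ≤ x / (2 * J) := by
        filter_upwards [hT, eventually_ge_atTop ((2 * J) ^ 2), eventually_ge_atTop 4] with x h1 h2 h3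
        rw [Nat.le_div_iff_mul_le (by omega)]
        have h4 : ((2 * J : ℕ) : ℝ) ≤ √x := by
          rw [Real.le_sqrt (Nat.cast_nonneg _) (Nat.cast_nonneg _)]
          exact_mod_cast h2
        have h5 : (TT (1 / 4) x : ℝ) * ((2 * J : ℕ) : ℝ) ≤ x := by
          calc (TT (1 / 4) x : ℝ) * ((2 * J : ℕ) : ℝ) ≤ (√x / 2) * √x := by gcongr
            _ = x / 2 := by
                rw [div_mul_eq_mul_div, Real.mul_self_sqrt (Nat.cast_nonneg _)]
            _ ≤ x := by
                have : (0 : ℝ) ≤ x := Nat.cast_nonneg _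
                linarith
        exact_mod_cast h5
      filter_upwards [hx, eventually_ge_atTop H, eventually_ge_atTop 1] with x h1 h2 h3 i
      refine ⟨h1.trans (Nat.le_self_pow (by have := hd i; omega) _), hupA x h2 h3 i⟩
    · intro i
      have h1 := div_lim (2 * J) (by omega)
      exact log_lin _ _ (hd i) z hz h1.1 h1.2
    · intro i
      have h1 := mul_lim H hH1
      exact log_lin _ _ (hd i) z hz h1.1 h1.2) S (hS.comp (WW_top c (by linarith) (TT (1 / 4)) (1 / 4) (by norm_num)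
        (log_TT_lim (1 / 4) (by norm_num))))
  have hprod : Tendsto (fun x : ℕ => ∏ i, (Real.log (((f i).eval (x : ℤ) : ℤ) : ℝ) / Real.log x)) atTop
      (𝓝 (∏ i, ((f i).natDegree : ℝ))) := tendsto_finsetProd _ fun i _ => log_val (f i) (hd i) (hl i)
  have h3 := hmain.mul hprod
  have e1 : (S * ∏ i, (1 / ((f i).natDegree : ℝ))) * ∏ i, ((f i).natDegree : ℝ) = S := by
    rw [mul_assoc, ← prod_mul_distrib]
    have : ∀ i ∈ (univ : Finset (Fin k)), 1 / ((f i).natDegree : ℝ) * ((f i).natDegree : ℝ) = 1 := by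
      intro i _
      have : ((f i).natDegree : ℝ) ≠ 0 := by
        have := hd i
        exact_mod_cast this.ne'
      field_simp
    rw [prod_congr rfl this, prod_const_one, mul_one]
  rw [e1] at h3
  refine h3.congr' ?_
  filter_upwards [log_top.eventually_ge_atTop 1] with x hx
  rw [prod_div_distrib, prod_const, card_univ, Fintype.card_fin]
  have : 0 < Real.log x ^ k := pow_pos (by linarith) k
  field_simp

end Pool.Agent.H559.HY
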