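import Pool.Agent.H559.HY.CutW

set_option autoImplicit false

/-! # Fixed systems of polynomials -/

open Finset MeasureTheory ProbabilityTheory Filter Topology
open Pool.Agent.T2H32.BF (Model prob V V_pos V_anti V_ratio recip_le mertens)
open Pool.Agent.H559.BS (Limit TT TT_le TT_ge TT_top log_TT V_TT log_pow_le log_top g g_pos)

namespace Pool.Agent.H559.HY

variable {Ω : Type*} [MeasurableSpace Ω] {P : Measure Ω} {a : ℕ → Ω → ℕ} {k D : ℕ}

/-- the conclusion of the main theorem for one sample -/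
def OK (z W : ℕ → ℕ) (b : ℕ → ℕ) : Prop :=
  ∀ k D A P0 B n : ℕ, 1 ≤ A → ∀ᶠ x : ℕ in atTop, ∀ C ∈ box k D (x ^ A), (∀ p, p.Prime → P0 < p → Good C p) →
    ∀ (k0 y : ℕ) (lo hi : Fin k → ℕ), k0 ≤ x → y ≤ x → (∀ i, TT (1 / 4) x ≤ lo i) → (∀ i, hi i ≤ x ^ A) →
    (∀ m ∈ Ioc k0 (k0 + y), ∀ i, (lo i : ℤ) ≤ evl (C i) m ∧ evl (C i) m ≤ hi i) →
    (1 - 1 / ((n : ℝ) + 1)) * (y * (Sg C (W (TT (1 / 4) x)) * ∏ i, V (z (hi i)))) - x / Real.log x ^ B ≤
        cnt C (RS z W b) k0 y ∧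
      cnt C (RS z W b) k0 y ≤
        (1 + 1 / ((n : ℝ) + 1)) * (y * (Sg C (W (TT (1 / 4) x)) * ∏ i, V (z (lo i)))) + x / Real.log x ^ B

theorem ae_OK (h : Model P a) (z W : ℕ → ℕ) (hz : Limit z) (hW : Cut W) : ∀ᵐ ω ∂P, OK z W (fun p => a p ω) := by
  unfold OK
  simp only [ae_all_iff]
  intro k D A P0 B n hA
  exact engine h z W hz hW k D A P0 B hA (1 / 4) (1 / ((n : ℝ) + 1)) (by norm_num) (by norm_num) (by positivity) (by
    rw [div_le_one (by positivity)]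
    linarith [(Nat.cast_nonneg n : (0 : ℝ) ≤ n)])

theorem cnt_add (C : Arr k D) (S : Set ℕ) (k0 y1 y2 : ℕ) :
    cnt C S k0 (y1 + y2) = cnt C S k0 y1 + cnt C S (k0 + y1) y2 := by
  classical
  unfold cnt
  have e : Ioc k0 (k0 + (y1 + y2)) = Ioc k0 (k0 + y1) ∪ Ioc (k0 + y1) (k0 + y1 + y2) := by
    ext m
    simp only [mem_union, mem_Ioc]
    omega
  rw [e, filter_union, card_union_of_disjoint]
  refine disjoint_filter_filter ?_
  rw [disjoint_left]
  intro m h1 h2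
  rw [mem_Ioc] at h1 h2
  omega

theorem cnt_le (C : Arr k D) (S : Set ℕ) (k0 y : ℕ) : cnt C S k0 y ≤ y := by
  classical
  unfold cnt
  refine (card_filter_le _ _).trans ?_
  rw [Nat.card_Ioc]
  omega

theorem z_TT_lim (z : ℕ → ℕ) (hz : Limit z) (η : ℝ) (hη : 0 < η) :
    Tendsto (fun x : ℕ => V (z (TT η x)) * Real.log x) atTop (𝓝 (1 / η)) := by
  have h1 := hz.2.comp (TT_top η hη)
  have h2 := h1.div (log_TT_lim η hη) hη.ne'
  refine h2.congr' ?_
  filter_upwards [(TT_top η hη).eventually_ge_atTop 2, log_top.eventually_ge_atTop 1] with x h3 h4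
  simp only [Pi.div_apply, Function.comp_apply]
  have h5 : 0 < Real.log (TT η x) := Real.log_pos (by exact_mod_cast h3)
  field_simp

theorem sqrt_lim (k : ℕ) : Tendsto (fun x : ℕ => √(x : ℝ) * Real.log x ^ k / x) atTop (𝓝 0) := by
  have h1 : Tendsto (fun x : ℕ => Real.log x ^ k / (x : ℝ) ^ (1 / 2 : ℝ)) atTop (𝓝 0) := by
    have h2 : (fun x : ℝ => Real.log x ^ k) =o[atTop] fun x => x ^ (1 / 2 : ℝ) := by
      have := isLittleO_log_rpow_rpow_atTop (s := 1 / 2) (k : ℝ) (by norm_num)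
      simpa using this
    exact (h2.tendsto_div_nhds_zero).comp tendsto_natCast_atTop_atTop
  refine h1.congr' ?_
  filter_upwards [eventually_ge_atTop 1] with x hx
  have hx0 : (0 : ℝ) < x := by exact_mod_cast hx
  rw [← Real.sqrt_eq_rpow]
  have h2 : √(x : ℝ) * √(x : ℝ) = x := Real.mul_self_sqrt hx0.le
  have h3 : 0 < √(x : ℝ) := Real.sqrt_pos.2 hx0
  rw [div_eq_div_iff h3.ne' hx0.ne']
  calc Real.log x ^ k * x = Real.log x ^ k * (√(x : ℝ) * √(x : ℝ)) := by rw [h2]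
    _ = √(x : ℝ) * Real.log x ^ k * √(x : ℝ) := by ring

theorem algL (c1 c2 x S Pp L : ℝ) (k : ℕ) (hx : 0 < x) (hL : 0 < L) :
    (c1 * ((c2 * x) * (S * Pp)) - x / L ^ (k + 1)) * L ^ k / x = c1 * (c2 * (S * (Pp * L ^ k))) - 1 / L := by
  have h1 : x / L ^ (k + 1) * L ^ k / x = 1 / L := by
    rw [pow_succ]
    field_simp
  rw [sub_mul, sub_div, h1]
  congr 1
  field_simp

theorem algU (s c j x S V0 Pp L : ℝ) (k : ℕ) (hx : 0 < x) (hL : 0 < L) :
    (s + (2 * ((x / j) * (S * V0 ^ k)) + x / L ^ (k + 1)) + (c * (x * (S * Pp)) + x / L ^ (k + 1))) * L ^ k / x =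
      s * L ^ k / x + ((2 / j) * (S * (V0 * L) ^ k) + 1 / L) + (c * (S * (Pp * L ^ k)) + 1 / L) := by
  have h1 : x / L ^ (k + 1) * L ^ k / x = 1 / L := by
    rw [pow_succ]
    field_simp
  rw [← h1, mul_pow]
  field_simp

/-- **The asymptotic formula for a fixed system.** -/
theorem asym (z W : ℕ → ℕ) (hz : Limit z) (b : ℕ → ℕ) (hOK : OK z W b) (C : Arr k D) (P0 A : ℕ)
    (hA : 1 ≤ A) (hgood : ∀ p, p.Prime → P0 < p → Good C p)
    (hlow : ∀ᶠ x : ℕ in atTop, ∀ m, Nat.sqrt x < m → m ≤ x → ∀ i, (TT (1 / 4) x : ℤ) ≤ evl (C i) m ∧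
      evl (C i) m ≤ (x ^ A : ℕ)) (d : Fin k → ℝ) (hd : ∀ i, 0 < d i)
    (hlohi : ∀ J : ℕ, 1 ≤ J → ∃ lo hi : Fin k → ℕ → ℕ,
      (∀ᶠ x : ℕ in atTop, ∀ m, x / J < m → m ≤ x → ∀ i, (lo i x : ℤ) ≤ evl (C i) m ∧ evl (C i) m ≤ hi i x) ∧
      (∀ᶠ x : ℕ in atTop, ∀ i, TT (1 / 4) x ≤ lo i x ∧ hi i x ≤ x ^ A) ∧
      (∀ i, Tendsto (fun x : ℕ => V (z (lo i x)) * Real.log x) atTop (𝓝 (1 / d i))) ∧
      (∀ i, Tendsto (fun x : ℕ => V (z (hi i x)) * Real.log x) atTop (𝓝 (1 / d i))))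
    (S : ℝ) (hS : Tendsto (fun x : ℕ => Sg C (W (TT (1 / 4) x))) atTop (𝓝 S)) :
    Tendsto (fun x : ℕ => (cnt C (RS z W b) 0 x : ℝ) * Real.log x ^ k / x) atTop (𝓝 (S * ∏ i, (1 / d i))) := by
  set Q := S * ∏ i, (1 / d i) with hQ
  have hS0 : 0 ≤ S := ge_of_tendsto' hS fun x => Sg_nonneg C _
  have hQ0 : 0 ≤ Q := mul_nonneg hS0 (prod_nonneg fun i _ => by have := hd i; positivity)
  have hbox : ∀ᶠ x : ℕ in atTop, C ∈ box k D (x ^ A) := by
    obtain ⟨H, hH⟩ : ∃ H : ℕ, ∀ i j, |C i j| ≤ H := by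
      refine ⟨∑ i, ∑ j, (C i j).natAbs, fun i j => ?_⟩
      have h1 : (C i j).natAbs ≤ ∑ i, ∑ j, (C i j).natAbs :=
        (single_le_sum (f := fun j => (C i j).natAbs) (fun _ _ => Nat.zero_le _) (mem_univ j)).trans
          (single_le_sum (f := fun i => ∑ j, (C i j).natAbs) (fun _ _ => Nat.zero_le _) (mem_univ i))
      rw [Int.abs_eq_natAbs]
      exact_mod_cast h1
    filter_upwards [eventually_ge_atTop H, eventually_ge_atTop 1] with x h1 h2
    rw [mem_box]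
    intro i j
    refine (hH i j).trans ?_
    exact_mod_cast h1.trans (Nat.le_self_pow (by omega) x)
  have hinv : Tendsto (fun x : ℕ => 1 / Real.log x) atTop (𝓝 0) := tendsto_const_nhds.div_atTop log_top
  -- the two bounds
  have key : ∀ J n : ℕ, 1 ≤ J → ∃ U Lw : ℕ → ℝ,
      Tendsto U atTop (𝓝 ((2 / J) * (S * 4 ^ k) + (1 + 1 / ((n : ℝ) + 1)) * Q)) ∧
      Tendsto Lw atTop (𝓝 ((1 - 1 / ((n : ℝ) + 1)) * ((1 - 1 / (J : ℝ)) * Q))) ∧
      ∀ᶠ x : ℕ in atTop, Lw x ≤ (cnt C (RS z W b) 0 x : ℝ) * Real.log x ^ k / x ∧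
        (cnt C (RS z W b) 0 x : ℝ) * Real.log x ^ k / x ≤ U x := by
    intro J n hJ
    obtain ⟨lo, hi, h1, h2, h3, h4⟩ := hlohi J hJ
    have hJ0 : (0 : ℝ) < J := by exact_mod_cast hJ
    refine ⟨fun x => √(x : ℝ) * Real.log x ^ k / x + ((2 / J) * (Sg C (W (TT (1 / 4) x)) *
        (V (z (TT (1 / 4) x)) * Real.log x) ^ k) + 1 / Real.log x) +
        ((1 + 1 / ((n : ℝ) + 1)) * (Sg C (W (TT (1 / 4) x)) * ∏ i, (V (z (lo i x)) * Real.log x)) + 1 / Real.log x),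
      fun x => (1 - 1 / ((n : ℝ) + 1)) * ((1 - 1 / (J : ℝ)) * (Sg C (W (TT (1 / 4) x)) *
        ∏ i, (V (z (hi i x)) * Real.log x))) - 1 / Real.log x, ?_, ?_, ?_⟩
    · have e1 := sqrt_lim k
      have e2 := (z_TT_lim z hz (1 / 4) (by norm_num)).pow k
      have e3 : Tendsto (fun x : ℕ => ∏ i, (V (z (lo i x)) * Real.log x)) atTop (𝓝 (∏ i, (1 / d i))) :=
        tendsto_finsetProd _ fun i _ => h3 i
      have e4 := (e1.add (((hS.mul e2).const_mul (2 / (J : ℝ))).add hinv)).add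
        (((hS.mul e3).const_mul (1 + 1 / ((n : ℝ) + 1))).add hinv)
      have e5 : (0 : ℝ) + (2 / (J : ℝ) * (S * (1 / (1 / 4)) ^ k) + 0) + ((1 + 1 / ((n : ℝ) + 1)) *
          (S * ∏ i, 1 / d i) + 0) = (2 / J) * (S * 4 ^ k) + (1 + 1 / ((n : ℝ) + 1)) * Q := by
        rw [hQ]
        norm_num
      rw [e5] at e4
      exact e4
    · have e3 : Tendsto (fun x : ℕ => ∏ i, (V (z (hi i x)) * Real.log x)) atTop (𝓝 (∏ i, (1 / d i))) :=
        tendsto_finsetProd _ fun i _ => h4 i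
      have e4 := (((hS.mul e3).const_mul (1 - 1 / (J : ℝ))).const_mul (1 - 1 / ((n : ℝ) + 1))).sub hinv
      rw [sub_zero] at e4
      exact e4
    · filter_upwards [hbox, hlow, h1, h2, hOK k D A P0 (k + 1) n hA, hOK k D A P0 (k + 1) 0 hA,
        log_top.eventually_ge_atTop 1, eventually_ge_atTop (4 * J ^ 2 + 4)] with x b1 b2 b3 b4 b5 b6 b7 b8
      set L := Real.log x with hL
      have hL0 : 0 < L := by linarith
      have hx0 : (0 : ℝ) < x := by
        have : 0 < x := by omega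
        exact_mod_cast this
      set Sx := Sg C (W (TT (1 / 4) x)) with hSx
      have hSx0 : 0 ≤ Sx := Sg_nonneg _ _
      have hLk : 0 < L ^ k := pow_pos hL0 k
      have hJx : x / J ≤ x := Nat.div_le_self x J
      -- the two pieces
      have c1 := b5 C b1 hgood (x / J) (x - x / J) (fun i => lo i x) (fun i => hi i x) hJx (Nat.sub_le _ _)
        (fun i => (b4 i).1) (fun i => (b4 i).2) (by
          intro m hm i
          rw [mem_Ioc] at hm
          exact b3 m hm.1 (by omega) i)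
      have hsJ : Nat.sqrt x ≤ x / J := by
        have hs1 : Nat.sqrt x * Nat.sqrt x ≤ x := Nat.sqrt_le x
        have hs2 : x < (Nat.sqrt x + 1) * (Nat.sqrt x + 1) := Nat.lt_succ_sqrt x
        rw [Nat.le_div_iff_mul_le (by omega)]
        have hJs : J ≤ Nat.sqrt x := by
          rw [Nat.le_sqrt]
          nlinarith
        calc Nat.sqrt x * J ≤ Nat.sqrt x * Nat.sqrt x := Nat.mul_le_mul_left _ hJs
          _ ≤ x := hs1
      have c2 := b6 C b1 hgood (Nat.sqrt x) (x / J - Nat.sqrt x) (fun _ => TT (1 / 4) x) (fun _ => x ^ A)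
        (Nat.sqrt_le_self x) (by omega) (fun i => le_rfl) (fun i => le_rfl) (by
          intro m hm i
          rw [mem_Ioc] at hm
          exact b2 m hm.1 (by omega) i)
      have hsplit : cnt C (RS z W b) 0 x = cnt C (RS z W b) 0 (Nat.sqrt x) +
          cnt C (RS z W b) (Nat.sqrt x) (x / J - Nat.sqrt x) + cnt C (RS z W b) (x / J) (x - x / J) := by
        have e1 : x = Nat.sqrt x + (x / J - Nat.sqrt x) + (x - x / J) := by omega
        conv_lhs => rw [e1]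
        rw [cnt_add, cnt_add]
        have e2 : 0 + (Nat.sqrt x + (x / J - Nat.sqrt x)) = x / J := by omega
        rw [e2, zero_add]
      have hLpow : ∀ f : Fin k → ℝ, (∏ i, f i) * L ^ k = ∏ i, (f i * L) := by
        intro f
        rw [prod_mul_distrib, prod_const, card_univ, Fintype.card_fin]
      constructor
      · -- lower bound
        have e1 : (cnt C (RS z W b) (x / J) (x - x / J) : ℝ) ≤ cnt C (RS z W b) 0 x := by
          rw [hsplit]
          push_cast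
          have : (0 : ℝ) ≤ cnt C (RS z W b) 0 (Nat.sqrt x) := Nat.cast_nonneg _
          have : (0 : ℝ) ≤ cnt C (RS z W b) (Nat.sqrt x) (x / J - Nat.sqrt x) := Nat.cast_nonneg _
          linarith
        have e2 : (1 - 1 / (J : ℝ)) * x ≤ ((x - x / J : ℕ) : ℝ) := by
          rw [Nat.cast_sub hJx]
          have : ((x / J : ℕ) : ℝ) ≤ (x : ℝ) / J := Nat.cast_div_le
          have h6 : (x : ℝ) / J = 1 / (J : ℝ) * x := by ring
          linarith
        have hP0 : 0 ≤ Sx * ∏ i, V (z (hi i x)) := mul_nonneg hSx0 (prod_nonneg fun i _ => (V_pos _).le)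
        have hn1 : 0 ≤ 1 - 1 / ((n : ℝ) + 1) := by
          have : 1 / ((n : ℝ) + 1) ≤ 1 := by
            rw [div_le_one (by positivity)]
            linarith [(Nat.cast_nonneg n : (0 : ℝ) ≤ n)]
          linarith
        have e3 : (1 - 1 / ((n : ℝ) + 1)) * (((1 - 1 / (J : ℝ)) * x) * (Sx * ∏ i, V (z (hi i x)))) - x / L ^ (k + 1) ≤
            cnt C (RS z W b) 0 x := by
          have e4 : (1 - 1 / ((n : ℝ) + 1)) * (((1 - 1 / (J : ℝ)) * x) * (Sx * ∏ i, V (z (hi i x)))) ≤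
              (1 - 1 / ((n : ℝ) + 1)) * (((x - x / J : ℕ) : ℝ) * (Sx * ∏ i, V (z (hi i x)))) := by gcongr
          linarith [c1.1]
        have e5 := div_le_div_of_nonneg_right (mul_le_mul_of_nonneg_right e3 hLk.le) hx0.le
        refine le_trans (le_of_eq ?_) e5
        rw [algL _ _ _ _ _ _ _ hx0 hL0, hLpow]
      · -- upper bound
        have e1 : (cnt C (RS z W b) 0 (Nat.sqrt x) : ℝ) ≤ √x := by
          have h5 : (cnt C (RS z W b) 0 (Nat.sqrt x) : ℝ) ≤ (Nat.sqrt x : ℝ) := by exact_mod_cast cnt_le _ _ _ _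
          refine h5.trans ?_
          rw [← Real.sqrt_sq (Nat.cast_nonneg (Nat.sqrt x))]
          exact Real.sqrt_le_sqrt (by exact_mod_cast Nat.sqrt_le' x)
        have e2 : ((x / J - Nat.sqrt x : ℕ) : ℝ) ≤ x / J := by
          calc ((x / J - Nat.sqrt x : ℕ) : ℝ) ≤ ((x / J : ℕ) : ℝ) := by exact_mod_cast Nat.sub_le _ _
            _ ≤ x / J := Nat.cast_div_le
        have e3 : ((x - x / J : ℕ) : ℝ) ≤ x := by exact_mod_cast Nat.sub_le _ _
        have hP0 : 0 ≤ Sx * ∏ i, V (z (lo i x)) := mul_nonneg hSx0 (prod_nonneg fun i _ => (V_pos _).le)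
        have hP1 : 0 ≤ Sx * V (z (TT (1 / 4) x)) ^ k := mul_nonneg hSx0 (pow_nonneg (V_pos _).le _)
        have c1' := c1.2
        have c2' := c2.2
        simp only [prod_const, card_univ, Fintype.card_fin, Nat.cast_zero, zero_add, div_one] at c2'
        have e4 : (cnt C (RS z W b) 0 x : ℝ) ≤ √x + (2 * ((x / J) * (Sx * V (z (TT (1 / 4) x)) ^ k)) + x / L ^ (k + 1)) +
            ((1 + 1 / ((n : ℝ) + 1)) * (x * (Sx * ∏ i, V (z (lo i x)))) + x / L ^ (k + 1)) := by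
          rw [hsplit]
          push_cast
          have e5 : (1 + 1) * (((x / J - Nat.sqrt x : ℕ) : ℝ) * (Sx * V (z (TT (1 / 4) x)) ^ k)) ≤
              2 * ((x / J) * (Sx * V (z (TT (1 / 4) x)) ^ k)) := by
            have := mul_le_mul_of_nonneg_right e2 hP1
            linarith
          have e6 : (1 + 1 / ((n : ℝ) + 1)) * (((x - x / J : ℕ) : ℝ) * (Sx * ∏ i, V (z (lo i x)))) ≤
              (1 + 1 / ((n : ℝ) + 1)) * (x * (Sx * ∏ i, V (z (lo i x)))) := by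
            have := mul_le_mul_of_nonneg_right e3 hP0
            gcongr
          linarith
        have e5 := div_le_div_of_nonneg_right (mul_le_mul_of_nonneg_right e4 hLk.le) hx0.le
        refine e5.trans (le_of_eq ?_)
        rw [algU _ _ _ _ _ _ _ _ _ hx0 hL0, hLpow]
  rw [Metric.tendsto_atTop]
  intro e he
  obtain ⟨J, hJ⟩ := exists_nat_ge ((4 * (2 * (S * 4 ^ k)) + 4 * Q) / e + 1)
  obtain ⟨n, hn⟩ := exists_nat_ge (4 * Q / e)
  have hJ1 : (1 : ℝ) ≤ J := by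
    have : 0 ≤ (4 * (2 * (S * 4 ^ k)) + 4 * Q) / e := by positivity
    linarith
  have hJ1' : 1 ≤ J := by exact_mod_cast hJ1
  have hJ0 : (0 : ℝ) < J := by linarith
  obtain ⟨U, Lw, hU, hL, hUL⟩ := key J n hJ1'
  have hJe : (4 * (2 * (S * 4 ^ k)) + 4 * Q) ≤ e * J := by
    have h1 : (4 * (2 * (S * 4 ^ k)) + 4 * Q) / e ≤ J := by linarith
    rw [div_le_iff₀ he] at h1
    linarith
  have hne : 4 * Q ≤ e * ((n : ℝ) + 1) := by
    rw [div_le_iff₀ he] at hn
    nlinarith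
  have hn0 : (0 : ℝ) < (n : ℝ) + 1 := by positivity
  have q1 : 1 / ((n : ℝ) + 1) * Q ≤ e / 4 := by
    rw [one_div_mul_eq_div, div_le_iff₀ hn0]
    linarith
  have q2 : 2 / (J : ℝ) * (S * 4 ^ k) ≤ e / 4 := by
    rw [div_mul_eq_mul_div, div_le_iff₀ hJ0]
    linarith
  have q3 : 1 / (J : ℝ) * Q ≤ e / 4 := by
    rw [one_div_mul_eq_div, div_le_iff₀ hJ0]
    have : 0 ≤ S * 4 ^ k := by positivity
    linarith
  have hU1 : (2 / J) * (S * 4 ^ k) + (1 + 1 / ((n : ℝ) + 1)) * Q < Q + e := by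
    have : (1 + 1 / ((n : ℝ) + 1)) * Q = Q + 1 / ((n : ℝ) + 1) * Q := by ring
    rw [this]
    linarith
  have hL1 : Q - e < (1 - 1 / ((n : ℝ) + 1)) * ((1 - 1 / (J : ℝ)) * Q) := by
    have h5 : (1 - 1 / ((n : ℝ) + 1)) * ((1 - 1 / (J : ℝ)) * Q) =
        Q - 1 / ((n : ℝ) + 1) * Q - 1 / (J : ℝ) * Q + (1 / ((n : ℝ) + 1)) * (1 / (J : ℝ)) * Q := by ring
    rw [h5]
    have : 0 ≤ (1 / ((n : ℝ) + 1)) * (1 / (J : ℝ)) * Q := by positivity
    linarith
  obtain ⟨N, hN⟩ := eventually_atTop.1 ((hU.eventually_lt_const hU1).and ((hL.eventually_const_lt hL1).and hUL))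
  refine ⟨N, fun x hx => ?_⟩
  obtain ⟨r1, r2, r3, r4⟩ := hN x hx
  rw [Real.dist_eq, abs_lt]
  constructor <;> linarith

end Pool.Agent.H559.HY
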