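import Pool.Agent.H559.BS.Conc

set_option autoImplicit false

/-! # Concentration of the number of survivors of a random sieve: several killing classes -/

open Finset MeasureTheory ProbabilityTheory
open Pool.Agent.T2H32.BF (Model prob sg sg_le sg_meas indep_sg split_class)

namespace Pool.Agent.H559.HY

variable {Ω : Type*} [MeasurableSpace Ω] {P : Measure Ω} {a : ℕ → Ω → ℕ}

/-- the elements of `A` with `b p` not in `kl p v` for all `p ∈ L` -/
def surv (kl : ℕ → ℕ → Finset ℕ) (b : ℕ → ℕ) (L A : Finset ℕ) : Finset ℕ := A.filter (fun v => ∀ p ∈ L, b p ∉ kl p v)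

/-- exactly `k` survivors -/
def Ev (kl : ℕ → ℕ → Finset ℕ) (a : ℕ → Ω → ℕ) (L A : Finset ℕ) (k : ℕ) : Set Ω :=
  {ω | (surv kl (fun i => a i ω) L A).card = k}

omit [MeasurableSpace Ω] in
theorem Ev_sg (kl : ℕ → ℕ → Finset ℕ) (a : ℕ → Ω → ℕ) (L A : Finset ℕ) (k : ℕ) :
    @MeasurableSet _ (sg a L) (Ev kl a L A k) := by
  classical
  have e : Ev kl a L A k = ⋃ B ∈ (A.powerset.filter (fun B => B.card = k)),
      ⋂ v ∈ A, {ω | v ∈ B ↔ ∀ p ∈ L, a p ω ∉ kl p v} := by
    ext ω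
    simp only [Ev, Set.mem_ofPred_eq, Set.mem_iUnion, Set.mem_iInter, mem_filter, mem_powerset, exists_prop]
    constructor
    · intro h
      refine ⟨surv kl (fun i => a i ω) L A, ⟨filter_subset _ _, h⟩, fun v hv => ?_⟩
      unfold surv
      rw [mem_filter]
      exact ⟨fun h => h.2, fun h => ⟨hv, h⟩⟩
    · rintro ⟨B, ⟨hB, hk⟩, h⟩
      have : surv kl (fun i => a i ω) L A = B := by
        ext v
        unfold surv
        rw [mem_filter]
        constructor
        · rintro ⟨h1, h2⟩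
          exact (h v h1).2 h2
        · intro h1
          exact ⟨hB h1, (h v (hB h1)).1 h1⟩
      rw [this, hk]
  rw [e]
  refine @Finset.measurableSet_biUnion _ _ (sg a L) _ _ fun B _ => ?_
  refine @Finset.measurableSet_biInter _ _ (sg a L) _ _ fun v _ => ?_
  have h1 : @MeasurableSet _ (sg a L) {ω | ∀ p ∈ L, a p ω ∉ kl p v} := by
    have e2 : {ω | ∀ p ∈ L, a p ω ∉ kl p v} = ⋂ p ∈ L, {ω | a p ω ∈ ((kl p v : Set ℕ))ᶜ} := by
      ext ω
      simp only [Set.mem_ofPred_eq, Set.mem_iInter, Set.mem_compl_iff, mem_coe]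
    rw [e2]
    refine @Finset.measurableSet_biInter _ _ (sg a L) _ _ fun p hp => ?_
    exact sg_meas a L p (by exact_mod_cast hp) _
  by_cases hv : v ∈ B
  · have e3 : {ω | v ∈ B ↔ ∀ p ∈ L, a p ω ∉ kl p v} = {ω | ∀ p ∈ L, a p ω ∉ kl p v} := by
      ext ω
      simp only [Set.mem_ofPred_eq, hv, true_iff]
    rw [e3]
    exact h1
  · have e3 : {ω | v ∈ B ↔ ∀ p ∈ L, a p ω ∉ kl p v} = {ω | ∀ p ∈ L, a p ω ∉ kl p v}ᶜ := by
      ext ω
      simp only [Set.mem_ofPred_eq, hv, false_iff, Set.mem_compl_iff]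
    rw [e3]
    exact h1.compl

theorem Ev_meas (h : Model P a) (kl : ℕ → ℕ → Finset ℕ) (L A : Finset ℕ) (k : ℕ) : MeasurableSet (Ev kl a L A k) :=
  sg_le h L _ (Ev_sg kl a L A k)

theorem Ev_insert (h : Model P a) (kl : ℕ → ℕ → Finset ℕ) (A L : Finset ℕ) (k p : ℕ) (hp : p.Prime) (hpL : p ∉ L) :
    P.real (Ev kl a (insert p L) A k) =
      (1 / p) * ∑ r ∈ range p, P.real (Ev kl a L (A.filter (fun u => r ∉ kl p u)) k) := by
  have := prob h
  rw [split_class h p hp _ (Ev_meas h _ _ _ _), mul_sum]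
  refine sum_congr rfl fun r hr => ?_
  have e : {ω | a p ω = r} ∩ Ev kl a (insert p L) A k =
      {ω | a p ω ∈ ({r} : Set ℕ)} ∩ Ev kl a L (A.filter (fun u => r ∉ kl p u)) k := by
    ext ω
    simp only [Set.mem_inter_iff, Ev, Set.mem_ofPred_eq, Set.mem_singleton_iff]
    refine and_congr_right fun h1 => ?_
    have e2 : surv kl (fun i => a i ω) (insert p L) A = surv kl (fun i => a i ω) L (A.filter (fun u => r ∉ kl p u)) := by
      ext v
      unfold surv
      simp only [mem_filter, mem_insert, forall_eq_or_imp, h1]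
      tauto
    rw [e2]
  rw [e, measureReal_def, indep_sg h {p} L (by
      rw [Set.disjoint_singleton_left]
      exact_mod_cast hpL) _ _ (sg_meas a {p} p rfl _) (Ev_sg kl a L _ _), ENNReal.toReal_mul]
  have h1 : (P {ω | a p ω ∈ ({r} : Set ℕ)}).toReal = 1 / p := by
    have := h.uniform p hp r (mem_range.1 hr)
    rw [measureReal_def] at this
    exact this
  rw [h1, measureReal_def]

/-- exponential moment of the number of survivors -/
noncomputable def mg (P : Measure Ω) (kl : ℕ → ℕ → Finset ℕ) (a : ℕ → Ω → ℕ) (K : ℕ) (θ : ℝ) (L A : Finset ℕ) : ℝ :=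
  ∑ k ∈ range (K + 1), Real.exp (θ * k) * P.real (Ev kl a L A k)

theorem mg_insert (h : Model P a) (kl : ℕ → ℕ → Finset ℕ) (K : ℕ) (θ : ℝ) (A L : Finset ℕ) (p : ℕ) (hp : p.Prime)
    (hpL : p ∉ L) :
    mg P kl a K θ (insert p L) A = (1 / p) * ∑ r ∈ range p, mg P kl a K θ L (A.filter (fun u => r ∉ kl p u)) := by
  unfold mg
  rw [sum_comm, mul_sum]
  refine sum_congr rfl fun k _ => ?_
  rw [Ev_insert h kl A L k p hp hpL, ← mul_sum]
  ring

theorem mg_empty (h : Model P a) (kl : ℕ → ℕ → Finset ℕ) (K : ℕ) (θ : ℝ) (A : Finset ℕ) (hA : A.card ≤ K) :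
    mg P kl a K θ ∅ A = Real.exp (θ * A.card) := by
  have := prob h
  unfold mg
  have hs : ∀ ω, surv kl (fun i => a i ω) ∅ A = A := by
    intro ω
    unfold surv
    simp
  rw [sum_eq_single_of_mem A.card (mem_range.2 (by omega))]
  · have : Ev kl a ∅ A A.card = Set.univ := by
      ext ω
      simp [Ev, hs]
    rw [this]
    simp
  · intro k _ hk
    have : Ev kl a ∅ A k = ∅ := by
      ext ω
      simp only [Ev, hs, Set.mem_ofPred_eq, Set.mem_empty_iff_false, iff_false]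
      exact fun h => hk h.symm
    rw [this]
    simp

theorem card_classes (kl : ℕ → ℕ → Finset ℕ) (A : Finset ℕ) (p : ℕ) (hkl : ∀ u, kl p u ⊆ range p) :
    ∑ r ∈ range p, ((A.filter (fun u => r ∈ kl p u)).card : ℝ) = ∑ u ∈ A, ((kl p u).card : ℝ) := by
  have h1 : ∀ r, ((A.filter (fun u => r ∈ kl p u)).card : ℝ) = ∑ u ∈ A, if r ∈ kl p u then (1 : ℝ) else 0 := by
    intro r
    rw [card_filter]
    push_cast
    rfl
  simp only [h1]
  rw [sum_comm]
  refine sum_congr rfl fun u _ => ?_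
  rw [← sum_filter, sum_const, nsmul_eq_mul, mul_one]
  congr 1
  rw [filter_mem_eq_inter, inter_eq_right.2 (hkl u)]

/-- the average of the exponentials of `-(v (n r - nb))` -/
theorem avg_le (p : ℕ) (hp : 0 < p) (n : ℕ → ℝ) (v θ c N : ℝ) (hn0 : ∀ r, 0 ≤ n r) (hc : ∀ r, n r ≤ c)
    (hN : ∑ r ∈ range p, n r ≤ N) (hv : |v| ≤ |θ|) (hθ : |θ| * c ≤ 1) :
    (1 / (p : ℝ)) * ∑ r ∈ range p, Real.exp (-(v * (n r - (∑ r ∈ range p, n r) / p))) ≤
      Real.exp (θ ^ 2 * (N * (c / p))) := by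
  have hp0 : (0 : ℝ) < p := by exact_mod_cast hp
  have hc0 : 0 ≤ c := (hn0 0).trans (hc 0)
  set s := ∑ r ∈ range p, n r with hs
  set nb : ℝ := s / p with hnb
  have hs0 : 0 ≤ s := sum_nonneg fun r _ => hn0 r
  have hnb0 : 0 ≤ nb := div_nonneg hs0 hp0.le
  have hnbc : nb ≤ c := by
    rw [hnb, div_le_iff₀ hp0]
    calc s ≤ ∑ _r ∈ range p, c := sum_le_sum fun r _ => hc r
      _ = c * p := by simp [mul_comm]
  have e0 : s = p * nb := by
    rw [hnb]
    field_simp
  have h2 := Pool.Agent.H559.BS.exp_avg p hp (fun r => -(v * (n r - nb))) (by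
    have e : ∀ r, -(v * (n r - nb)) = -v * n r + v * nb := fun r => by ring
    simp only [e]
    rw [sum_add_distrib, ← mul_sum, sum_const, card_range, nsmul_eq_mul, ← hs, e0]
    ring) (by
    intro r _
    rw [abs_neg, abs_mul]
    have h3 : |n r - nb| ≤ c := by
      rw [abs_le]
      constructor
      · have := hn0 r
        linarith
      · have := hc r
        linarith
    calc |v| * |n r - nb| ≤ |θ| * c := mul_le_mul hv h3 (abs_nonneg _) (abs_nonneg _)
      _ ≤ 1 := hθ)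
  refine h2.trans (Real.exp_le_exp.2 ?_)
  have e : ∑ r ∈ range p, (-(v * (n r - nb))) ^ 2 = v ^ 2 * (∑ r ∈ range p, n r ^ 2 - (p : ℝ) * nb ^ 2) := by
    have e1 : ∀ r, (-(v * (n r - nb))) ^ 2 = v ^ 2 * n r ^ 2 - v ^ 2 * (2 * nb) * n r + v ^ 2 * nb ^ 2 :=
      fun r => by ring
    simp only [e1]
    rw [sum_add_distrib, sum_sub_distrib, ← mul_sum, ← mul_sum, ← hs, e0, sum_const, card_range, nsmul_eq_mul]
    ring
  have h4 : ∑ r ∈ range p, n r ^ 2 ≤ c * N := by
    calc ∑ r ∈ range p, n r ^ 2 ≤ ∑ r ∈ range p, c * n r := by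
          refine sum_le_sum fun r _ => ?_
          rw [sq]
          exact mul_le_mul_of_nonneg_right (hc r) (hn0 r)
      _ = c * ∑ r ∈ range p, n r := by rw [mul_sum]
      _ ≤ _ := mul_le_mul_of_nonneg_left hN hc0
  have h5 : v ^ 2 ≤ θ ^ 2 := by
    rw [← sq_abs v, ← sq_abs θ]
    exact pow_le_pow_left₀ (abs_nonneg _) hv 2
  have hN0 : 0 ≤ N := hs0.trans hN
  have h6 : ∑ r ∈ range p, n r ^ 2 - (p : ℝ) * nb ^ 2 ≤ c * N := by
    have : 0 ≤ (p : ℝ) * nb ^ 2 := by positivity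
    linarith
  have h8 : 0 ≤ c * N := by positivity
  rw [e]
  calc (1 / (p : ℝ)) * (v ^ 2 * (∑ r ∈ range p, n r ^ 2 - (p : ℝ) * nb ^ 2)) ≤
        (1 / (p : ℝ)) * (θ ^ 2 * (c * N)) := by
        refine mul_le_mul_of_nonneg_left ?_ (by positivity)
        exact (mul_le_mul_of_nonneg_left h6 (sq_nonneg v)).trans (mul_le_mul_of_nonneg_right h5 h8)
    _ = θ ^ 2 * (N * (c / p)) := by ring

/-- one step of the induction -/
theorem step_le (p : ℕ) (hp : 0 < p) (n G : ℕ → ℝ) (θ W A wp Dp E S c κ : ℝ) (hn0 : ∀ r, 0 ≤ n r)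
    (hc : ∀ r, n r ≤ c) (hN : ∑ r ∈ range p, n r ≤ κ * A) (hθ : |θ| * c ≤ 1) (hW0 : 0 ≤ W) (hW1 : W ≤ 1)
    (hS0 : 0 ≤ S) (hnb : |(∑ r ∈ range p, n r) / p - A * wp / p| ≤ Dp / p)
    (hG : ∀ r ∈ range p, G r ≤ Real.exp (θ * ((A - n r) * W) + |θ| * E + θ ^ 2 * ((A - n r) * S))) :
    (1 / (p : ℝ)) * ∑ r ∈ range p, G r ≤
      Real.exp (θ * (A * ((1 - wp / p) * W)) + |θ| * (Dp / p + E) + θ ^ 2 * (A * (κ * c / p + S))) := by
  have hp0 : (0 : ℝ) < p := by exact_mod_cast hp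
  have h0 := avg_le p hp n (θ * W) θ c (κ * A) hn0 hc hN (by
    rw [abs_mul, abs_of_nonneg hW0]
    calc |θ| * W ≤ |θ| * 1 := mul_le_mul_of_nonneg_left hW1 (abs_nonneg _)
      _ = |θ| := mul_one _) hθ
  set nb : ℝ := (∑ r ∈ range p, n r) / p with hnbd
  set M : ℝ := θ * (A * ((1 - wp / p) * W)) + |θ| * (Dp / p + E) + θ ^ 2 * (A * S) with hM
  have h1 : ∀ r ∈ range p, G r ≤ Real.exp M * Real.exp (-(θ * W * (n r - nb))) := by
    intro r hr
    refine (hG r hr).trans ?_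
    rw [← Real.exp_add]
    apply Real.exp_le_exp.2
    have h3 : θ ^ 2 * ((A - n r) * S) ≤ θ ^ 2 * (A * S) := by
      have := hn0 r
      have h5 : (A - n r) * S ≤ A * S := mul_le_mul_of_nonneg_right (by linarith) hS0
      exact mul_le_mul_of_nonneg_left h5 (sq_nonneg θ)
    have h4 : θ * ((A - n r) * W) = θ * (A * ((1 - wp / p) * W)) + -(θ * W * (n r - nb)) -
        θ * W * (nb - A * wp / p) := by
      ring
    have h5 : -(θ * W * (nb - A * wp / p)) ≤ |θ| * (Dp / p) := by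
      calc -(θ * W * (nb - A * wp / p)) ≤ |-(θ * W * (nb - A * wp / p))| := le_abs_self _
        _ = |θ| * W * |nb - A * wp / p| := by rw [abs_neg, abs_mul, abs_mul, abs_of_nonneg hW0]
        _ ≤ |θ| * 1 * (Dp / p) := by
            have : 0 ≤ |θ| := abs_nonneg _
            exact mul_le_mul (mul_le_mul_of_nonneg_left hW1 this) hnb (abs_nonneg _) (by linarith)
        _ = _ := by ring
    rw [h4, hM, mul_add |θ|]
    linarith
  calc (1 / (p : ℝ)) * ∑ r ∈ range p, G r ≤ (1 / (p : ℝ)) * ∑ r ∈ range p, Real.exp M *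
        Real.exp (-(θ * W * (n r - nb))) :=
        mul_le_mul_of_nonneg_left (sum_le_sum h1) (by positivity)
    _ = Real.exp M * ((1 / (p : ℝ)) * ∑ r ∈ range p, Real.exp (-(θ * W * (n r - nb)))) := by
        rw [← mul_sum]
        ring
    _ ≤ Real.exp M * Real.exp (θ ^ 2 * (κ * A * (c / p))) := mul_le_mul_of_nonneg_left h0 (Real.exp_pos _).le
    _ = _ := by
        rw [← Real.exp_add, hM]
        congr 1
        ring

/-- **The exponential moment.** -/
theorem mg_le (h : Model P a) (kl : ℕ → ℕ → Finset ℕ) (K : ℕ) (θ : ℝ) (w D c : ℕ → ℝ) (κ : ℝ) (L : Finset ℕ)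
    (hL : ∀ p ∈ L, p.Prime) (hkl : ∀ p ∈ L, ∀ u, kl p u ⊆ range p) (hw0 : ∀ p ∈ L, 0 ≤ w p) (hw1 : ∀ p ∈ L, w p ≤ p)
    (hκ : ∀ p ∈ L, ∀ u, ((kl p u).card : ℝ) ≤ κ) (hθ : ∀ p ∈ L, |θ| * c p ≤ 1) :
    ∀ A : Finset ℕ, A.card ≤ K → (∀ p ∈ L, ∀ r, ((A.filter (fun u => r ∈ kl p u)).card : ℝ) ≤ c p) →
      (∀ p ∈ L, ∑ u ∈ A, |w p - (kl p u).card| ≤ D p) →
      mg P kl a K θ L A ≤ Real.exp (θ * (A.card * ∏ p ∈ L, (1 - w p / (p : ℝ))) +
        |θ| * (∑ p ∈ L, D p / p) + θ ^ 2 * (A.card * ∑ p ∈ L, κ * c p / p)) := by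
  induction L using Finset.induction_on with
  | empty =>
    intro A hA _ _
    rw [mg_empty h kl K θ A hA]
    simp
  | @insert p L hpL ih =>
    intro A hA hc hD
    have hp : p.Prime := hL p (mem_insert_self _ _)
    have hp0 : (0 : ℝ) < p := by exact_mod_cast hp.pos
    have ih' := ih (fun q hq => hL q (mem_insert_of_mem hq)) (fun q hq => hkl q (mem_insert_of_mem hq))
      (fun q hq => hw0 q (mem_insert_of_mem hq)) (fun q hq => hw1 q (mem_insert_of_mem hq))
      (fun q hq => hκ q (mem_insert_of_mem hq)) (fun q hq => hθ q (mem_insert_of_mem hq))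
    have hfac : ∀ q ∈ L, 0 ≤ 1 - w q / (q : ℝ) ∧ 1 - w q / (q : ℝ) ≤ 1 := fun q hq => by
      have h2 : (0 : ℝ) < q := by exact_mod_cast (hL q (mem_insert_of_mem hq)).pos
      have h3 := hw0 q (mem_insert_of_mem hq)
      have h4 := hw1 q (mem_insert_of_mem hq)
      have h5 : w q / (q : ℝ) ≤ 1 := by rw [div_le_one h2]; exact h4
      have h6 : 0 ≤ w q / (q : ℝ) := by positivity
      constructor <;> linarith
    have hκp := hκ p (mem_insert_self _ _)
    have hκ0 : 0 ≤ κ := le_trans (Nat.cast_nonneg _) (hκp 0)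
    have hsum := card_classes kl A p (hkl p (mem_insert_self _ _))
    rw [mg_insert h kl K θ A L p hp hpL, prod_insert hpL, sum_insert hpL, sum_insert hpL]
    refine step_le p hp.pos (fun r => ((A.filter (fun u => r ∈ kl p u)).card : ℝ)) _ θ _ _ (w p) (D p) _ _ (c p) κ
      (fun r => Nat.cast_nonneg _) (fun r => hc p (mem_insert_self _ _) r) ?_ (hθ p (mem_insert_self _ _))
      (prod_nonneg fun q hq => (hfac q hq).1) (prod_le_one (fun q hq => (hfac q hq).1) (fun q hq => (hfac q hq).2))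
      ?_ ?_ ?_
    · rw [hsum]
      calc ∑ u ∈ A, ((kl p u).card : ℝ) ≤ ∑ _u ∈ A, κ := sum_le_sum fun u _ => hκp u
        _ = κ * A.card := by simp [mul_comm]
    · refine sum_nonneg fun q hq => ?_
      have h1 : (0 : ℝ) ≤ c q := le_trans (Nat.cast_nonneg _) (hc q (mem_insert_of_mem hq) 0)
      positivity
    · have h1 : (∑ u ∈ A, ((kl p u).card : ℝ)) / p - A.card * w p / p =
          -(∑ u ∈ A, (w p - ((kl p u).card : ℝ))) / p := by
        rw [sum_sub_distrib, sum_const, nsmul_eq_mul]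
        ring
      rw [hsum, h1, abs_div, abs_neg, abs_of_pos hp0]
      refine div_le_div_of_nonneg_right ?_ hp0.le
      exact (abs_sum_le_sum_abs _ _).trans (hD p (mem_insert_self _ _))
    · intro r _
      have hcompl : ((A.filter (fun u => r ∉ kl p u)).card : ℝ) =
          A.card - ((A.filter (fun u => r ∈ kl p u)).card : ℝ) := by
        have := card_filter_add_card_filter_not (s := A) (fun u => r ∈ kl p u)
        have h2 : ((A.filter (fun u => r ∈ kl p u)).card : ℝ) + ((A.filter (fun u => ¬ r ∈ kl p u)).card : ℝ) =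
            A.card := by
          exact_mod_cast this
        linarith
      have h2 := ih' (A.filter (fun u => r ∉ kl p u)) ((card_filter_le _ _).trans hA) (by
        intro q hq s
        refine le_trans ?_ (hc q (mem_insert_of_mem hq) s)
        exact_mod_cast card_le_card (filter_subset_filter _ (filter_subset _ _))) (by
        intro q hq
        refine le_trans ?_ (hD q (mem_insert_of_mem hq))
        exact sum_le_sum_of_subset_of_nonneg (filter_subset _ _) fun _ _ _ => abs_nonneg _)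
      rw [hcompl] at h2
      exact h2

theorem tail_up (h : Model P a) (kl : ℕ → ℕ → Finset ℕ) (K : ℕ) (θ : ℝ) (hθ : 0 ≤ θ) (L A : Finset ℕ)
    (hA : A.card ≤ K) (t : ℝ) :
    P.real {ω | t ≤ ((surv kl (fun i => a i ω) L A).card : ℝ)} ≤ Real.exp (-(θ * t)) * mg P kl a K θ L A := by
  have := prob h
  classical
  have e : {ω | t ≤ ((surv kl (fun i => a i ω) L A).card : ℝ)} ⊆
      ⋃ k ∈ (range (K + 1)).filter (fun k : ℕ => t ≤ (k : ℝ)), Ev kl a L A k := by
    intro ω hω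
    simp only [Set.mem_iUnion, mem_filter, mem_range, exists_prop]
    refine ⟨(surv kl (fun i => a i ω) L A).card, ⟨?_, hω⟩, rfl⟩
    have : (surv kl (fun i => a i ω) L A).card ≤ A.card := card_filter_le _ _
    omega
  refine (measureReal_mono e (measure_ne_top _ _)).trans ((measureReal_biUnion_finset_le _ _).trans ?_)
  unfold mg
  rw [mul_sum]
  calc ∑ k ∈ (range (K + 1)).filter (fun k : ℕ => t ≤ (k : ℝ)), P.real (Ev kl a L A k)
      ≤ ∑ k ∈ (range (K + 1)).filter (fun k : ℕ => t ≤ (k : ℝ)),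
          Real.exp (-(θ * t)) * (Real.exp (θ * k) * P.real (Ev kl a L A k)) := by
        refine sum_le_sum fun k hk => ?_
        rw [← mul_assoc, ← Real.exp_add]
        have h1 : (1 : ℝ) ≤ Real.exp (-(θ * t) + θ * k) := by
          apply Real.one_le_exp
          have := (mem_filter.1 hk).2
          nlinarith
        nlinarith [(measureReal_nonneg : 0 ≤ P.real (Ev kl a L A k))]
    _ ≤ _ := sum_le_sum_of_subset_of_nonneg (filter_subset _ _) fun k _ _ => by positivity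

theorem tail_low (h : Model P a) (kl : ℕ → ℕ → Finset ℕ) (K : ℕ) (θ : ℝ) (hθ : 0 ≤ θ) (L A : Finset ℕ)
    (hA : A.card ≤ K) (t : ℝ) :
    P.real {ω | ((surv kl (fun i => a i ω) L A).card : ℝ) ≤ t} ≤ Real.exp (θ * t) * mg P kl a K (-θ) L A := by
  have := prob h
  classical
  have e : {ω | ((surv kl (fun i => a i ω) L A).card : ℝ) ≤ t} ⊆
      ⋃ k ∈ (range (K + 1)).filter (fun k : ℕ => (k : ℝ) ≤ t), Ev kl a L A k := by
    intro ω hω
    simp only [Set.mem_iUnion, mem_filter, mem_range, exists_prop]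
    refine ⟨(surv kl (fun i => a i ω) L A).card, ⟨?_, hω⟩, rfl⟩
    have : (surv kl (fun i => a i ω) L A).card ≤ A.card := card_filter_le _ _
    omega
  refine (measureReal_mono e (measure_ne_top _ _)).trans ((measureReal_biUnion_finset_le _ _).trans ?_)
  unfold mg
  rw [mul_sum]
  calc ∑ k ∈ (range (K + 1)).filter (fun k : ℕ => (k : ℝ) ≤ t), P.real (Ev kl a L A k)
      ≤ ∑ k ∈ (range (K + 1)).filter (fun k : ℕ => (k : ℝ) ≤ t),
          Real.exp (θ * t) * (Real.exp (-θ * k) * P.real (Ev kl a L A k)) := by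
        refine sum_le_sum fun k hk => ?_
        rw [← mul_assoc, ← Real.exp_add]
        have h1 : (1 : ℝ) ≤ Real.exp (θ * t + -θ * k) := by
          apply Real.one_le_exp
          have := (mem_filter.1 hk).2
          nlinarith
        nlinarith [(measureReal_nonneg : 0 ≤ P.real (Ev kl a L A k))]
    _ ≤ _ := sum_le_sum_of_subset_of_nonneg (filter_subset _ _) fun k _ _ => by positivity

/-- **Concentration of the number of survivors.** -/
theorem conc (h : Model P a) (kl : ℕ → ℕ → Finset ℕ) (L A : Finset ℕ) (hL : ∀ p ∈ L, p.Prime) (w D : ℕ → ℝ)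
    (c κ : ℝ) (hkl : ∀ p ∈ L, ∀ u, kl p u ⊆ range p) (hw0 : ∀ p ∈ L, 0 ≤ w p) (hw1 : ∀ p ∈ L, w p ≤ p)
    (hκ : ∀ p ∈ L, ∀ u, ((kl p u).card : ℝ) ≤ κ)
    (θ : ℝ) (hθ : 0 ≤ θ)
    (hc : ∀ p ∈ L, ∀ r, ((A.filter (fun u => r ∈ kl p u)).card : ℝ) ≤ c)
    (hD : ∀ p ∈ L, ∑ u ∈ A, |w p - (kl p u).card| ≤ D p) (hθc : θ * c ≤ 1) (lam : ℝ) :
    P.real {ω | lam ≤ |((surv kl (fun i => a i ω) L A).card : ℝ) - A.card * ∏ p ∈ L, (1 - w p / (p : ℝ))|} ≤
      2 * Real.exp (-(θ * lam) + θ * (∑ p ∈ L, D p / p) + θ ^ 2 * (A.card * ∑ p ∈ L, κ * c / p)) := by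
  have := prob h
  set W := ∏ p ∈ L, (1 - w p / (p : ℝ)) with hW
  have h1 := tail_up h kl A.card θ hθ L A le_rfl (A.card * W + lam)
  have h2 := tail_low h kl A.card θ hθ L A le_rfl (A.card * W - lam)
  have h3 := mg_le h kl A.card θ w D (fun _ => c) κ L hL hkl hw0 hw1 hκ
    (fun p _ => by rw [abs_of_nonneg hθ]; exact hθc) A le_rfl hc hD
  have h4 := mg_le h kl A.card (-θ) w D (fun _ => c) κ L hL hkl hw0 hw1 hκ
    (fun p _ => by rw [abs_neg, abs_of_nonneg hθ]; exact hθc) A le_rfl hc hD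
  rw [abs_of_nonneg hθ] at h3
  rw [abs_neg, abs_of_nonneg hθ] at h4
  have h5 : P.real {ω | A.card * W + lam ≤ ((surv kl (fun i => a i ω) L A).card : ℝ)} ≤
      Real.exp (-(θ * lam) + θ * (∑ p ∈ L, D p / p) + θ ^ 2 * (A.card * ∑ p ∈ L, κ * c / p)) := by
    refine h1.trans ?_
    refine (mul_le_mul_of_nonneg_left h3 (Real.exp_pos _).le).trans (le_of_eq ?_)
    rw [← Real.exp_add]
    congr 1
    ring
  have h6 : P.real {ω | ((surv kl (fun i => a i ω) L A).card : ℝ) ≤ A.card * W - lam} ≤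
      Real.exp (-(θ * lam) + θ * (∑ p ∈ L, D p / p) + θ ^ 2 * (A.card * ∑ p ∈ L, κ * c / p)) := by
    refine h2.trans ?_
    refine (mul_le_mul_of_nonneg_left h4 (Real.exp_pos _).le).trans (le_of_eq ?_)
    rw [← Real.exp_add]
    congr 1
    ring
  have e : {ω | lam ≤ |((surv kl (fun i => a i ω) L A).card : ℝ) - A.card * W|} ⊆
      {ω | A.card * W + lam ≤ ((surv kl (fun i => a i ω) L A).card : ℝ)} ∪
      {ω | ((surv kl (fun i => a i ω) L A).card : ℝ) ≤ A.card * W - lam} := by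
    intro ω hω
    rcases le_abs.1 (show lam ≤ |((surv kl (fun i => a i ω) L A).card : ℝ) - A.card * W| from hω) with h7 | h7
    · left
      show A.card * W + lam ≤ ((surv kl (fun i => a i ω) L A).card : ℝ)
      linarith
    · right
      show ((surv kl (fun i => a i ω) L A).card : ℝ) ≤ A.card * W - lam
      linarith
  calc P.real _ ≤ P.real _ := measureReal_mono e
    _ ≤ _ := measureReal_union_le _ _
    _ ≤ _ := by linarith

end Pool.Agent.H559.HY
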