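import Pool.Agent.H559.HY.Eng

set_option autoImplicit false

/-! # The cut `(log n) ^ c` -/

open Finset Filter Topology
open Pool.Agent.T2H32.BF (V V_pos V_anti V_ratio recip_le mertens)
open Pool.Agent.H559.BS (TT TT_le TT_ge TT_top log_TT V_TT log_pow_le log_top g g_pos)

namespace Pool.Agent.H559.HY

/-- the cut -/
noncomputable def WW (c : ℝ) (n : ℕ) : ℕ := ⌊Real.log n ^ c⌋₊

theorem WW_mono (c : ℝ) (hc : 0 ≤ c) : Monotone (WW c) := by
  intro m n hmn
  unfold WW
  refine Nat.floor_le_floor ?_
  rcases Nat.eq_zero_or_pos m with h | h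
  · rw [h]
    simp only [Nat.cast_zero, Real.log_zero]
    rcases hc.eq_or_lt with h1 | h1
    · rw [← h1]
      simp
    · rw [Real.zero_rpow h1.ne']
      exact Real.rpow_nonneg (Real.log_natCast_nonneg n) _
  · refine Real.rpow_le_rpow (Real.log_natCast_nonneg m) ?_ hc
    exact Real.log_le_log (by exact_mod_cast h) (by exact_mod_cast hmn)

/-- the logarithm of the cut along a sequence -/
theorem log_WW (c : ℝ) (hc : 0 < c) (u : ℕ → ℕ) (κ : ℝ) (hκ : 0 < κ)
    (hu : Tendsto (fun x : ℕ => Real.log (u x) / Real.log x) atTop (𝓝 κ)) :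
    Tendsto (fun x : ℕ => Real.log (WW c (u x)) / Real.log (Real.log x)) atTop (𝓝 c) := by
  have hll : Tendsto (fun x : ℕ => Real.log (Real.log x)) atTop atTop := Real.tendsto_log_atTop.comp log_top
  have hL : Tendsto (fun x : ℕ => Real.log (u x)) atTop atTop := by
    have h1 := hu.pos_mul_atTop hκ log_top
    refine h1.congr' ?_
    filter_upwards [log_top.eventually_ge_atTop 1] with x hx
    field_simp
  have hLc : Tendsto (fun x : ℕ => Real.log (u x) ^ c) atTop atTop := (tendsto_rpow_atTop hc).comp hL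
  -- `log log u / log log x → 1`
  have h1 : Tendsto (fun x : ℕ => Real.log (Real.log (u x)) / Real.log (Real.log x)) atTop (𝓝 1) := by
    have h2 : Tendsto (fun x : ℕ => Real.log (Real.log (u x) / Real.log x)) atTop (𝓝 (Real.log κ)) :=
      (Real.continuousAt_log hκ.ne').tendsto.comp hu
    have h3 := h2.div_atTop hll
    have h4 : Tendsto (fun x : ℕ => 1 + Real.log (Real.log (u x) / Real.log x) / Real.log (Real.log x)) atTop
        (𝓝 (1 + 0)) := tendsto_const_nhds.add h3
    rw [add_zero] at h4
    refine h4.congr' ?_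
    filter_upwards [log_top.eventually_ge_atTop 1, hL.eventually_ge_atTop 1, hll.eventually_ge_atTop 1] with x a1 a2 a3
    rw [Real.log_div (by linarith) (by linarith)]
    field_simp
    ring
  -- the floor
  have h2 : Tendsto (fun x : ℕ => Real.log ((WW c (u x) : ℝ) / Real.log (u x) ^ c)) atTop (𝓝 0) := by
    have h3 : Tendsto (fun y : ℝ => ((⌊y⌋₊ : ℕ) : ℝ) / y) atTop (𝓝 1) := tendsto_nat_floor_div_atTop
    have h4 := h3.comp hLc
    have h5 := (Real.continuousAt_log one_ne_zero).tendsto.comp h4
    rw [Real.log_one] at h5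
    exact h5
  have h3 := (h1.const_mul c).add (h2.div_atTop hll)
  rw [mul_one, add_zero] at h3
  refine h3.congr' ?_
  filter_upwards [hL.eventually_ge_atTop 1, hll.eventually_ge_atTop 1, hLc.eventually_ge_atTop 1] with x a1 a2 a3
  have h4 : (1 : ℝ) ≤ (WW c (u x) : ℝ) := by
    have : 1 ≤ WW c (u x) := Nat.le_floor (by exact_mod_cast a3)
    exact_mod_cast this
  rw [Real.log_div (by linarith) (by linarith), Real.log_rpow (by linarith)]
  field_simp
  ring

theorem WW_top (c : ℝ) (hc : 0 < c) (u : ℕ → ℕ) (κ : ℝ) (hκ : 0 < κ)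
    (hu : Tendsto (fun x : ℕ => Real.log (u x) / Real.log x) atTop (𝓝 κ)) :
    Tendsto (fun x => WW c (u x)) atTop atTop := by
  have hL : Tendsto (fun x : ℕ => Real.log (u x)) atTop atTop := by
    have h1 := hu.pos_mul_atTop hκ log_top
    refine h1.congr' ?_
    filter_upwards [log_top.eventually_ge_atTop 1] with x hx
    field_simp
  exact tendsto_nat_floor_atTop.comp ((tendsto_rpow_atTop hc).comp hL)

theorem V_WW (c : ℝ) (hc : 0 < c) (u : ℕ → ℕ) (κ : ℝ) (hκ : 0 < κ)
    (hu : Tendsto (fun x : ℕ => Real.log (u x) / Real.log x) atTop (𝓝 κ)) :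
    Tendsto (fun x : ℕ => V (WW c (u x)) * Real.log (Real.log x)) atTop (𝓝 (g / c)) := by
  have h1 := mertens.comp (WW_top c hc u κ hκ hu)
  have h2 := h1.div (log_WW c hc u κ hκ hu) hc.ne'
  have hll : Tendsto (fun x : ℕ => Real.log (Real.log x)) atTop atTop := Real.tendsto_log_atTop.comp log_top
  refine h2.congr' ?_
  filter_upwards [(WW_top c hc u κ hκ hu).eventually_ge_atTop 2, hll.eventually_ge_atTop 1] with x a1 a2
  simp only [Pi.div_apply, Function.comp_apply]
  have h3 : 0 < Real.log (WW c (u x)) := Real.log_pos (by exact_mod_cast a1)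
  field_simp

theorem log_TT_lim (η : ℝ) (hη : 0 < η) :
    Tendsto (fun x : ℕ => Real.log (TT η x) / Real.log x) atTop (𝓝 η) := by
  have h1 : Tendsto (fun x : ℕ => (η * Real.log x - Real.log 2) / Real.log x) atTop (𝓝 η) := by
    have h2 : Tendsto (fun x : ℕ => η - Real.log 2 / Real.log x) atTop (𝓝 (η - 0)) :=
      tendsto_const_nhds.sub (tendsto_const_nhds.div_atTop log_top)
    rw [sub_zero] at h2
    refine h2.congr' ?_
    filter_upwards [log_top.eventually_ge_atTop 1] with x hx
    field_simp
  refine tendsto_of_tendsto_of_tendsto_of_le_of_le' h1 tendsto_const_nhds ?_ ?_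
  · filter_upwards [log_TT η hη, log_top.eventually_ge_atTop 1] with x h2 h3
    gcongr
    exact h2.1
  · filter_upwards [log_TT η hη, log_top.eventually_ge_atTop 1] with x h2 h3
    rw [div_le_iff₀ (by linarith)]
    exact h2.2

theorem log_pow_lim (A : ℕ) : Tendsto (fun x : ℕ => Real.log ((x ^ A : ℕ) : ℝ) / Real.log x) atTop (𝓝 (A : ℝ)) := by
  refine tendsto_const_nhds.congr' ?_
  filter_upwards [log_top.eventually_ge_atTop 1] with x hx
  rw [Nat.cast_pow, Real.log_pow]
  field_simp

theorem cut_WW (c : ℝ) (hc : 1 < c) : Cut (WW c) where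
  mono := WW_mono c (by linarith)
  top := by
    have h1 : Tendsto (fun n : ℕ => Real.log n ^ (c - 1)) atTop atTop :=
      (tendsto_rpow_atTop (by linarith)).comp log_top
    have h2 : Tendsto (fun n : ℕ => Real.log n ^ (c - 1) + (-1)) atTop atTop := h1.atTop_add tendsto_const_nhds
    refine tendsto_atTop_mono' atTop ?_ h2
    filter_upwards [log_top.eventually_ge_atTop 1] with x hx
    have h3 : Real.log x ^ c - 1 < (WW c x : ℝ) := by
      have := Nat.lt_floor_add_one (Real.log x ^ c)
      unfold WW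
      linarith
    rw [le_div_iff₀ (by linarith), add_mul]
    have h4 : Real.log x ^ (c - 1) * Real.log x = Real.log x ^ c := by
      nth_rw 2 [← Real.rpow_one (Real.log x)]
      rw [← Real.rpow_add (by linarith)]
      congr 1
      ring
    rw [h4]
    linarith
  slow := by
    intro A η hA hη hη1
    have hc0 : 0 < c := by linarith
    have hA0 : (0 : ℝ) < A := by exact_mod_cast hA
    have h1 := V_WW c hc0 (TT η) η hη (log_TT_lim η hη)
    have h2 := V_WW c hc0 (fun x => x ^ A) A hA0 (log_pow_lim A)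
    have hg := g_pos
    have h3 := h1.div h2 (by positivity)
    rw [div_self (by positivity)] at h3
    refine h3.congr' ?_
    have hll : Tendsto (fun x : ℕ => Real.log (Real.log x)) atTop atTop := Real.tendsto_log_atTop.comp log_top
    filter_upwards [hll.eventually_ge_atTop 1] with x hx
    simp only [Pi.div_apply]
    have := V_pos (WW c (x ^ A))
    field_simp
  small := by
    intro A δ hA hδ
    have hA0 : (0 : ℝ) < A := by exact_mod_cast hA
    obtain ⟨n, hn⟩ := exists_nat_ge c
    filter_upwards [log_pow_le n δ (A ^ n) hδ, log_top.eventually_ge_atTop 1] with x h1 h2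
    unfold WW TT
    refine Nat.floor_le_floor ?_
    rw [Nat.cast_pow, Real.log_pow]
    have h3 : (1 : ℝ) ≤ A * Real.log x := by
      have : (1 : ℝ) ≤ A := by exact_mod_cast hA
      nlinarith
    calc (A * Real.log x) ^ c ≤ (A * Real.log x) ^ (n : ℝ) := Real.rpow_le_rpow_of_exponent_le h3 hn
      _ = A ^ n * Real.log x ^ n := by rw [Real.rpow_natCast, mul_pow]
      _ ≤ _ := h1

end Pool.Agent.H559.HY
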