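import Pool.Agent.H559.HY.Tail

set_option autoImplicit false

/-! # The deterministic part of the argument -/

open Finset Filter Topology
open Pool.Agent.T2H32.BF (V V_pos V_anti V_ratio recip_le)
open Pool.Agent.H559.BS (sum_sq)

namespace Pool.Agent.H559.HY

variable {k D : ℕ}

theorem exp_low (t : ℝ) (_h0 : 0 ≤ t) (h1 : t ≤ 1 / 2) : Real.exp (-t - 2 * t ^ 2) ≤ 1 - t := by
  have hpos : 0 < 1 - t := by linarith
  have h2 := Real.one_sub_inv_le_log_of_pos hpos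
  have h3 : -t - 2 * t ^ 2 ≤ Real.log (1 - t) := by
    refine le_trans ?_ h2
    have h5 : (1 - t)⁻¹ ≤ 1 + t + 2 * t ^ 2 := by
      rw [inv_le_iff_one_le_mul₀ hpos]
      nlinarith [sq_nonneg t]
    linarith
  calc Real.exp (-t - 2 * t ^ 2) ≤ Real.exp (Real.log (1 - t)) := Real.exp_le_exp.2 h3
    _ = 1 - t := Real.exp_log hpos

theorem exp_up (t : ℝ) : 1 - t ≤ Real.exp (-t) := by
  have := Real.add_one_le_exp (-t)
  linarith

/-- comparison of the local densities, upper bound -/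
theorem cmpA (u v : ℕ) (hu : 1 ≤ u) (ν m : ℕ → ℕ) (K : ℝ)
    (hν : ∀ p ∈ (Ioc u v).filter Nat.Prime, ν p ≤ p) (hm : ∀ p ∈ (Ioc u v).filter Nat.Prime, (m p : ℝ) ≤ K)
    (hK : 0 ≤ K) :
    ∏ p ∈ (Ioc u v).filter Nat.Prime, (1 - (ν p : ℝ) / p) ≤
      Real.exp (-(∑ p ∈ (Ioc u v).filter Nat.Prime, ((ν p : ℝ) - m p) / p) + 2 * K / u) *
        ∏ p ∈ (Ioc u v).filter Nat.Prime, (1 - 1 / (p : ℝ)) ^ m p := by
  set S := (Ioc u v).filter Nat.Prime with hS
  have hp2 : ∀ p ∈ S, (2 : ℝ) ≤ p := fun p hp => by exact_mod_cast (mem_filter.1 hp).2.two_le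
  have h1 : ∏ p ∈ S, (1 - (ν p : ℝ) / p) ≤ Real.exp (-(∑ p ∈ S, (ν p : ℝ) / p)) := by
    rw [← sum_neg_distrib, Real.exp_sum]
    refine prod_le_prod (fun p hp => ?_) fun p _ => exp_up _
    have h2 := hp2 p hp
    have h3 : (ν p : ℝ) ≤ p := by exact_mod_cast hν p hp
    have : (ν p : ℝ) / p ≤ 1 := by rw [div_le_one (by linarith)]; exact h3
    linarith
  have h2 : Real.exp (-(∑ p ∈ S, (m p : ℝ) / p) - 2 * K / u) ≤ ∏ p ∈ S, (1 - 1 / (p : ℝ)) ^ m p := by
    have h3 : Real.exp (∑ p ∈ S, (-((m p : ℝ) / p) - 2 * K * (1 / (p : ℝ) ^ 2))) ≤ ∏ p ∈ S, (1 - 1 / (p : ℝ)) ^ m p := by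
      rw [Real.exp_sum]
      refine prod_le_prod (fun p _ => (Real.exp_pos _).le) fun p hp => ?_
      have h4 := hp2 p hp
      have h5 := exp_low (1 / (p : ℝ)) (by positivity) (by
        rw [div_le_div_iff₀ (by linarith) (by norm_num)]
        linarith)
      have h6 := pow_le_pow_left₀ (Real.exp_pos _).le h5 (m p)
      refine le_trans ?_ h6
      rw [← Real.exp_nat_mul]
      apply Real.exp_le_exp.2
      have h7 : (m p : ℝ) * (-(1 / (p : ℝ)) - 2 * (1 / (p : ℝ)) ^ 2) = -((m p : ℝ) / p) - 2 * m p * (1 / (p : ℝ) ^ 2) := by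
        field_simp
      rw [h7]
      have h8 := hm p hp
      have h9 : 0 ≤ 1 / (p : ℝ) ^ 2 := by positivity
      have h10 : 2 * (m p : ℝ) * (1 / (p : ℝ) ^ 2) ≤ 2 * K * (1 / (p : ℝ) ^ 2) :=
        mul_le_mul_of_nonneg_right (by linarith) h9
      linarith
    refine le_trans (Real.exp_le_exp.2 ?_) h3
    rw [sum_sub_distrib, sum_neg_distrib, ← mul_sum]
    have h4 := sum_sq u v hu
    have h5 : 2 * K * ∑ p ∈ S, 1 / (p : ℝ) ^ 2 ≤ 2 * K * (1 / u) := mul_le_mul_of_nonneg_left h4 (by linarith)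
    have h6 : 2 * K * (1 / (u : ℝ)) = 2 * K / u := by ring
    linarith
  calc ∏ p ∈ S, (1 - (ν p : ℝ) / p) ≤ Real.exp (-(∑ p ∈ S, (ν p : ℝ) / p)) := h1
    _ = Real.exp (-(∑ p ∈ S, ((ν p : ℝ) - m p) / p) + 2 * K / u) *
        Real.exp (-(∑ p ∈ S, (m p : ℝ) / p) - 2 * K / u) := by
        rw [← Real.exp_add]
        congr 1
        have : ∑ p ∈ S, ((ν p : ℝ) - m p) / p = ∑ p ∈ S, (ν p : ℝ) / p - ∑ p ∈ S, (m p : ℝ) / p := by
          rw [← sum_sub_distrib]
          exact sum_congr rfl fun p _ => by ring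
        rw [this]
        ring
    _ ≤ _ := mul_le_mul_of_nonneg_left h2 (Real.exp_pos _).le

/-- comparison of the local densities, lower bound -/
theorem cmpB (u v : ℕ) (hu : 1 ≤ u) (ν m : ℕ → ℕ) (K : ℝ)
    (hν : ∀ p ∈ (Ioc u v).filter Nat.Prime, (ν p : ℝ) ≤ K) (_hK : 0 ≤ K) (hKu : 2 * K ≤ u) :
    Real.exp (-(∑ p ∈ (Ioc u v).filter Nat.Prime, ((ν p : ℝ) - m p) / p) - 2 * K ^ 2 / u) *
        ∏ p ∈ (Ioc u v).filter Nat.Prime, (1 - 1 / (p : ℝ)) ^ m p ≤
      ∏ p ∈ (Ioc u v).filter Nat.Prime, (1 - (ν p : ℝ) / p) := by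
  set S := (Ioc u v).filter Nat.Prime with hS
  have hp2 : ∀ p ∈ S, (2 : ℝ) ≤ p := fun p hp => by exact_mod_cast (mem_filter.1 hp).2.two_le
  have hpu : ∀ p ∈ S, (u : ℝ) ≤ p := fun p hp => by
    rw [hS, mem_filter, mem_Ioc] at hp
    exact_mod_cast hp.1.1.le
  have h1 : Real.exp (-(∑ p ∈ S, (ν p : ℝ) / p) - 2 * K ^ 2 / u) ≤ ∏ p ∈ S, (1 - (ν p : ℝ) / p) := by
    have h3 : Real.exp (∑ p ∈ S, (-((ν p : ℝ) / p) - 2 * K ^ 2 * (1 / (p : ℝ) ^ 2))) ≤ ∏ p ∈ S, (1 - (ν p : ℝ) / p) := by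
      rw [Real.exp_sum]
      refine prod_le_prod (fun p _ => (Real.exp_pos _).le) fun p hp => ?_
      have h4 := hp2 p hp
      have h4' : (0 : ℝ) < p := by linarith
      have h5 := exp_low ((ν p : ℝ) / p) (by positivity) (by
        rw [div_le_div_iff₀ h4' (by norm_num)]
        linarith [hν p hp, hpu p hp])
      refine le_trans (Real.exp_le_exp.2 ?_) h5
      have h7 : ((ν p : ℝ) / p) ^ 2 = (ν p : ℝ) ^ 2 * (1 / (p : ℝ) ^ 2) := by
        field_simp
      rw [h7]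
      have h8 : (ν p : ℝ) ^ 2 ≤ K ^ 2 := pow_le_pow_left₀ (Nat.cast_nonneg _) (hν p hp) 2
      have h9 : 0 ≤ 1 / (p : ℝ) ^ 2 := by positivity
      have h10 := mul_le_mul_of_nonneg_right h8 h9
      linarith
    refine le_trans (Real.exp_le_exp.2 ?_) h3
    rw [sum_sub_distrib, sum_neg_distrib, ← mul_sum]
    have h4 := sum_sq u v hu
    have h5 : 2 * K ^ 2 * ∑ p ∈ S, 1 / (p : ℝ) ^ 2 ≤ 2 * K ^ 2 * (1 / u) :=
      mul_le_mul_of_nonneg_left h4 (by positivity)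
    have h6 : 2 * K ^ 2 * (1 / (u : ℝ)) = 2 * K ^ 2 / u := by ring
    linarith
  have h2 : ∏ p ∈ S, (1 - 1 / (p : ℝ)) ^ m p ≤ Real.exp (-(∑ p ∈ S, (m p : ℝ) / p)) := by
    rw [← sum_neg_distrib, Real.exp_sum]
    refine prod_le_prod (fun p hp => ?_) fun p hp => ?_
    · have h2 := hp2 p hp
      have : 1 / (p : ℝ) ≤ 1 := by rw [div_le_one (by linarith)]; linarith
      exact pow_nonneg (by linarith) _
    · have h2 := hp2 p hp
      have : 1 / (p : ℝ) ≤ 1 := by rw [div_le_one (by linarith)]; linarith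
      calc (1 - 1 / (p : ℝ)) ^ m p ≤ Real.exp (-(1 / (p : ℝ))) ^ m p :=
            pow_le_pow_left₀ (by linarith) (exp_up _) _
        _ = Real.exp (-((m p : ℝ) / p)) := by
            rw [← Real.exp_nat_mul]
            congr 1
            ring
  refine le_trans ?_ h1
  calc Real.exp (-(∑ p ∈ S, ((ν p : ℝ) - m p) / p) - 2 * K ^ 2 / u) * ∏ p ∈ S, (1 - 1 / (p : ℝ)) ^ m p
      ≤ Real.exp (-(∑ p ∈ S, ((ν p : ℝ) - m p) / p) - 2 * K ^ 2 / u) * Real.exp (-(∑ p ∈ S, (m p : ℝ) / p)) :=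
        mul_le_mul_of_nonneg_left h2 (Real.exp_pos _).le
    _ = _ := by
        rw [← Real.exp_add]
        congr 1
        have : ∑ p ∈ S, ((ν p : ℝ) - m p) / p = ∑ p ∈ S, (ν p : ℝ) / p - ∑ p ∈ S, (m p : ℝ) / p := by
          rw [← sum_sub_distrib]
          exact sum_congr rfl fun p _ => by ring
        rw [this]
        ring

theorem prodk (u v : ℕ) (h : u ≤ v) (m : ℕ) :
    ∏ p ∈ (Ioc u v).filter Nat.Prime, (1 - 1 / (p : ℝ)) ^ m = (V v / V u) ^ m := by
  rw [prod_pow, ← V_ratio u v h]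

/-- the product over the random part of the sieve -/
theorem prodV (Z : Fin k → ℕ) (T N : ℕ) (hT : ∀ i, T ≤ Z i) (hN : ∀ i, Z i ≤ N) :
    ∏ p ∈ (Ioc T N).filter Nat.Prime, (1 - 1 / (p : ℝ)) ^ wt Z p = (∏ i, V (Z i)) / V T ^ k := by
  have h1 : ∀ p : ℕ, (1 - 1 / (p : ℝ)) ^ wt Z p = ∏ i : Fin k, if p ≤ Z i then (1 - 1 / (p : ℝ)) else 1 := by
    intro p
    unfold wt
    rw [← prod_const, prod_filter]
  simp only [h1]
  rw [Finset.prod_comm]
  have h2 : ∀ i : Fin k, (∏ p ∈ (Ioc T N).filter Nat.Prime, if p ≤ Z i then (1 - 1 / (p : ℝ)) else 1) = V (Z i) / V T := by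
    intro i
    rw [← prod_filter, V_ratio T (Z i) (hT i)]
    congr 1
    ext p
    simp only [mem_filter, mem_Ioc]
    have := hN i
    constructor
    · rintro ⟨⟨⟨h1, h2⟩, h3⟩, h4⟩
      exact ⟨⟨h1, h4⟩, h3⟩
    · rintro ⟨⟨h1, h2⟩, h3⟩
      exact ⟨⟨⟨h1, by omega⟩, h3⟩, h2⟩
  rw [prod_congr rfl fun i _ => h2 i, prod_div_distrib, prod_const, card_univ, Fintype.card_fin]

/-- the truncated singular series -/
noncomputable def Sg (C : Arr k D) (w : ℕ) : ℝ :=
  ∏ p ∈ (range (w + 1)).filter Nat.Prime, (1 - ((rts C p 0).card : ℝ) / p) / (1 - 1 / (p : ℝ)) ^ k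

theorem card_le_p (C : Arr k D) (p c : ℕ) : (rts C p c).card ≤ p := by
  have := card_le_card (rts_sub C p c)
  rwa [card_range] at this

theorem Sg_nonneg (C : Arr k D) (w : ℕ) : 0 ≤ Sg C w := by
  unfold Sg
  refine prod_nonneg fun p hp => ?_
  have h2 : (2 : ℝ) ≤ p := by exact_mod_cast (mem_filter.1 hp).2.two_le
  have h3 : ((rts C p 0).card : ℝ) ≤ p := by exact_mod_cast card_le_p C p 0
  have h4 : ((rts C p 0).card : ℝ) / p ≤ 1 := by rw [div_le_one (by linarith)]; exact h3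
  have h5 : 1 / (p : ℝ) ≤ 1 := by rw [div_le_one (by linarith)]; linarith
  have h6 : 0 ≤ (1 - 1 / (p : ℝ)) ^ k := pow_nonneg (by linarith) _
  exact div_nonneg (by linarith) h6

theorem Sg_mul (C : Arr k D) (w : ℕ) :
    ∏ p ∈ (range (w + 1)).filter Nat.Prime, (1 - ((rts C p 0).card : ℝ) / p) = Sg C w * V w ^ k := by
  unfold Sg V
  rw [← prod_pow, ← prod_mul_distrib]
  refine prod_congr rfl fun p hp => ?_
  have h2 : (2 : ℝ) ≤ p := by exact_mod_cast (mem_filter.1 hp).2.two_le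
  have h5 : (1 : ℝ) - 1 / p ≠ 0 := by
    have : (1 : ℝ) / p ≤ 1 / 2 := by gcongr
    linarith
  rw [div_mul_cancel₀ _ (pow_ne_zero _ h5)]

theorem split (f : ℕ → ℝ) (u v : ℕ) (h : u ≤ v) :
    ∏ p ∈ (range (v + 1)).filter Nat.Prime, f p =
      (∏ p ∈ (range (u + 1)).filter Nat.Prime, f p) * ∏ p ∈ (Ioc u v).filter Nat.Prime, f p := by
  rw [← prod_union]
  · congr 1
    ext p
    simp only [mem_filter, mem_range, mem_union, mem_Ioc]
    constructor
    · rintro ⟨h1, h2⟩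
      by_cases h3 : p < u + 1
      · exact Or.inl ⟨h3, h2⟩
      · exact Or.inr ⟨⟨by omega, by omega⟩, h2⟩
    · rintro (⟨h1, h2⟩ | ⟨⟨h1, h1'⟩, h2⟩)
      · exact ⟨by omega, h2⟩
      · exact ⟨by omega, h2⟩
  · rw [disjoint_left]
    intro p hp hp'
    simp only [mem_filter, mem_range, mem_Ioc] at hp hp'
    omega

/-- the density of the deterministic rule -/
theorem dens_split (C : Arr k D) (w1 w2 T : ℕ) (up : Bool) (b : ℕ → ℕ) (h1 : w1 ≤ w2) (h2 : w2 ≤ T) :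
    ∏ p ∈ (range (T + 1)).filter Nat.Prime, (1 - ((Om C w1 w2 up b p).card : ℝ) / p) =
      Sg C w1 * V w1 ^ k * (∏ p ∈ (Ioc w1 w2).filter Nat.Prime,
        (1 - (((if up then ∅ else rts C p 0 ∪ rts C p (b p)) : Finset ℕ).card : ℝ) / p)) *
      ∏ p ∈ (Ioc w2 T).filter Nat.Prime, (1 - ((rts C p (b p)).card : ℝ) / p) := by
  rw [split _ w2 T h2, split _ w1 w2 h1, ← Sg_mul]
  congr 1
  · congr 1
    · refine prod_congr rfl fun p hp => ?_
      rw [mem_filter, mem_range] at hp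
      unfold Om
      rw [if_pos (by omega)]
    · refine prod_congr rfl fun p hp => ?_
      rw [mem_filter, mem_Ioc] at hp
      unfold Om
      rw [if_neg (by omega), if_pos (by omega)]
  · refine prod_congr rfl fun p hp => ?_
    rw [mem_filter, mem_Ioc] at hp
    unfold Om
    rw [if_neg (by omega), if_neg (by omega)]

/-- the total relative error -/
noncomputable def tt (k D : ℕ) (ε η : ℝ) (w1 : ℕ) : ℝ := 2 * K2 k D * η + ε + 24 * K2 k D ^ 2 / w1

theorem low_dens (C : Arr k D) (w1 w2 T N : ℕ) (b : ℕ → ℕ) (Z : Fin k → ℕ) (h1 : w1 ≤ w2) (h2 : w2 ≤ T)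
    (hC : ∀ p, p.Prime → w1 < p → Good C p) (hw1 : 4 * K2 k D ≤ w1) (ε η : ℝ)
    (hη : Real.log (V w1 / V w2) ≤ η) (hX : |∑ p ∈ (Ioc w2 T).filter Nat.Prime, X C p (b p)| ≤ ε)
    (hT : ∀ i, T ≤ Z i) (hN : ∀ i, Z i ≤ N) :
    Real.exp (-tt k D ε η w1) * (Sg C w1 * ∏ i, V (Z i)) ≤
      (∏ p ∈ (range (T + 1)).filter Nat.Prime, (1 - ((Om C w1 w2 false b p).card : ℝ) / p)) *
        ∏ p ∈ (Ioc T N).filter Nat.Prime, (1 - (wt Z p : ℝ) / (p : ℝ)) := by
  have hK := K2_pos k D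
  set K : ℝ := 2 * K2 k D with hKd
  have hw1' : (4 : ℝ) ≤ w1 := by linarith
  have hw1n : 1 ≤ w1 := by
    have : (1 : ℝ) ≤ w1 := by linarith
    exact_mod_cast this
  have hw10 : (0 : ℝ) < w1 := by linarith
  have hKk : (k : ℝ) ≤ K := by
    have : (0 : ℝ) ≤ k * D := by positivity
    rw [hKd]
    unfold K2
    linarith [(Nat.cast_nonneg k : (0 : ℝ) ≤ k)]
  have hKkD : 2 * (k : ℝ) * D ≤ K := by
    rw [hKd]
    unfold K2
    linarith [(Nat.cast_nonneg k : (0 : ℝ) ≤ k)]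
  have hK0 : 0 ≤ K := by linarith
  have hV1 := V_pos w1
  have hV2 := V_pos w2
  have hVT := V_pos T
  have hw12 : (w1 : ℝ) ≤ w2 := by exact_mod_cast h1
  have hw1T : (w1 : ℝ) ≤ T := by exact_mod_cast h1.trans h2
  rw [dens_split C w1 w2 T false b h1 h2]
  -- the middle range
  have e1 : Real.exp (-(K * η) - 2 * K ^ 2 / w1) ≤ ∏ p ∈ (Ioc w1 w2).filter Nat.Prime,
      (1 - (((if false then ∅ else rts C p 0 ∪ rts C p (b p)) : Finset ℕ).card : ℝ) / p) := by
    have h3 := cmpB w1 w2 hw1n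
      (fun p => ((if false then ∅ else rts C p 0 ∪ rts C p (b p)) : Finset ℕ).card) (fun _ => 0) K (by
        intro p hp
        rw [mem_filter, mem_Ioc] at hp
        have hg := hC p hp.2 hp.1.1
        have h4 : (rts C p 0 ∪ rts C p (b p)).card ≤ k * D + k * D :=
          (card_union_le _ _).trans (Nat.add_le_add (rts_card C p _ hp.2 hg) (rts_card C p _ hp.2 hg))
        have h5 : ((rts C p 0 ∪ rts C p (b p)).card : ℝ) ≤ k * D + k * D := by exact_mod_cast h4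
        simp only [Bool.false_eq_true, if_false]
        linarith) hK0 (by linarith)
    simp only [pow_zero, prod_const_one, mul_one, Nat.cast_zero, sub_zero] at h3
    refine le_trans (Real.exp_le_exp.2 ?_) h3
    have h6 : ∑ p ∈ (Ioc w1 w2).filter Nat.Prime,
        (((if false then ∅ else rts C p 0 ∪ rts C p (b p)) : Finset ℕ).card : ℝ) / p ≤ K * η := by
      calc _ ≤ ∑ p ∈ (Ioc w1 w2).filter Nat.Prime, K * (1 / (p : ℝ)) := by
            refine sum_le_sum fun p hp => ?_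
            rw [mem_filter, mem_Ioc] at hp
            have hg := hC p hp.2 hp.1.1
            have h4 : (rts C p 0 ∪ rts C p (b p)).card ≤ k * D + k * D :=
              (card_union_le _ _).trans (Nat.add_le_add (rts_card C p _ hp.2 hg) (rts_card C p _ hp.2 hg))
            have h5 : ((rts C p 0 ∪ rts C p (b p)).card : ℝ) ≤ k * D + k * D := by exact_mod_cast h4
            simp only [Bool.false_eq_true, if_false]
            rw [div_eq_mul_one_div]
            exact mul_le_mul_of_nonneg_right (by linarith) (by positivity)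
        _ = K * ∑ p ∈ (Ioc w1 w2).filter Nat.Prime, 1 / (p : ℝ) := by rw [mul_sum]
        _ ≤ K * η := mul_le_mul_of_nonneg_left ((recip_le w1 w2 h1).trans hη) hK0
    linarith
  -- the last range
  have e2 : Real.exp (-ε - 2 * K ^ 2 / w1) * (V T / V w2) ^ k ≤
      ∏ p ∈ (Ioc w2 T).filter Nat.Prime, (1 - ((rts C p (b p)).card : ℝ) / p) := by
    have h3 := cmpB w2 T (by omega) (fun p => (rts C p (b p)).card) (fun _ => k) K (by
        intro p hp
        rw [mem_filter, mem_Ioc] at hp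
        have h5 : ((rts C p (b p)).card : ℝ) ≤ k * D := by
          exact_mod_cast rts_card C p _ hp.2 (hC p hp.2 (by omega))
        have : (0 : ℝ) ≤ k * D := by positivity
        linarith) hK0 (by linarith)
    rw [prodk w2 T h2 k] at h3
    refine le_trans (mul_le_mul_of_nonneg_right (Real.exp_le_exp.2 ?_) (by positivity)) h3
    have h4 : ∑ p ∈ (Ioc w2 T).filter Nat.Prime, (((rts C p (b p)).card : ℝ) - k) / p ≤ ε :=
      (le_abs_self _).trans hX
    have h5 : 2 * K ^ 2 / (w2 : ℝ) ≤ 2 * K ^ 2 / w1 := by gcongr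
    linarith
  -- the random range
  have e3 : Real.exp (-(2 * K ^ 2 / w1)) * ((∏ i, V (Z i)) / V T ^ k) ≤
      ∏ p ∈ (Ioc T N).filter Nat.Prime, (1 - (wt Z p : ℝ) / (p : ℝ)) := by
    have h3 := cmpB T N (by omega) (fun p => wt Z p) (fun p => wt Z p) K (by
        intro p hp
        have : (wt Z p : ℝ) ≤ k := by exact_mod_cast wt_le Z p
        linarith) hK0 (by linarith)
    rw [prodV Z T N hT hN] at h3
    have hP : 0 ≤ (∏ i, V (Z i)) / V T ^ k :=
      div_nonneg (prod_nonneg fun i _ => (V_pos _).le) (pow_nonneg hVT.le _)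
    refine le_trans (mul_le_mul_of_nonneg_right (Real.exp_le_exp.2 ?_) hP) h3
    have h5 : 2 * K ^ 2 / (T : ℝ) ≤ 2 * K ^ 2 / w1 := by gcongr
    simp only [sub_self, zero_div, sum_const_zero, neg_zero, zero_sub]
    linarith
  have hP0 : 0 ≤ ∏ i, V (Z i) := prod_nonneg fun i _ => (V_pos _).le
  have hSg := Sg_nonneg C w1
  have hVV : 1 ≤ (V w1 / V w2) ^ k := by
    refine one_le_pow₀ ?_
    rw [one_le_div hV2]
    exact V_anti h1
  calc Real.exp (-tt k D ε η w1) * (Sg C w1 * ∏ i, V (Z i))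
      = Real.exp (-tt k D ε η w1) * (Sg C w1 * (1 * ∏ i, V (Z i))) := by ring
    _ ≤ Real.exp (-tt k D ε η w1) * (Sg C w1 * ((V w1 / V w2) ^ k * ∏ i, V (Z i))) := by gcongr
    _ = (Sg C w1 * V w1 ^ k * Real.exp (-(K * η) - 2 * K ^ 2 / w1) *
        (Real.exp (-ε - 2 * K ^ 2 / w1) * (V T / V w2) ^ k)) *
        (Real.exp (-(2 * K ^ 2 / w1)) * ((∏ i, V (Z i)) / V T ^ k)) := by
        have h3 : Real.exp (-tt k D ε η w1) = Real.exp (-(K * η) - 2 * K ^ 2 / w1) *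
            Real.exp (-ε - 2 * K ^ 2 / w1) * Real.exp (-(2 * K ^ 2 / w1)) := by
          rw [← Real.exp_add, ← Real.exp_add]
          congr 1
          unfold tt
          rw [hKd]
          ring
        rw [h3, div_pow, div_pow]
        field_simp
    _ ≤ _ := by
        have p1 : 0 ≤ Sg C w1 * V w1 ^ k := mul_nonneg hSg (pow_nonneg hV1.le _)
        have p2 := (Real.exp_pos (-(K * η) - 2 * K ^ 2 / w1)).le.trans e1
        have p3 : 0 ≤ Real.exp (-ε - 2 * K ^ 2 / w1) * (V T / V w2) ^ k := by positivity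
        have p4 : 0 ≤ Real.exp (-(2 * K ^ 2 / w1)) * ((∏ i, V (Z i)) / V T ^ k) :=
          mul_nonneg (Real.exp_pos _).le (div_nonneg hP0 (pow_nonneg hVT.le _))
        exact mul_le_mul (mul_le_mul (mul_le_mul_of_nonneg_left e1 p1) e2 p3 (mul_nonneg p1 p2)) e3 p4
          (mul_nonneg (mul_nonneg p1 p2) (p3.trans e2))

theorem up_dens (C : Arr k D) (w1 w2 T N : ℕ) (b : ℕ → ℕ) (Z : Fin k → ℕ) (h1 : w1 ≤ w2) (h2 : w2 ≤ T)
    (hw1 : 4 * K2 k D ≤ w1) (ε η : ℝ)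
    (hη : Real.log (V w1 / V w2) ≤ η) (hX : |∑ p ∈ (Ioc w2 T).filter Nat.Prime, X C p (b p)| ≤ ε)
    (hT : ∀ i, T ≤ Z i) (hN : ∀ i, Z i ≤ N) :
    (∏ p ∈ (range (T + 1)).filter Nat.Prime, (1 - ((Om C w1 w2 true b p).card : ℝ) / p)) *
        ∏ p ∈ (Ioc T N).filter Nat.Prime, (1 - (wt Z p : ℝ) / (p : ℝ)) ≤
      Real.exp (tt k D ε η w1) * (Sg C w1 * ∏ i, V (Z i)) := by
  have hK := K2_pos k D
  set K : ℝ := 2 * K2 k D with hKd
  have hw1' : (4 : ℝ) ≤ w1 := by linarith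
  have hw1n : 1 ≤ w1 := by
    have : (1 : ℝ) ≤ w1 := by linarith
    exact_mod_cast this
  have hw10 : (0 : ℝ) < w1 := by linarith
  have hKk : (k : ℝ) ≤ K := by
    have : (0 : ℝ) ≤ k * D := by positivity
    rw [hKd]
    unfold K2
    linarith [(Nat.cast_nonneg k : (0 : ℝ) ≤ k)]
  have hkn : k ≤ w1 := by
    have : (k : ℝ) ≤ w1 := by linarith
    exact_mod_cast this
  have hK0 : 0 ≤ K := by linarith
  have hV1 := V_pos w1
  have hV2 := V_pos w2
  have hVT := V_pos T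
  have hw12 : (w1 : ℝ) ≤ w2 := by exact_mod_cast h1
  have hw1T : (w1 : ℝ) ≤ T := by exact_mod_cast h1.trans h2
  rw [dens_split C w1 w2 T true b h1 h2]
  have e1 : ∏ p ∈ (Ioc w1 w2).filter Nat.Prime,
      (1 - (((if true then ∅ else rts C p 0 ∪ rts C p (b p)) : Finset ℕ).card : ℝ) / p) = 1 := by
    refine prod_eq_one fun p _ => ?_
    simp
  have e2 : ∏ p ∈ (Ioc w2 T).filter Nat.Prime, (1 - ((rts C p (b p)).card : ℝ) / p) ≤
      Real.exp (ε + 2 * K / w1) * (V T / V w2) ^ k := by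
    have h3 := cmpA w2 T (by omega) (fun p => (rts C p (b p)).card) (fun _ => k) K
      (fun p _ => card_le_p C p _) (fun p _ => hKk) hK0
    rw [prodk w2 T h2 k] at h3
    refine h3.trans (mul_le_mul_of_nonneg_right (Real.exp_le_exp.2 ?_) (by positivity))
    have h4 : -(∑ p ∈ (Ioc w2 T).filter Nat.Prime, (((rts C p (b p)).card : ℝ) - k) / p) ≤ ε :=
      (neg_le_abs _).trans hX
    have h5 : 2 * K / (w2 : ℝ) ≤ 2 * K / w1 := by gcongr
    linarith
  have e3 : ∏ p ∈ (Ioc T N).filter Nat.Prime, (1 - (wt Z p : ℝ) / (p : ℝ)) ≤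
      Real.exp (2 * K / w1) * ((∏ i, V (Z i)) / V T ^ k) := by
    have h3 := cmpA T N (by omega) (fun p => wt Z p) (fun p => wt Z p) K (fun p hp => by
        rw [mem_filter, mem_Ioc] at hp
        have := wt_le Z p
        omega) (by
        intro p hp
        have : (wt Z p : ℝ) ≤ k := by exact_mod_cast wt_le Z p
        linarith) hK0
    rw [prodV Z T N hT hN] at h3
    have hP : 0 ≤ (∏ i, V (Z i)) / V T ^ k :=
      div_nonneg (prod_nonneg fun i _ => (V_pos _).le) (pow_nonneg hVT.le _)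
    refine h3.trans (mul_le_mul_of_nonneg_right (Real.exp_le_exp.2 ?_) hP)
    have h5 : 2 * K / (T : ℝ) ≤ 2 * K / w1 := by gcongr
    simp only [sub_self, zero_div, sum_const_zero, neg_zero, zero_add]
    linarith
  have hP0 : 0 ≤ ∏ i, V (Z i) := prod_nonneg fun i _ => (V_pos _).le
  have hSg := Sg_nonneg C w1
  have hVV : (V w1 / V w2) ^ k ≤ Real.exp (k * η) := by
    have h3 : V w1 / V w2 ≤ Real.exp η := by
      rw [← Real.exp_log (div_pos hV1 hV2)]
      exact Real.exp_le_exp.2 hη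
    calc (V w1 / V w2) ^ k ≤ Real.exp η ^ k := pow_le_pow_left₀ (by positivity) h3 k
      _ = _ := (Real.exp_nat_mul _ _).symm
  have hη0 : 0 ≤ η := by
    refine le_trans (Real.log_nonneg ?_) hη
    rw [one_le_div hV2]
    exact V_anti h1
  have hpr : 0 ≤ ∏ p ∈ (Ioc T N).filter Nat.Prime, (1 - (wt Z p : ℝ) / (p : ℝ)) := by
    refine prod_nonneg fun p hp => ?_
    rw [mem_filter, mem_Ioc] at hp
    have h3 : (wt Z p : ℝ) ≤ p := by
      have := wt_le Z p
      exact_mod_cast (show wt Z p ≤ p by omega)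
    have : (wt Z p : ℝ) / p ≤ 1 := by rw [div_le_one (by exact_mod_cast hp.2.pos)]; exact h3
    linarith
  rw [e1, mul_one]
  calc (Sg C w1 * V w1 ^ k * ∏ p ∈ (Ioc w2 T).filter Nat.Prime, (1 - ((rts C p (b p)).card : ℝ) / p)) *
        ∏ p ∈ (Ioc T N).filter Nat.Prime, (1 - (wt Z p : ℝ) / (p : ℝ))
      ≤ (Sg C w1 * V w1 ^ k * (Real.exp (ε + 2 * K / w1) * (V T / V w2) ^ k)) *
        (Real.exp (2 * K / w1) * ((∏ i, V (Z i)) / V T ^ k)) := by
        gcongr
    _ = Real.exp (ε + 2 * K / w1 + 2 * K / w1) * (Sg C w1 * ((V w1 / V w2) ^ k * ∏ i, V (Z i))) := by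
        rw [Real.exp_add (ε + 2 * K / w1), div_pow, div_pow]
        field_simp
    _ ≤ Real.exp (ε + 2 * K / w1 + 2 * K / w1) * (Sg C w1 * (Real.exp (k * η) * ∏ i, V (Z i))) := by gcongr
    _ = Real.exp (ε + 2 * K / w1 + 2 * K / w1 + k * η) * (Sg C w1 * ∏ i, V (Z i)) := by
        rw [Real.exp_add _ (k * η)]
        ring
    _ ≤ _ := by
        gcongr
        unfold tt
        have h3 : (k : ℝ) * η ≤ K * η := by gcongr
        have h4 : 2 * K / (w1 : ℝ) + 2 * K / w1 ≤ 24 * K2 k D ^ 2 / w1 := by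
          rw [← add_div]
          gcongr
          rw [hKd]
          nlinarith
        linarith

end Pool.Agent.H559.HY
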