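import Pool.Agent.H559.HY.Det

set_option autoImplicit false

/-! # Counting the simultaneous random prime values of polynomials -/

open Finset MeasureTheory ProbabilityTheory Filter Topology
open Pool.Agent.T2H32.BF (Model prob V V_pos V_anti V_ratio recip_le mertens)
open Pool.Agent.H559.BS (Limit TT TT_le TT_ge TT_top log_TT V_TT log_pow_le log_top g g_pos sum_sq)

namespace Pool.Agent.H559.HY

variable {Ω : Type*} [MeasurableSpace Ω] {P : Measure Ω} {a : ℕ → Ω → ℕ} {k D : ℕ}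

/-- the random primes: the primes `q ≤ W v` sieve out the class `0`, the others the class `b q` -/
def RS (z W : ℕ → ℕ) (b : ℕ → ℕ) : Set ℕ :=
  {v | 3 ≤ v ∧ ∀ q ≤ z v, q.Prime → v % q ≠ if q ≤ W v then 0 else b q}

open Classical in
/-- the number of the `m` in `(k0, k0 + y]` at which all the values are in `S` -/
noncomputable def cnt (C : Arr k D) (S : Set ℕ) (k0 y : ℕ) : ℕ :=
  ((Ioc k0 (k0 + y)).filter (fun m => ∀ i, (evl (C i) m).toNat ∈ S)).card

theorem cls_toNat (C : Arr k D) (i : Fin k) (p m : ℕ) (h : 0 ≤ evl (C i) m) :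
    cls C i p m = (evl (C i) m).toNat % p := by
  unfold cls
  obtain ⟨n, hn⟩ := Int.eq_ofNat_of_zero_le h
  rw [hn, Int.toNat_natCast, ← Int.natCast_mod, Int.toNat_natCast]

theorem not_mem_rts (C : Arr k D) (p m c : ℕ) (hp : 0 < p) : m % p ∉ rts C p c ↔ ∀ i, cls C i p m ≠ c := by
  unfold rts
  rw [mem_filter, mem_range]
  have := Nat.mod_lt m hp
  simp only [this, true_and, not_exists]
  refine forall_congr' fun i => ?_
  rw [← cls_mod]

theorem not_mem_kl (C : Arr k D) (Z : Fin k → ℕ) (p m c : ℕ) : c ∉ kl C Z p m ↔ ∀ i, p ≤ Z i → cls C i p m ≠ c := by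
  unfold kl
  rw [mem_image]
  simp only [mem_filter, mem_univ, true_and, not_exists, not_and]

theorem low_sub (C : Arr k D) (z W : ℕ → ℕ) (hz : Monotone z) (hW : Monotone W) (b : ℕ → ℕ) (w1 w2 T N k0 y : ℕ)
    (lo hi : Fin k → ℕ) (h3 : ∀ i, 3 ≤ lo i) (hlo : ∀ i, w1 ≤ W (lo i)) (hhi : ∀ i, W (hi i) ≤ w2) (h2T : w2 ≤ T)
    (hN : ∀ i, z (hi i) ≤ N)
    (hm : ∀ m ∈ Ioc k0 (k0 + y), ∀ i, (lo i : ℤ) ≤ evl (C i) m ∧ evl (C i) m ≤ hi i) :
    (surv (kl C (fun i => z (hi i))) b ((Ioc T N).filter Nat.Prime) (base C w1 w2 false T k0 y b)).card ≤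
      cnt C (RS z W b) k0 y := by
  classical
  unfold cnt
  refine card_le_card fun m hmm => ?_
  unfold surv base at hmm
  rw [mem_filter, mem_filter] at hmm
  obtain ⟨⟨hmI, hB⟩, hS⟩ := hmm
  rw [mem_filter]
  refine ⟨hmI, fun i => ?_⟩
  obtain ⟨hl, hh⟩ := hm m hmI i
  have h0 : 0 ≤ evl (C i) m := le_trans (Int.natCast_nonneg _) hl
  have hv1 : lo i ≤ (evl (C i) m).toNat := by omega
  have hv2 : (evl (C i) m).toNat ≤ hi i := by omega
  refine ⟨(h3 i).trans hv1, fun q hq hqp => ?_⟩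
  rw [← cls_toNat C i q m h0]
  by_cases hqT : q ≤ T
  · have h5 := hB q hqT hqp
    unfold Om at h5
    by_cases hq1 : q ≤ w1
    · rw [if_pos hq1, not_mem_rts C q m 0 hqp.pos] at h5
      rw [if_pos (hq1.trans ((hlo i).trans (hW hv1)))]
      exact h5 i
    · rw [if_neg hq1] at h5
      by_cases hq2 : q ≤ w2
      · rw [if_pos hq2] at h5
        simp only [Bool.false_eq_true, if_false, mem_union, not_or] at h5
        rw [not_mem_rts C q m 0 hqp.pos, not_mem_rts C q m (b q) hqp.pos] at h5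
        split_ifs
        · exact h5.1 i
        · exact h5.2 i
      · rw [if_neg hq2, not_mem_rts C q m (b q) hqp.pos] at h5
        have h6 : ¬ q ≤ W (evl (C i) m).toNat := by
          have := (hW hv2).trans (hhi i)
          omega
        rw [if_neg h6]
        exact h5 i
  · have h6 : ¬ q ≤ W (evl (C i) m).toNat := by
      have := (hW hv2).trans (hhi i)
      omega
    rw [if_neg h6]
    have h7 : q ≤ z (hi i) := hq.trans (hz hv2)
    have h8 := hS q (mem_filter.2 ⟨mem_Ioc.2 ⟨by omega, h7.trans (hN i)⟩, hqp⟩)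
    rw [not_mem_kl] at h8
    exact h8 i h7

theorem up_sub (C : Arr k D) (z W : ℕ → ℕ) (hz : Monotone z) (hW : Monotone W) (b : ℕ → ℕ) (w1 w2 T N k0 y : ℕ)
    (lo hi : Fin k → ℕ) (hlo : ∀ i, w1 ≤ W (lo i)) (hhi : ∀ i, W (hi i) ≤ w2) (h2T : w2 ≤ T)
    (hT : ∀ i, T ≤ z (lo i))
    (hm : ∀ m ∈ Ioc k0 (k0 + y), ∀ i, (lo i : ℤ) ≤ evl (C i) m ∧ evl (C i) m ≤ hi i) :
    cnt C (RS z W b) k0 y ≤
    (surv (kl C (fun i => z (lo i))) b ((Ioc T N).filter Nat.Prime) (base C w1 w2 true T k0 y b)).card := by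
  classical
  unfold cnt
  refine card_le_card fun m hmm => ?_
  rw [mem_filter] at hmm
  obtain ⟨hmI, hS⟩ := hmm
  unfold surv base
  rw [mem_filter, mem_filter]
  have hmv : ∀ i, 0 ≤ evl (C i) m ∧ lo i ≤ (evl (C i) m).toNat ∧ (evl (C i) m).toNat ≤ hi i := by
    intro i
    obtain ⟨hl, hh⟩ := hm m hmI i
    have h0 : 0 ≤ evl (C i) m := le_trans (Int.natCast_nonneg _) hl
    exact ⟨h0, by omega, by omega⟩
  refine ⟨⟨hmI, fun p hp hpp => ?_⟩, fun p hp => ?_⟩
  · unfold Om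
    by_cases hq1 : p ≤ w1
    · rw [if_pos hq1, not_mem_rts C p m 0 hpp.pos]
      intro i
      obtain ⟨h0, hv1, hv2⟩ := hmv i
      have h5 := (hS i).2 p ((hp.trans (hT i)).trans (hz hv1)) hpp
      rw [if_pos (hq1.trans ((hlo i).trans (hW hv1)))] at h5
      rw [cls_toNat C i p m h0]
      exact h5
    · rw [if_neg hq1]
      by_cases hq2 : p ≤ w2
      · rw [if_pos hq2]
        simp
      · rw [if_neg hq2, not_mem_rts C p m (b p) hpp.pos]
        intro i
        obtain ⟨h0, hv1, hv2⟩ := hmv i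
        have h5 := (hS i).2 p ((hp.trans (hT i)).trans (hz hv1)) hpp
        have h6 : ¬ p ≤ W (evl (C i) m).toNat := by
          have := (hW hv2).trans (hhi i)
          omega
        rw [if_neg h6] at h5
        rw [cls_toNat C i p m h0]
        exact h5
  · rw [mem_filter, mem_Ioc] at hp
    rw [not_mem_kl]
    intro i hpi
    obtain ⟨h0, hv1, hv2⟩ := hmv i
    have h5 := (hS i).2 p (hpi.trans (hz hv1)) hp.2
    have h6 : ¬ p ≤ W (evl (C i) m).toNat := by
      have := (hW hv2).trans (hhi i)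
      omega
    rw [if_neg h6] at h5
    rw [cls_toNat C i p m h0]
    exact h5

/-- admissible cuts: below `W v` the class `0` is sieved out -/
structure Cut (W : ℕ → ℕ) : Prop where
  mono : Monotone W
  top : Tendsto (fun n : ℕ => (W n : ℝ) / Real.log n) atTop atTop
  slow : ∀ (A : ℕ) (η : ℝ), 1 ≤ A → 0 < η → η ≤ 1 → Tendsto (fun x : ℕ => V (W (TT η x)) / V (W (x ^ A))) atTop (𝓝 1)
  small : ∀ (A : ℕ) (δ : ℝ), 1 ≤ A → 0 < δ → ∀ᶠ x : ℕ in atTop, W (x ^ A) ≤ TT δ x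

/-- the bound for the number of the classes of the rule -/
theorem Om_card (C : Arr k D) (w1 w2 P0 : ℕ) (up : Bool) (b : ℕ → ℕ) (p : ℕ) (hp : p.Prime)
    (hC : ∀ p, p.Prime → P0 < p → Good C p) :
    Om C w1 w2 up b p ⊆ range p ∧ (Om C w1 w2 up b p).card ≤ 2 * (k * D) + 2 * P0 := by
  have h1 : ∀ c, (rts C p c).card ≤ k * D + P0 := by
    intro c
    by_cases h : P0 < p
    · have := rts_card C p c hp (hC p hp h)
      omega
    · have := card_le_p C p c
      omega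
  unfold Om
  split_ifs
  · exact ⟨rts_sub _ _ _, by have := h1 0; omega⟩
  · simp
  · refine ⟨union_subset (rts_sub _ _ _) (rts_sub _ _ _), ?_⟩
    have h2 := card_union_le (rts C p 0) (rts C p (b p))
    have h3 := h1 0
    have h4 := h1 (b p)
    omega
  · exact ⟨rts_sub _ _ _, by have := h1 (b p); omega⟩

theorem TT_pow (A : ℕ) (η : ℝ) (hA : 1 ≤ A) (hη1 : η ≤ 1) (x : ℕ) (hx : 1 ≤ x) : TT η x ≤ x ^ A := by
  have hx1 : (1 : ℝ) ≤ x := by exact_mod_cast hx
  have h1 : (TT η x : ℝ) ≤ x := by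
    refine (TT_le η x).trans ?_
    calc (x : ℝ) ^ η ≤ (x : ℝ) ^ (1 : ℝ) := Real.rpow_le_rpow_of_exponent_le hx1 hη1
      _ = x := Real.rpow_one _
  have h2 : TT η x ≤ x := by exact_mod_cast h1
  exact h2.trans (Nat.le_self_pow (by omega) x)

theorem pow_top (A : ℕ) (hA : 1 ≤ A) : Tendsto (fun x : ℕ => x ^ A) atTop atTop :=
  tendsto_pow_atTop (by omega)

theorem zpow_ev (z : ℕ → ℕ) (hz : Limit z) (A : ℕ) (hA : 1 ≤ A) :
    ∀ᶠ x : ℕ in atTop, 1 / (2 * A) ≤ V (z (x ^ A)) * Real.log x := by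
  have h1 := hz.2.comp (pow_top A hA)
  filter_upwards [h1.eventually_const_lt (show (1 / 2 : ℝ) < 1 by norm_num)] with x hx
  simp only [Function.comp_apply, Nat.cast_pow, Real.log_pow] at hx
  have hA0 : (0 : ℝ) < A := by exact_mod_cast hA
  rw [div_le_iff₀ (by positivity)]
  linarith

/-- the sieving limit is at most a power -/
theorem zpow_le (z : ℕ → ℕ) (hz : Limit z) (A : ℕ) (hA : 1 ≤ A) : ∀ᶠ x : ℕ in atTop, z (x ^ A) ≤ x ^ (4 * A) := by
  have h1 := hz.2.comp (pow_top A hA)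
  have h2 := mertens.comp (pow_top (4 * A) (by omega))
  have hg1 : g < 1 := by
    unfold g
    rw [Real.exp_lt_one_iff]
    have := Real.one_half_lt_eulerMascheroniConstant
    linarith
  filter_upwards [h1.eventually_const_lt (show (1 / 2 : ℝ) < 1 by norm_num),
    h2.eventually_lt_const (show g < 1 from hg1), log_top.eventually_ge_atTop 1] with x h3 h4 h5
  simp only [Function.comp_apply, Nat.cast_pow, Real.log_pow] at h3 h4
  push_cast at h3 h4
  by_contra hcon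
  rw [not_le] at hcon
  have h6 : V (z (x ^ A)) ≤ V (x ^ (4 * A)) := V_anti hcon.le
  have hA0 : (0 : ℝ) < A := by exact_mod_cast hA
  have h7 := V_pos (x ^ (4 * A))
  have h8 : V (z (x ^ A)) * (A * Real.log x) ≤ V (x ^ (4 * A)) * (A * Real.log x) :=
    mul_le_mul_of_nonneg_right h6 (by positivity)
  nlinarith

theorem z_TT (z : ℕ → ℕ) (hz : Limit z) (η : ℝ) (hη : 0 < η) :
    ∀ᶠ x : ℕ in atTop, V (z (TT η x)) * Real.log x ≤ 4 / η := by
  have h1 := hz.2.comp (TT_top η hη)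
  filter_upwards [h1.eventually_lt_const (show (1 : ℝ) < 2 by norm_num), log_TT η hη,
    log_top.eventually_ge_atTop (2 * Real.log 2 / η)] with n h2 h4 h5
  simp only [Function.comp_apply] at h2
  have hV := V_pos (z (TT η n))
  rw [div_le_iff₀ hη] at h5
  rw [le_div_iff₀ hη]
  have h6 : η / 2 * Real.log n ≤ Real.log (TT η n) := by linarith [h4.1]
  have h7 := mul_le_mul_of_nonneg_left h6 hV.le
  nlinarith

/-- numerical facts -/
structure Facts (z W : ℕ → ℕ) (k D A P0 B Bf : ℕ) (η δ ε c1 Kf : ℝ) (x : ℕ) : Prop where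
  x2 : 2 ≤ x
  L1 : 1 ≤ Real.log x
  T1 : 1 ≤ TT δ x
  TA : TT δ x ≤ x ^ (4 * A)
  w1a : 4 * K2 k D ≤ W (TT η x)
  w1b : 24 * K2 k D ^ 2 / (W (TT η x) : ℝ) ≤ ε / 8
  w1c : P0 ≤ W (TT η x)
  w12 : W (TT η x) ≤ W (x ^ A)
  w2T : W (x ^ A) ≤ TT δ x
  lo3 : 3 ≤ TT η x
  slow : Real.log (V (W (TT η x)) / V (W (x ^ A))) ≤ ε / (16 * K2 k D)
  Tz : TT δ x ≤ z (TT η x)
  zA : z (x ^ A) ≤ x ^ (4 * A)
  VT : V (TT δ x) ≤ c1 * V (z (x ^ A))
  E : Kf * ((TT δ x : ℝ) + 1) ^ Bf ≤ (1 / 2) * (x / Real.log x ^ B)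

theorem facts_ev (z W : ℕ → ℕ) (hz : Limit z) (hW : Cut W) (k D A P0 B Bf : ℕ) (hA : 1 ≤ A) (η δ ε Kf : ℝ)
    (hη : 0 < η) (hη1 : η ≤ 1) (hδ : 0 < δ) (hδ1 : δ ≤ 1) (hδg : 16 * δ ≤ g * η) (hε : 0 < ε) (hKf : 0 < Kf)
    (hδB : δ * Bf ≤ 1 / 2) :
    ∀ᶠ x : ℕ in atTop, Facts z W k D A P0 B Bf η δ ε (8 * A * g / δ) Kf x := by
  have hg := g_pos
  have hK := K2_pos k D
  have hA0 : (0 : ℝ) < A := by exact_mod_cast hA
  have hWt : Tendsto (fun n : ℕ => (W n : ℝ)) atTop atTop := by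
    refine tendsto_atTop_mono' atTop ?_ hW.top
    filter_upwards [log_top.eventually_ge_atTop 1] with x hx
    exact div_le_self (Nat.cast_nonneg _) hx
  have hWT := hWt.comp (TT_top η hη)
  have f5 : ∀ᶠ x : ℕ in atTop, 24 * K2 k D ^ 2 / (W (TT η x) : ℝ) ≤ ε / 8 := by
    filter_upwards [hWT.eventually_ge_atTop (24 * K2 k D ^ 2 / (ε / 8)), hWT.eventually_ge_atTop 1] with x h1 h2
    simp only [Function.comp_apply] at h1 h2
    rw [div_le_iff₀ (by positivity)] at h1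
    rw [div_le_iff₀ (by linarith)]
    linarith
  have f9 : ∀ᶠ x : ℕ in atTop, Real.log (V (W (TT η x)) / V (W (x ^ A))) ≤ ε / (16 * K2 k D) := by
    have h1 := (Real.continuousAt_log one_ne_zero).tendsto.comp (hW.slow A η hA hη hη1)
    rw [Real.log_one] at h1
    filter_upwards [h1.eventually_lt_const (show 0 < ε / (16 * K2 k D) by positivity)] with x hx using hx.le
  have f10 : ∀ᶠ x : ℕ in atTop, TT δ x ≤ z (TT η x) := by
    filter_upwards [V_TT δ hδ, z_TT z hz η hη, log_top.eventually_ge_atTop 1] with n h1 h2 h3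
    by_contra hcon
    rw [not_le] at hcon
    have h4 : V (TT δ n) ≤ V (z (TT η n)) := V_anti hcon.le
    have h5 : 4 / η < g / (2 * δ) := by
      rw [div_lt_div_iff₀ hη (by positivity)]
      have : 0 < g * η := by positivity
      linarith
    have h6 := mul_le_mul_of_nonneg_right h4 (show 0 ≤ Real.log n by linarith)
    linarith [h1.2]
  have f12 : ∀ᶠ x : ℕ in atTop, V (TT δ x) ≤ (8 * A * g / δ) * V (z (x ^ A)) := by
    filter_upwards [V_TT δ hδ, zpow_ev z hz A hA, log_top.eventually_ge_atTop 1] with x h1 h2 h3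
    have h4 : 0 < Real.log x := by linarith
    refine le_of_mul_le_mul_right ?_ h4
    refine h1.1.trans ?_
    rw [div_le_iff₀ (by positivity)] at h2
    calc 4 * g / δ = 4 * g / δ * 1 := by ring
      _ ≤ 4 * g / δ * (V (z (x ^ A)) * Real.log x * (2 * A)) := by gcongr
      _ = 8 * A * g / δ * V (z (x ^ A)) * Real.log x := by ring
  have f13 : ∀ᶠ x : ℕ in atTop, Kf * ((TT δ x : ℝ) + 1) ^ Bf ≤ (1 / 2) * (x / Real.log x ^ B) := by
    filter_upwards [log_pow_le B (1 / 2) (2 * (Kf * 2 ^ Bf)) (by norm_num), log_top.eventually_ge_atTop 1,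
      eventually_ge_atTop 1] with x h1 h2 hx
    have hx1 : (1 : ℝ) ≤ x := by exact_mod_cast hx
    have hx0 : (0 : ℝ) < x := by linarith
    have hδx : (1 : ℝ) ≤ (x : ℝ) ^ δ := Real.one_le_rpow hx1 hδ.le
    have h4 : (TT δ x : ℝ) + 1 ≤ 2 * (x : ℝ) ^ δ := by linarith [TT_le δ x]
    have h5 : Kf * ((TT δ x : ℝ) + 1) ^ Bf ≤ Kf * 2 ^ Bf * (x : ℝ) ^ (1 / 2 : ℝ) := by
      calc Kf * ((TT δ x : ℝ) + 1) ^ Bf ≤ Kf * (2 * (x : ℝ) ^ δ) ^ Bf := by gcongr
        _ = Kf * 2 ^ Bf * (x : ℝ) ^ (δ * Bf) := by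
            rw [mul_pow, Real.rpow_mul hx0.le, Real.rpow_natCast]
            ring
        _ ≤ _ := by gcongr
    refine h5.trans ?_
    have hL : 0 < Real.log x ^ B := pow_pos (by linarith) B
    rw [one_div_mul_eq_div, div_div, le_div_iff₀ (by positivity)]
    have h7 : (x : ℝ) ^ (1 / 2 : ℝ) * (x : ℝ) ^ (1 / 2 : ℝ) = x := by
      rw [← Real.rpow_add hx0]
      norm_num
    calc Kf * 2 ^ Bf * (x : ℝ) ^ (1 / 2 : ℝ) * (Real.log x ^ B * 2) =
          (2 * (Kf * 2 ^ Bf) * Real.log x ^ B) * (x : ℝ) ^ (1 / 2 : ℝ) := by ring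
      _ ≤ (x : ℝ) ^ (1 / 2 : ℝ) * (x : ℝ) ^ (1 / 2 : ℝ) := by gcongr
      _ = x := h7
  filter_upwards [eventually_ge_atTop 2, log_top.eventually_ge_atTop 1, TT_ge δ hδ,
    hWT.eventually_ge_atTop (max (4 * K2 k D) P0), f5, hW.small A δ hA hδ, (TT_top η hη).eventually_ge_atTop 3, f9, f10,
    zpow_le z hz A hA, f12, f13] with x a1 a2 a3 a4 a5 a6 a7 a8 a9 a10 a11 a12
  simp only [Function.comp_apply] at a4
  refine ⟨a1, a2, a3.2, TT_pow (4 * A) δ (by omega) hδ1 x (by omega), (le_max_left _ _).trans a4, a5, ?_,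
    hW.mono (TT_pow A η hA hη1 x (by omega)), a6, a7, a8, a9, a10, a11, a12⟩
  exact_mod_cast (le_max_right _ _).trans a4

/-- **The number of the simultaneous random prime values.** -/
theorem engine (h : Model P a) (z W : ℕ → ℕ) (hz : Limit z) (hW : Cut W) (k D A P0 B : ℕ) (hA : 1 ≤ A) (η ε : ℝ)
    (hη : 0 < η) (hη1 : η ≤ 1) (hε : 0 < ε) (hε1 : ε ≤ 1) :
    ∀ᵐ ω ∂P, ∀ᶠ x : ℕ in atTop, ∀ C ∈ box k D (x ^ A), (∀ p, p.Prime → P0 < p → Good C p) →
      ∀ (k0 y : ℕ) (lo hi : Fin k → ℕ), k0 ≤ x → y ≤ x → (∀ i, TT η x ≤ lo i) → (∀ i, hi i ≤ x ^ A) →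
      (∀ m ∈ Ioc k0 (k0 + y), ∀ i, (lo i : ℤ) ≤ evl (C i) m ∧ evl (C i) m ≤ hi i) →
      (1 - ε) * (y * (Sg C (W (TT η x)) * ∏ i, V (z (hi i)))) - x / Real.log x ^ B ≤
        cnt C (RS z W (fun p => a p ω)) k0 y ∧
      cnt C (RS z W (fun p => a p ω)) k0 y ≤
        (1 + ε) * (y * (Sg C (W (TT η x)) * ∏ i, V (z (lo i)))) + x / Real.log x ^ B := by
  have hprob := prob h
  have hg := g_pos
  have hK := K2_pos k D
  have hA0 : (0 : ℝ) < A := by exact_mod_cast hA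
  obtain ⟨Bf, Kf, hKf, hfl⟩ := Pool.Agent.T2H32.GB.flg (2 * (k * D) + 2 * P0) (ε / 4) (by positivity)
  set δ : ℝ := min (1 / (2 * ((Bf : ℝ) + 1))) (g * η / 16) with hδd
  have hBf0 : (0 : ℝ) ≤ Bf := Nat.cast_nonneg _
  have hδ : 0 < δ := lt_min (by positivity) (by positivity)
  have hδ1' : δ ≤ 1 / (2 * ((Bf : ℝ) + 1)) := min_le_left _ _
  have hδ2 : 16 * δ ≤ g * η := by
    have : δ ≤ g * η / 16 := min_le_right _ _
    linarith
  have hδ1 : δ ≤ 1 := by
    refine hδ1'.trans ?_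
    rw [div_le_one (by positivity)]
    linarith
  have hδB : δ * Bf ≤ 1 / 2 := by
    calc δ * Bf ≤ 1 / (2 * ((Bf : ℝ) + 1)) * Bf := by gcongr
      _ ≤ 1 / 2 := by
          rw [div_mul_eq_mul_div, div_le_div_iff₀ (by positivity) (by norm_num)]
          linarith
  have hc1 : 0 < 8 * A * g / δ := by positivity
  have he : 0 < min (ε / 8) 1 := by positivity
  have hF := facts_ev z W hz hW k D A P0 B Bf hA η δ ε Kf hη hη1 hδ hδ1 hδ2 hε hKf hδB
  have hE1 := ev1 h k D (4 * A) P0 B δ (1 / 2) (8 * A * g / δ) hδ hδ1 (by norm_num) hc1 (fun x => W (TT η x))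
    (fun x => W (x ^ A))
  have hwt : Tendsto (fun x : ℕ => ((W (x ^ A) : ℕ) : ℝ) / Real.log x) atTop atTop := by
    have h1 := hW.top.comp (pow_top A hA)
    refine tendsto_atTop_mono' atTop ?_ h1
    filter_upwards [log_top.eventually_ge_atTop 1] with x hx
    simp only [Function.comp_apply, Nat.cast_pow, Real.log_pow]
    have h2 : (1 : ℝ) ≤ A := by exact_mod_cast hA
    have h3 : (0 : ℝ) ≤ (W (x ^ A) : ℝ) := Nat.cast_nonneg _
    gcongr
    nlinarith
  have hE2 := ev2 h k D (4 * A) P0 (min (ε / 8) 1) he (min_le_right _ _) (fun x => W (x ^ A)) hwt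
  filter_upwards [hE1, hE2] with ω hω1 hω2
  filter_upwards [hω1, hω2, hF] with x hx1 hx2 hf C hCb hC k0 y lo hi hk0 hy hlo hhi hm
  obtain ⟨x2, L1, T1, TA, w1a, w1b, w1c, w12, w2T, lo3, slow, Tz, zA, VT, E⟩ := hf
  set T := TT δ x with hTd
  set w1 := W (TT η x) with hw1
  set w2 := W (x ^ A) with hw2
  set b : ℕ → ℕ := fun p => a p ω with hb
  set N := z (x ^ A) with hN
  have hLB : 0 < Real.log x ^ B := pow_pos (by linarith) B
  have hx0 : (0 : ℝ) < x := by
    have : (2 : ℝ) ≤ x := by exact_mod_cast x2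
    linarith
  have hXB : 0 ≤ (x : ℝ) / Real.log x ^ B := by positivity
  have hSg := Sg_nonneg C w1
  rcases Nat.eq_zero_or_pos y with hy0 | hy0
  · have h0 : cnt C (RS z W b) k0 y = 0 := by
      unfold cnt
      rw [hy0]
      simp
    rw [h0, hy0]
    simp only [Nat.cast_zero, zero_mul, mul_zero, zero_sub, zero_add]
    exact ⟨by linarith, hXB⟩
  have hlohi : ∀ i, lo i ≤ hi i := by
    intro i
    have h1 := hm (k0 + 1) (by rw [mem_Ioc]; omega) i
    have h2 := h1.1.trans h1.2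
    exact_mod_cast h2
  have hbox : C ∈ box k D (x ^ (4 * A)) := by
    rw [mem_box] at hCb ⊢
    intro i j
    refine (hCb i j).trans ?_
    exact_mod_cast Nat.pow_le_pow_right (by omega) (by omega)
  have hxA : x ^ A ≤ x ^ (4 * A) := Nat.pow_le_pow_right (by omega) (by omega)
  have hzm := hz.1
  have hzhi : ∀ i, z (hi i) ≤ N := fun i => hzm (hhi i)
  have hzlo : ∀ i, z (lo i) ≤ N := fun i => hzm ((hlohi i).trans (hhi i))
  have hTlo : ∀ i, T ≤ z (lo i) := fun i => Tz.trans (hzm (hlo i))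
  have hThi : ∀ i, T ≤ z (hi i) := fun i => (hTlo i).trans (hzm (hlohi i))
  have hCw : ∀ p, p.Prime → w1 < p → Good C p := fun p hp h1 => hC p hp (by omega)
  have hXs : |∑ p ∈ (Ioc w2 T).filter Nat.Prime, X C p (b p)| ≤ ε / 8 :=
    (hx2 C hbox hC T TA).le.trans (min_le_left _ _)
  have htt : tt k D (ε / 8) (ε / (16 * K2 k D)) w1 ≤ 3 * ε / 8 := by
    unfold tt
    have : 2 * K2 k D * (ε / (16 * K2 k D)) = ε / 8 := by
      field_simp
      norm_num
    rw [this]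
    linarith
  have hpr : ∀ Z : Fin k → ℕ, 0 ≤ ∏ p ∈ (Ioc T N).filter Nat.Prime, (1 - (wt Z p : ℝ) / (p : ℝ)) ∧
      ∏ p ∈ (Ioc T N).filter Nat.Prime, (1 - (wt Z p : ℝ) / (p : ℝ)) ≤ 1 := by
    intro Z
    have hkT : k ≤ T := by
      have h1 : (k : ℝ) ≤ w1 := by
        have : (k : ℝ) ≤ K2 k D := by
          unfold K2
          have : (0 : ℝ) ≤ k * D := by positivity
          linarith
        linarith
      have h2 : k ≤ w1 := by exact_mod_cast h1
      exact h2.trans (w12.trans w2T)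
    have h1 : ∀ p ∈ (Ioc T N).filter Nat.Prime, 0 ≤ 1 - (wt Z p : ℝ) / (p : ℝ) ∧ 1 - (wt Z p : ℝ) / (p : ℝ) ≤ 1 := by
      intro p hp
      rw [mem_filter, mem_Ioc] at hp
      have h3 : (wt Z p : ℝ) ≤ p := by
        have := wt_le Z p
        exact_mod_cast (show wt Z p ≤ p by omega)
      have h4 : (wt Z p : ℝ) / p ≤ 1 := by rw [div_le_one (by exact_mod_cast hp.2.pos)]; exact h3
      have h5 : 0 ≤ (wt Z p : ℝ) / p := by positivity
      constructor <;> linarith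
    exact ⟨prod_nonneg fun p hp => (h1 p hp).1, prod_le_one (fun p hp => (h1 p hp).1) fun p hp => (h1 p hp).2⟩
  have hy0R : (0 : ℝ) ≤ y := Nat.cast_nonneg _
  constructor
  · -- lower bound
    have h1 := low_sub C z W hzm hW.mono b w1 w2 T N k0 y lo hi (fun i => lo3.trans (hlo i))
      (fun i => hW.mono (hlo i)) (fun i => hW.mono (hhi i)) w2T hzhi hm
    have h2 := hx1 C hbox hC (fun i => z (hi i)) N k0 y false (fun i => (hzhi i).trans zA) zA hk0 hy VT
    have h3 := hfl T (Om C w1 w2 false b) (fun p _ hpp => Om_card C w1 w2 P0 false b p hpp hC) k0 y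
    have h4 := low_dens C w1 w2 T N b (fun i => z (hi i)) w12 w2T hCw w1a (ε / 8) _ slow hXs hThi hzhi
    set Pi := ∏ p ∈ (Ioc T N).filter Nat.Prime, (1 - (wt (fun i => z (hi i)) p : ℝ) / (p : ℝ)) with hPi
    set Dn := ∏ p ∈ (range (T + 1)).filter Nat.Prime, (1 - ((Om C w1 w2 false b p).card : ℝ) / p) with hDn
    obtain ⟨hPi0, hPi1⟩ := hpr (fun i => z (hi i))
    unfold dev at h2
    have h5 := (abs_lt.1 h2).1
    have h6 := (abs_le.1 h3).1
    set bc : ℝ := ((base C w1 w2 false T k0 y b).card : ℝ) with hbc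
    have h6' : (1 - ε / 4) * (y * Dn) - Kf * ((T : ℝ) + 1) ^ Bf ≤ bc := by
      have : bc = (((Ioc k0 (k0 + y)).filter (fun n => ∀ p ≤ T, p.Prime → n % p ∉ Om C w1 w2 false b p)).card : ℝ) := rfl
      rw [this]
      linarith
    set EE := Kf * ((T : ℝ) + 1) ^ Bf with hEE
    have hEE0 : 0 ≤ EE := by positivity
    have h7 : (1 - ε / 4) * (y * (Dn * Pi)) - EE ≤ bc * Pi := by
      have h8 := mul_le_mul_of_nonneg_right h6' hPi0
      have h9 : EE * Pi ≤ EE * 1 := mul_le_mul_of_nonneg_left hPi1 hEE0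
      nlinarith
    set Q := Sg C w1 * ∏ i, V (z (hi i)) with hQ
    have hQ0 : 0 ≤ Q := mul_nonneg hSg (prod_nonneg fun i _ => (V_pos _).le)
    have h8 : (1 - 3 * ε / 8) * Q ≤ Dn * Pi := by
      refine le_trans (mul_le_mul_of_nonneg_right ?_ hQ0) h4
      have := Real.add_one_le_exp (-tt k D (ε / 8) (ε / (16 * K2 k D)) w1)
      linarith
    have h9 : (1 - ε) * (y * Q) ≤ (1 - ε / 4) * (y * (Dn * Pi)) := by
      have h10 : y * ((1 - 3 * ε / 8) * Q) ≤ y * (Dn * Pi) := mul_le_mul_of_nonneg_left h8 hy0R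
      have h11 : (1 - ε / 4) * (y * ((1 - 3 * ε / 8) * Q)) ≤ (1 - ε / 4) * (y * (Dn * Pi)) :=
        mul_le_mul_of_nonneg_left h10 (by linarith)
      refine le_trans ?_ h11
      have h12 : 0 ≤ y * Q := by positivity
      have h13 : (1 - ε) * (y * Q) ≤ ((1 - ε / 4) * (1 - 3 * ε / 8)) * (y * Q) :=
        mul_le_mul_of_nonneg_right (by nlinarith) h12
      linarith
    have h10 : ((surv (kl C (fun i => z (hi i))) b ((Ioc T N).filter Nat.Prime)
        (base C w1 w2 false T k0 y b)).card : ℝ) ≤ cnt C (RS z W b) k0 y := by exact_mod_cast h1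
    linarith
  · -- upper bound
    have h1 := up_sub C z W hzm hW.mono b w1 w2 T N k0 y lo hi
      (fun i => hW.mono (hlo i)) (fun i => hW.mono (hhi i)) w2T hTlo hm
    have h2 := hx1 C hbox hC (fun i => z (lo i)) N k0 y true (fun i => (hzlo i).trans zA) zA hk0 hy VT
    have h3 := hfl T (Om C w1 w2 true b) (fun p _ hpp => Om_card C w1 w2 P0 true b p hpp hC) k0 y
    have h4 := up_dens C w1 w2 T N b (fun i => z (lo i)) w12 w2T w1a (ε / 8) _ slow hXs hTlo hzlo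
    set Pi := ∏ p ∈ (Ioc T N).filter Nat.Prime, (1 - (wt (fun i => z (lo i)) p : ℝ) / (p : ℝ)) with hPi
    set Dn := ∏ p ∈ (range (T + 1)).filter Nat.Prime, (1 - ((Om C w1 w2 true b p).card : ℝ) / p) with hDn
    obtain ⟨hPi0, hPi1⟩ := hpr (fun i => z (lo i))
    unfold dev at h2
    have h5 := (abs_lt.1 h2).2
    have h6 := (abs_le.1 h3).2
    set bc : ℝ := ((base C w1 w2 true T k0 y b).card : ℝ) with hbc
    have h6' : bc ≤ (1 + ε / 4) * (y * Dn) + Kf * ((T : ℝ) + 1) ^ Bf := by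
      have : bc = (((Ioc k0 (k0 + y)).filter (fun n => ∀ p ≤ T, p.Prime → n % p ∉ Om C w1 w2 true b p)).card : ℝ) := rfl
      rw [this]
      linarith
    set EE := Kf * ((T : ℝ) + 1) ^ Bf with hEE
    have hEE0 : 0 ≤ EE := by positivity
    have h7 : bc * Pi ≤ (1 + ε / 4) * (y * (Dn * Pi)) + EE := by
      have h8 := mul_le_mul_of_nonneg_right h6' hPi0
      have h9 : EE * Pi ≤ EE * 1 := mul_le_mul_of_nonneg_left hPi1 hEE0
      nlinarith
    set Q := Sg C w1 * ∏ i, V (z (lo i)) with hQ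
    have hQ0 : 0 ≤ Q := mul_nonneg hSg (prod_nonneg fun i _ => (V_pos _).le)
    have h8 : Dn * Pi ≤ (1 + 3 * ε / 8 + (3 * ε / 8) ^ 2) * Q := by
      refine h4.trans (mul_le_mul_of_nonneg_right ?_ hQ0)
      refine (Real.exp_le_exp.2 htt).trans ?_
      have h9 : |3 * ε / 8| ≤ 1 := by
        rw [abs_of_nonneg (by positivity)]
        linarith
      have := (abs_le.1 (Real.abs_exp_sub_one_sub_id_le h9)).2
      linarith
    have h9 : (1 + ε / 4) * (y * (Dn * Pi)) ≤ (1 + ε) * (y * Q) := by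
      have h10 : y * (Dn * Pi) ≤ y * ((1 + 3 * ε / 8 + (3 * ε / 8) ^ 2) * Q) := mul_le_mul_of_nonneg_left h8 hy0R
      have h11 := mul_le_mul_of_nonneg_left h10 (show 0 ≤ 1 + ε / 4 by positivity)
      refine h11.trans ?_
      have h12 : 0 ≤ y * Q := by positivity
      have h13 : ((1 + ε / 4) * (1 + 3 * ε / 8 + (3 * ε / 8) ^ 2)) * (y * Q) ≤ (1 + ε) * (y * Q) := by
        refine mul_le_mul_of_nonneg_right ?_ h12
        nlinarith [sq_nonneg ε, mul_pos hε hε]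
      linarith
    have h10 : (cnt C (RS z W b) k0 y : ℝ) ≤ ((surv (kl C (fun i => z (lo i))) b ((Ioc T N).filter Nat.Prime)
        (base C w1 w2 true T k0 y b)).card : ℝ) := by exact_mod_cast h1
    linarith

end Pool.Agent.H559.HY
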