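import Pool.Agent.H559.HY.Lin
import Pool.Agent.H559.BS.Ext

set_option autoImplicit false

/-! # Goldbach's problem for the random primes -/

open Finset MeasureTheory ProbabilityTheory Filter Topology
open Pool.Agent.T2H32.BF (Model prob V V_pos V_anti V_ratio recip_le mertens)
open Pool.Agent.H559.BS (Limit TT TT_le TT_ge TT_top log_TT V_TT log_pow_le log_top g g_pos z_div U U_ge U_top V_U U_log)
open Pool.Agent.T2H32.GB (C2 C2_succ C2_pos C2_anti C2_ge)

namespace Pool.Agent.H559.HY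

/-- the two numbers `m` and `n - m` -/
def Gn (n : ℕ) : Arr 2 1 := ![![0, 1], ![(n : ℤ), -1]]

theorem evl_G0 (n m : ℕ) : evl (Gn n 0) m = m := by
  unfold evl Gn
  rw [Fin.sum_univ_two]
  simp

theorem evl_G1 (n m : ℕ) : evl (Gn n 1) m = n - m := by
  unfold evl Gn
  rw [Fin.sum_univ_two]
  simp
  ring

theorem good_G (n p : ℕ) (_hp : p.Prime) (h2 : 2 < p) : Good (Gn n) p := by
  have h1 : ¬ (p : ℤ) ∣ 1 := by
    intro h
    have := Int.le_of_dvd one_pos h
    omega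
  have h3 : ¬ (p : ℤ) ∣ 2 := by
    intro h
    have := Int.le_of_dvd two_pos h
    omega
  constructor
  · intro i
    refine ⟨1, by decide, ?_⟩
    fin_cases i
    · simpa [Gn] using h1
    · simpa [Gn] using h1
  · intro i i' hi
    refine ⟨1, ?_⟩
    fin_cases i <;> fin_cases i'
    · exact absurd rfl hi
    · simpa [Gn] using h3
    · have : ¬ (p : ℤ) ∣ -2 := by rwa [dvd_neg]
      simpa [Gn] using this
    · exact absurd rfl hi

theorem box_G : ∀ᶠ n : ℕ in atTop, Gn n ∈ box 2 1 (n ^ 2) := by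
  filter_upwards [eventually_ge_atTop 1] with n hn
  rw [mem_box]
  have h1 : (1 : ℤ) ≤ ((n ^ 2 : ℕ) : ℤ) := by
    have : 1 ≤ n ^ 2 := Nat.one_le_pow _ _ hn
    exact_mod_cast this
  have h2 : (n : ℤ) ≤ ((n ^ 2 : ℕ) : ℤ) := by
    have : n ≤ n ^ 2 := Nat.le_self_pow (by norm_num) n
    exact_mod_cast this
  intro i j
  fin_cases i <;> fin_cases j
  · simp [Gn]
  · simpa [Gn] using h1
  · simpa [Gn] using h2
  · simpa [Gn] using h1

theorem val_G : ∀ᶠ n : ℕ in atTop, ∀ m : ℕ, Nat.sqrt n < m → m + Nat.sqrt n ≤ n → ∀ i,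
      ((min m (n - m) : ℕ) : ℤ) ≤ 2 * evl (Gn n i) m ∧ evl (Gn n i) m ≤ ((2 * n : ℕ) : ℤ) := by
  filter_upwards with n m h1 h2 i
  have h3 : min m (n - m) ≤ m := min_le_left _ _
  have h4 : min m (n - m) ≤ n - m := min_le_right _ _
  fin_cases i
  · change ((min m (n - m) : ℕ) : ℤ) ≤ 2 * evl (Gn n 0) m ∧ evl (Gn n 0) m ≤ ((2 * n : ℕ) : ℤ)
    rw [evl_G0]
    push_cast
    omega
  · change ((min m (n - m) : ℕ) : ℤ) ≤ 2 * evl (Gn n 1) m ∧ evl (Gn n 1) m ≤ ((2 * n : ℕ) : ℤ)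
    rw [evl_G1]
    push_cast
    omega

theorem rts_G (n p : ℕ) (hp : p.Prime) : (rts (Gn n) p 0).card = if p ∣ n then 1 else 2 := by
  have e : rts (Gn n) p 0 = {0, n % p} := by
    ext s
    unfold rts
    rw [mem_filter, mem_range, mem_insert, mem_singleton]
    have hp0 := hp.pos
    have hm := Nat.mod_lt n hp0
    have e0 : ∀ s : ℕ, cls (Gn n) 0 p s = 0 ↔ p ∣ s := by
      intro s
      rw [cls_eq_iff _ _ _ _ _ hp0 hp0, evl_G0, Nat.cast_zero, sub_zero]
      exact_mod_cast Iff.rfl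
    have e1 : ∀ s : ℕ, cls (Gn n) 1 p s = 0 ↔ s ≡ n [MOD p] := by
      intro s
      rw [cls_eq_iff _ _ _ _ _ hp0 hp0, evl_G1, Nat.cast_zero, sub_zero, ← Int.modEq_iff_dvd]
      exact_mod_cast Iff.rfl
    constructor
    · rintro ⟨h1, i, h2⟩
      fin_cases i
      · have h3 := (e0 s).1 h2
        exact Or.inl (Nat.eq_zero_of_dvd_of_lt h3 h1)
      · have h3 := (e1 s).1 h2
        right
        unfold Nat.ModEq at h3
        rw [Nat.mod_eq_of_lt h1] at h3
        exact h3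
    · rintro (h | h)
      · rw [h]
        exact ⟨hp0, 0, (e0 0).2 (dvd_zero p)⟩
      · rw [h]
        exact ⟨hm, 1, (e1 _).2 (Nat.mod_modEq n p)⟩
  rw [e]
  split_ifs with h
  · rw [Nat.mod_eq_zero_of_dvd h]
    simp
  · rw [card_pair]
    intro h2
    exact h (Nat.dvd_of_mod_eq_zero h2.symm)

/-- the factor of the prime divisors up to `w` -/
noncomputable def Ew (n w : ℕ) : ℝ :=
  ∏ p ∈ (range (w + 1)).filter (fun p => p.Prime ∧ p ≠ 2), if p ∣ n then ((p : ℝ) - 1) / ((p : ℝ) - 2) else 1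

theorem Sg_G (n w : ℕ) (hn : Even n) (hw : 2 ≤ w) : Sg (Gn n) w = 2 * (C2 w * Ew n w) := by
  unfold Sg C2 Ew
  have e1 : (range (w + 1)).filter Nat.Prime = insert 2 ((range (w + 1)).filter (fun p => p.Prime ∧ p ≠ 2)) := by
    ext p
    simp only [mem_filter, mem_insert, mem_range]
    constructor
    · rintro ⟨h1, h2⟩
      by_cases h : p = 2
      · exact Or.inl h
      · exact Or.inr ⟨h1, h2, h⟩
    · rintro (h | ⟨h1, h2, h3⟩)
      · rw [h]
        exact ⟨by omega, Nat.prime_two⟩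
      · exact ⟨h1, h2⟩
  rw [e1, prod_insert (by simp), ← prod_mul_distrib]
  have e2 : (1 - ((rts (Gn n) 2 0).card : ℝ) / ((2 : ℕ) : ℝ)) / (1 - 1 / ((2 : ℕ) : ℝ)) ^ 2 = 2 := by
    rw [rts_G n 2 Nat.prime_two, if_pos hn.two_dvd]
    norm_num
  rw [e2]
  congr 1
  refine prod_congr rfl fun p hp => ?_
  rw [mem_filter, mem_range] at hp
  obtain ⟨h1, h2, h3⟩ := hp
  have h4 : (3 : ℝ) ≤ p := by
    have := h2.two_le
    have h5 : 3 ≤ p := by omega
    exact_mod_cast h5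
  have h5 : (p : ℝ) ≠ 0 := by linarith
  have h6 : (p : ℝ) - 1 ≠ 0 := by linarith
  have h7 : (p : ℝ) - 2 ≠ 0 := by linarith
  have h8 : (1 : ℝ) - 1 / p = (p - 1) / p := by field_simp
  rw [rts_G n p h2, h8]
  split_ifs
  · push_cast
    rw [h8]
    field_simp
    ring
  · push_cast
    field_simp
    ring

/-- the full factor -/
noncomputable def En (n : ℕ) : ℝ := ∏ p ∈ n.primeFactors.filter (fun p => p ≠ 2), ((p : ℝ) - 1) / ((p : ℝ) - 2)

theorem one_le_prod' {ι : Type*} (s : Finset ι) (f : ι → ℝ) (h : ∀ i ∈ s, 1 ≤ f i) : 1 ≤ ∏ i ∈ s, f i := by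
  calc (1 : ℝ) = ∏ _i ∈ s, (1 : ℝ) := by rw [prod_const_one]
    _ ≤ ∏ i ∈ s, f i := prod_le_prod (fun _ _ => zero_le_one) h

theorem fac_ge (p : ℕ) (hp : p.Prime) (h2 : p ≠ 2) : 1 ≤ ((p : ℝ) - 1) / ((p : ℝ) - 2) := by
  have h4 : (3 : ℝ) ≤ p := by
    have := hp.two_le
    have h5 : 3 ≤ p := by omega
    exact_mod_cast h5
  rw [le_div_iff₀ (by linarith)]
  linarith

theorem Ew_ge (n w : ℕ) : 1 ≤ Ew n w := by
  unfold Ew
  refine one_le_prod' _ _ fun p hp => ?_
  rw [mem_filter] at hp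
  split_ifs
  · exact fac_ge p hp.2.1 hp.2.2
  · exact le_rfl

theorem En_ge (n : ℕ) : 1 ≤ En n := by
  unfold En
  refine one_le_prod' _ _ fun p hp => ?_
  rw [mem_filter] at hp
  exact fac_ge p (Nat.prime_of_mem_primeFactors hp.1) hp.2

theorem Ew_eq (n w : ℕ) (hn : n ≠ 0) : Ew n w = ∏ p ∈ (n.primeFactors.filter (fun p => p ≠ 2)).filter (fun p => p ≤ w),
    ((p : ℝ) - 1) / ((p : ℝ) - 2) := by
  unfold Ew
  rw [← prod_filter]
  refine prod_congr ?_ fun _ _ => rfl
  ext p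
  simp only [mem_filter, mem_range, Nat.mem_primeFactors]
  constructor
  · rintro ⟨⟨h1, h2, h3⟩, h4⟩
    exact ⟨⟨⟨h2, h4, hn⟩, h3⟩, by omega⟩
  · rintro ⟨⟨⟨h1, h2, h3⟩, h4⟩, h5⟩
    exact ⟨⟨by omega, h1, h4⟩, h2⟩

theorem card_pf (n : ℕ) (hn : n ≠ 0) : (n.primeFactors.card : ℝ) * Real.log 2 ≤ Real.log n := by
  have h1 : 2 ^ n.primeFactors.card ≤ ∏ p ∈ n.primeFactors, p := by
    rw [← prod_const]
    exact prod_le_prod' fun p hp => (Nat.prime_of_mem_primeFactors hp).two_le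
  have h2 : 2 ^ n.primeFactors.card ≤ n := h1.trans (Nat.le_of_dvd (Nat.pos_of_ne_zero hn) (Nat.prod_primeFactors_dvd n))
  rw [← Real.log_pow]
  refine Real.log_le_log (by positivity) ?_
  exact_mod_cast h2

/-- the truncation -/
theorem En_Ew (n w : ℕ) (hn : n ≠ 0) (hw : 2 ≤ w) : Ew n w ≤ En n ∧
    En n ≤ Ew n w * Real.exp ((Real.log n / Real.log 2) / ((w : ℝ) - 1)) := by
  have hw2 : (2 : ℝ) ≤ w := by exact_mod_cast hw
  have e : En n = Ew n w * ∏ p ∈ (n.primeFactors.filter (fun p => p ≠ 2)).filter (fun p => ¬ p ≤ w),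
      ((p : ℝ) - 1) / ((p : ℝ) - 2) := by
    rw [Ew_eq n w hn]
    unfold En
    exact (prod_filter_mul_prod_filter_not _ _ _).symm
  have hE := Ew_ge n w
  have h1 : 1 ≤ ∏ p ∈ (n.primeFactors.filter (fun p => p ≠ 2)).filter (fun p => ¬ p ≤ w),
      ((p : ℝ) - 1) / ((p : ℝ) - 2) := by
    refine one_le_prod' _ _ fun p hp => ?_
    rw [mem_filter, mem_filter] at hp
    exact fac_ge p (Nat.prime_of_mem_primeFactors hp.1.1) hp.1.2
  have h2 : ∏ p ∈ (n.primeFactors.filter (fun p => p ≠ 2)).filter (fun p => ¬ p ≤ w),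
      ((p : ℝ) - 1) / ((p : ℝ) - 2) ≤ Real.exp ((Real.log n / Real.log 2) / ((w : ℝ) - 1)) := by
    have h3 : ∏ p ∈ (n.primeFactors.filter (fun p => p ≠ 2)).filter (fun p => ¬ p ≤ w),
        ((p : ℝ) - 1) / ((p : ℝ) - 2) ≤ ∏ _p ∈ (n.primeFactors.filter (fun p => p ≠ 2)).filter (fun p => ¬ p ≤ w),
        Real.exp (1 / ((w : ℝ) - 1)) := by
      refine prod_le_prod (fun p hp => ?_) fun p hp => ?_
      · rw [mem_filter, mem_filter] at hp
        linarith [fac_ge p (Nat.prime_of_mem_primeFactors hp.1.1) hp.1.2]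
      · rw [mem_filter, mem_filter] at hp
        have h4 : (w : ℝ) + 1 ≤ p := by
          have : w + 1 ≤ p := by omega
          exact_mod_cast this
        have h5 : ((p : ℝ) - 1) / ((p : ℝ) - 2) = 1 + 1 / ((p : ℝ) - 2) := by
          have : (p : ℝ) - 2 ≠ 0 := by linarith
          field_simp
          ring
        rw [h5]
        have h6 : 1 / ((p : ℝ) - 2) ≤ 1 / ((w : ℝ) - 1) := one_div_le_one_div_of_le (by linarith) (by linarith)
        have h7 := Real.add_one_le_exp (1 / ((w : ℝ) - 1))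
        linarith
    refine h3.trans ?_
    rw [prod_const, ← Real.exp_nat_mul, Real.exp_le_exp]
    have h4 : (((n.primeFactors.filter (fun p => p ≠ 2)).filter (fun p => ¬ p ≤ w)).card : ℝ) ≤ Real.log n / Real.log 2 := by
      rw [le_div_iff₀ (Real.log_pos one_lt_two)]
      have h5 : (((n.primeFactors.filter (fun p => p ≠ 2)).filter (fun p => ¬ p ≤ w)).card : ℝ) ≤ (n.primeFactors.card : ℝ) := by
        exact_mod_cast (card_filter_le _ _).trans (card_filter_le _ _)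
      have h6 := card_pf n hn
      have h7 : 0 < Real.log 2 := Real.log_pos one_lt_two
      nlinarith
    have h5 : 0 ≤ 1 / ((w : ℝ) - 1) := by
      have : 0 < (w : ℝ) - 1 := by linarith
      positivity
    refine (mul_le_mul_of_nonneg_right h4 h5).trans (le_of_eq ?_)
    ring
  rw [e]
  constructor
  · nlinarith
  · exact mul_le_mul_of_nonneg_left h2 (by linarith)

/-- the cut is beyond `log n` -/
theorem cut_lim (c : ℝ) (hc : 1 < c) : Tendsto (fun n : ℕ => (Real.log n / Real.log 2) / ((WW c (TT (1 / 4) n) : ℝ) - 1))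
    atTop (𝓝 0) := by
  have h1 := (cut_WW c hc).top.comp (TT_top (1 / 4) (by norm_num))
  have h2 := log_TT_lim (1 / 4) (by norm_num)
  have h3 : Tendsto (fun n : ℕ => (Real.log (TT (1 / 4) n) / Real.log n) * ((WW c (TT (1 / 4) n) : ℝ) / Real.log (TT (1 / 4) n)))
      atTop atTop := h2.pos_mul_atTop (by norm_num) h1
  have h4 : Tendsto (fun n : ℕ => (WW c (TT (1 / 4) n) : ℝ) / Real.log n) atTop atTop := by
    refine h3.congr' ?_
    filter_upwards [(TT_top (1 / 4) (by norm_num)).eventually_ge_atTop 3] with n hn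
    have : 0 < Real.log (TT (1 / 4) n) := Real.log_pos (by
      have : (3 : ℝ) ≤ TT (1 / 4) n := by exact_mod_cast hn
      linarith)
    field_simp
  have h5 : Tendsto (fun n : ℕ => ((WW c (TT (1 / 4) n) : ℝ) - 1) / Real.log n) atTop atTop := by
    have h6 : Tendsto (fun n : ℕ => (WW c (TT (1 / 4) n) : ℝ) / Real.log n + (-1)) atTop atTop :=
      h4.atTop_add tendsto_const_nhds
    refine tendsto_atTop_mono' atTop ?_ h6
    filter_upwards [log_top.eventually_ge_atTop 1] with n hn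
    rw [sub_div]
    have : 1 / Real.log n ≤ 1 := by
      rw [div_le_one (by linarith)]
      exact hn
    linarith
  have h6 := (tendsto_inv_atTop_zero.comp h5).const_mul (1 / Real.log 2)
  rw [mul_zero] at h6
  refine h6.congr' ?_
  filter_upwards with n
  simp only [Function.comp_apply, inv_div]
  ring

/-- the number of the ordered representations -/
noncomputable def gR (A : Set ℕ) (n : ℕ) : ℕ := {p : ℕ × ℕ | p.1 ∈ A ∧ p.2 ∈ A ∧ p.1 + p.2 = n}.ncard

theorem gR_eq (z W : ℕ → ℕ) (b : ℕ → ℕ) (n : ℕ) : gR (RS z W b) n = cnt (Gn n) (RS z W b) 0 n := by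
  classical
  unfold gR cnt
  rw [← Set.ncard_coe_finset]
  refine Set.ncard_congr (fun p _ => p.1) ?_ ?_ ?_
  · rintro ⟨p, q⟩ ⟨h1, h2, h3⟩
    simp only at h1 h2 h3 ⊢
    have h4 : 3 ≤ p := h1.1
    simp only [coe_filter, mem_Ioc, zero_add, Set.mem_ofPred_eq]
    refine ⟨⟨by omega, by omega⟩, fun i => ?_⟩
    fin_cases i
    · change (evl (Gn n 0) p).toNat ∈ RS z W b
      rw [evl_G0]
      simpa using h1
    · change (evl (Gn n 1) p).toNat ∈ RS z W b
      rw [evl_G1]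
      have : ((n : ℤ) - p).toNat = q := by omega
      rw [this]
      exact h2
  · rintro ⟨p, q⟩ ⟨p', q'⟩ ⟨h1, h2, h3⟩ ⟨h1', h2', h3'⟩ h
    simp only at h h3 h3'
    rw [Prod.mk.injEq]
    omega
  · intro m hm
    simp only [coe_filter, mem_Ioc, zero_add, Set.mem_ofPred_eq] at hm
    obtain ⟨⟨h1, h2⟩, h3⟩ := hm
    have h4 := h3 0
    have h5 := h3 1
    rw [evl_G0] at h4
    rw [evl_G1] at h5
    have h6 : ((n : ℤ) - m).toNat = n - m := by omega
    rw [h6] at h5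
    refine ⟨(m, n - m), ⟨?_, h5, by simp only; omega⟩, rfl⟩
    simpa using h4

end Pool.Agent.H559.HY
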