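import Pool.Agent.H559.HY.Gold

set_option autoImplicit false

/-! # Goldbach's problem for the random primes: the asymptotic formula and the extreme orders -/

open Finset MeasureTheory ProbabilityTheory Filter Topology
open Pool.Agent.T2H32.BF (Model prob V V_pos V_anti V_ratio recip_le mertens)
open Pool.Agent.H559.BS (Limit TT TT_le TT_ge TT_top log_TT V_TT log_pow_le log_top g g_pos z_div U U_ge U_top V_U U_log
  C2_two V_two shift crt V_succ)
open Pool.Agent.T2H32.GB (C2 C2_succ C2_pos C2_anti C2_ge)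

namespace Pool.Agent.H559.HY

theorem C2_le (c₂ : ℝ) (hc : Tendsto C2 atTop (𝓝 c₂)) (n : ℕ) : c₂ ≤ C2 n :=
  C2_anti.le_of_tendsto hc n

/-- the prediction, as a number -/
noncomputable def TG (c₂ : ℝ) (n : ℕ) : ℝ := 2 * c₂ * En n

theorem TG_ge (c₂ : ℝ) (hc0 : 0 < c₂) (n : ℕ) : 2 * c₂ ≤ TG c₂ n := by
  unfold TG
  have := En_ge n
  nlinarith

/-- the truncated series against the full one -/
theorem S_T (c₂ : ℝ) (hc : Tendsto C2 atTop (𝓝 c₂)) (hc0 : 0 < c₂) (n w : ℕ) (hn : Even n) (hn0 : n ≠ 0) (hw : 2 ≤ w) :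
    Real.exp (-((Real.log n / Real.log 2) / ((w : ℝ) - 1))) * TG c₂ n ≤ Sg (Gn n) w ∧
      Sg (Gn n) w ≤ (C2 w / c₂) * TG c₂ n := by
  obtain ⟨h1, h2⟩ := En_Ew n w hn0 hw
  rw [Sg_G n w hn hw]
  unfold TG
  have h3 := C2_le c₂ hc w
  have h4 := Ew_ge n w
  have h5 := C2_pos w
  constructor
  · have h6 : Real.exp (-((Real.log n / Real.log 2) / ((w : ℝ) - 1))) * En n ≤ Ew n w := by
      have h7 := mul_le_mul_of_nonneg_left h2 (Real.exp_pos (-((Real.log n / Real.log 2) / ((w : ℝ) - 1)))).le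
      rw [mul_comm (Ew n w), ← mul_assoc, ← Real.exp_add, neg_add_cancel, Real.exp_zero, one_mul] at h7
      exact h7
    calc Real.exp (-((Real.log n / Real.log 2) / ((w : ℝ) - 1))) * (2 * c₂ * En n)
        = 2 * (c₂ * (Real.exp (-((Real.log n / Real.log 2) / ((w : ℝ) - 1))) * En n)) := by ring
      _ ≤ 2 * (C2 w * Ew n w) := by
          have h8 : 0 ≤ Real.exp (-((Real.log n / Real.log 2) / ((w : ℝ) - 1))) * En n := by
            have := En_ge n
            positivity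
          gcongr
  · have e : C2 w / c₂ * (2 * c₂ * En n) = 2 * (C2 w * En n) := by field_simp
    rw [e]
    gcongr

section
variable (z : ℕ → ℕ) (hz : Limit z) (c : ℝ) (hc1 : 1 < c) (b : ℕ → ℕ) (hOK : OK z (WW c) b) (c₂ : ℝ) (hc0 : 0 < c₂)
  (hc : Tendsto C2 atTop (𝓝 c₂))
include hz hc1 hOK hc0 hc

theorem ratio (δ : ℝ) (hδ : 0 < δ) : ∀ᶠ n : ℕ in atTop, Even n →
    (1 - δ) * TG c₂ n ≤ (gR (RS z (WW c) b) n : ℝ) * Real.log n ^ 2 / n ∧
      (gR (RS z (WW c) b) n : ℝ) * Real.log n ^ 2 / n ≤ (1 + δ) * TG c₂ n := by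
  set κ : ℝ := 1 + 1 / (2 * c₂) with hκ
  have hκ1 : 1 < κ := by
    rw [hκ]
    have : 0 < 1 / (2 * c₂) := by positivity
    linarith
  set η : ℝ := min (δ / (2 * κ)) 1 with hη
  have hη0 : 0 < η := lt_min (by positivity) one_pos
  have hη1 : η ≤ 1 := min_le_right _ _
  have hηκ : η * κ < δ := by
    have h1 : η ≤ δ / (2 * κ) := min_le_left _ _
    have h2 : η * κ ≤ δ / (2 * κ) * κ := mul_le_mul_of_nonneg_right h1 (by linarith)
    have h3 : δ / (2 * κ) * κ = δ / 2 := by field_simp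
    linarith
  have hw := WW_top c (by linarith) (TT (1 / 4)) (1 / 4) (by norm_num) (log_TT_lim (1 / 4) (by norm_num))
  have hlin := lin z hz (WW c) b hOK Gn 2 (fun n p hp h2 => good_G n p hp h2) box_G val_G η hη0
  have hlow : Tendsto (fun n : ℕ => (1 - η) * Real.exp (-((Real.log n / Real.log 2) / ((WW c (TT (1 / 4) n) : ℝ) - 1))) -
      η * (1 / (2 * c₂))) atTop (𝓝 ((1 - η) * Real.exp (-0) - η * (1 / (2 * c₂)))) := by
    refine Tendsto.sub ?_ tendsto_const_nhds
    refine Tendsto.const_mul _ ?_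
    exact (Real.continuous_exp.tendsto _).comp (cut_lim c hc1).neg
  have hup : Tendsto (fun n : ℕ => (1 + η) * (C2 (WW c (TT (1 / 4) n)) / c₂) + η * (1 / (2 * c₂))) atTop
      (𝓝 ((1 + η) * (c₂ / c₂) + η * (1 / (2 * c₂)))) := by
    refine Tendsto.add ?_ tendsto_const_nhds
    exact ((hc.comp hw).div_const c₂).const_mul _
  have hl1 : 1 - δ < (1 - η) * Real.exp (-0) - η * (1 / (2 * c₂)) := by
    rw [neg_zero, Real.exp_zero, mul_one]
    have : η * κ = η + η * (1 / (2 * c₂)) := by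
      rw [hκ]
      ring
    linarith
  have hu1 : (1 + η) * (c₂ / c₂) + η * (1 / (2 * c₂)) < 1 + δ := by
    rw [div_self hc0.ne', mul_one]
    have : η * κ = η + η * (1 / (2 * c₂)) := by
      rw [hκ]
      ring
    linarith
  filter_upwards [hlin, hlow.eventually_const_lt hl1, hup.eventually_lt_const hu1, hw.eventually_ge_atTop 2,
    eventually_ge_atTop 1] with n h1 h2 h3 h4 h5 hn
  rw [gR_eq]
  set w := WW c (TT (1 / 4) n) with hwd
  obtain ⟨h6, h7⟩ := S_T c₂ hc hc0 n w hn (by omega) h4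
  have hT := TG_ge c₂ hc0 n
  have hT0 : 0 < TG c₂ n := by linarith
  have h8 : η ≤ η * (1 / (2 * c₂)) * TG c₂ n := by
    have : 1 ≤ 1 / (2 * c₂) * TG c₂ n := by
      rw [one_div_mul_eq_div, one_le_div (by positivity)]
      exact hT
    nlinarith
  constructor
  · refine le_trans ?_ h1.1
    have h9 := mul_le_mul_of_nonneg_left h6 (by linarith : (0 : ℝ) ≤ 1 - η)
    have h10 := mul_le_mul_of_nonneg_right h2.le hT0.le
    nlinarith
  · refine h1.2.trans ?_
    have h9 := mul_le_mul_of_nonneg_left h7 (by linarith : (0 : ℝ) ≤ 1 + η)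
    have h10 := mul_le_mul_of_nonneg_right h3.le hT0.le
    nlinarith

/-- the asymptotic formula along the even numbers -/
theorem gold_asym : Tendsto (fun m : ℕ => (gR (RS z (WW c) b) (2 * m) : ℝ) /
    (TG c₂ (2 * m) * (((2 * m : ℕ) : ℝ) / Real.log ((2 * m : ℕ) : ℝ) ^ 2))) atTop (𝓝 1) := by
  rw [Metric.tendsto_nhds]
  intro δ hδ
  have hm : Tendsto (fun m : ℕ => 2 * m) atTop atTop := (mul_lim 2 (by norm_num)).1
  filter_upwards [hm.eventually (ratio z hz c hc1 b hOK c₂ hc0 hc (δ / 2) (by positivity)),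
    hm.eventually (log_top.eventually_ge_atTop 1), eventually_ge_atTop 1] with m h1 h2 h3
  obtain ⟨h4, h5⟩ := h1 (even_two_mul m)
  set n := 2 * m with hn
  have hn0 : (0 : ℝ) < (n : ℝ) := by
    have : 0 < n := by omega
    exact_mod_cast this
  have hT := TG_ge c₂ hc0 n
  have hT0 : 0 < TG c₂ n := by linarith
  have hL : 0 < Real.log n := by linarith
  have e : (gR (RS z (WW c) b) n : ℝ) / (TG c₂ n * ((n : ℝ) / Real.log (n : ℝ) ^ 2)) =
      ((gR (RS z (WW c) b) n : ℝ) * Real.log n ^ 2 / n) / TG c₂ n := by field_simp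
  rw [e, Real.dist_eq, abs_lt]
  rw [← le_div_iff₀ hT0] at h4
  rw [← div_le_iff₀ hT0] at h5
  constructor <;> linarith

theorem gold_low (ε : ℝ) (hε : 0 < ε) : ∀ᶠ n : ℕ in atTop, Even n →
    (2 * c₂ - ε) * (n / Real.log n ^ 2) ≤ gR (RS z (WW c) b) n := by
  have hd : 0 < min (ε / (2 * c₂)) 1 := lt_min (by positivity) one_pos
  filter_upwards [ratio z hz c hc1 b hOK c₂ hc0 hc _ hd, log_top.eventually_ge_atTop 1, eventually_ge_atTop 1]
    with n h1 h2 h3 hn
  have hn0 : (0 : ℝ) < n := by exact_mod_cast h3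
  have hL : 0 < Real.log n := by linarith
  have hT := TG_ge c₂ hc0 n
  have h4 := (h1 hn).1
  have h5 : min (ε / (2 * c₂)) 1 ≤ 1 := min_le_right _ _
  have h6 : min (ε / (2 * c₂)) 1 * (2 * c₂) ≤ ε := by
    have := mul_le_mul_of_nonneg_right (min_le_left (ε / (2 * c₂)) 1) (by positivity : 0 ≤ 2 * c₂)
    rwa [div_mul_cancel₀ _ (by positivity)] at this
  have h7 : 2 * c₂ - ε ≤ (1 - min (ε / (2 * c₂)) 1) * TG c₂ n := by
    have h8 := mul_le_mul_of_nonneg_left hT (by linarith : 0 ≤ 1 - min (ε / (2 * c₂)) 1)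
    linarith
  have h8 := h7.trans h4
  rw [le_div_iff₀ hn0] at h8
  rw [← mul_div_assoc, div_le_iff₀ (by positivity)]
  exact h8

theorem gold_low_sharp (ε : ℝ) (hε : 0 < ε) : ∃ᶠ n : ℕ in atTop, Even n ∧
    (gR (RS z (WW c) b) n : ℝ) ≤ (2 * c₂ + ε) * (n / Real.log n ^ 2) := by
  have hd : 0 < ε / (2 * c₂) := by positivity
  have hw : Tendsto (fun j : ℕ => 2 ^ (j + 1)) atTop atTop :=
    (tendsto_pow_atTop_atTop_of_one_lt (one_lt_two : 1 < (2 : ℕ))).comp (tendsto_add_atTop_nat 1)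
  refine hw.frequently (Eventually.frequently ?_)
  filter_upwards [hw.eventually (ratio z hz c hc1 b hOK c₂ hc0 hc _ hd), hw.eventually (log_top.eventually_ge_atTop 1)]
    with j h1 h2
  set n := 2 ^ (j + 1) with hn
  have hev : Even n := by
    rw [hn, pow_succ]
    exact Even.mul_left even_two _
  have hn0 : (0 : ℝ) < n := by
    have : 0 < n := by positivity
    exact_mod_cast this
  have hL : 0 < Real.log n := by linarith
  have hE : En n = 1 := by
    unfold En
    rw [hn, Nat.primeFactors_prime_pow (by omega) Nat.prime_two]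
    have : ({2} : Finset ℕ).filter (fun p => p ≠ 2) = ∅ := by decide
    rw [this, prod_empty]
  have h4 := (h1 hev).2
  have h5 : TG c₂ n = 2 * c₂ := by
    unfold TG
    rw [hE, mul_one]
  rw [h5] at h4
  have h6 : (1 + ε / (2 * c₂)) * (2 * c₂) = 2 * c₂ + ε := by field_simp
  rw [h6, div_le_iff₀ hn0] at h4
  refine ⟨hev, ?_⟩
  rw [← mul_div_assoc, le_div_iff₀ (by positivity)]
  exact h4

end

/-- the product over all odd primes up to `w` -/
noncomputable def Mx (w : ℕ) : ℝ := ∏ p ∈ (range (w + 1)).filter (fun p => p.Prime ∧ p ≠ 2), ((p : ℝ) - 1) / ((p : ℝ) - 2)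

theorem Mx_pos (w : ℕ) : 0 < Mx w := by
  unfold Mx
  refine prod_pos fun p hp => ?_
  rw [mem_filter] at hp
  linarith [fac_ge p hp.2.1 hp.2.2]

theorem V_eq (w : ℕ) (hw : 2 ≤ w) : V w = (1 / 2) * ∏ p ∈ (range (w + 1)).filter (fun p => p.Prime ∧ p ≠ 2), (1 - 1 / (p : ℝ)) := by
  unfold V
  have e1 : (range (w + 1)).filter Nat.Prime = insert 2 ((range (w + 1)).filter (fun p => p.Prime ∧ p ≠ 2)) := by
    ext p
    simp only [mem_filter, mem_insert, mem_range]
    constructor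
    · rintro ⟨h1, h2⟩
      by_cases h : p = 2
      · exact Or.inl h
      · exact Or.inr ⟨h1, h2, h⟩
    · rintro (h | ⟨h1, h2, h3⟩)
      · rw [h]
        exact ⟨by omega, Nat.prime_two⟩
      · exact ⟨h1, h2⟩
  rw [e1, prod_insert (by simp)]
  norm_num

theorem Mx_eq (w : ℕ) (hw : 2 ≤ w) : Mx w * (2 * (V w * C2 w)) = 1 := by
  rw [V_eq w hw]
  unfold Mx C2
  have e : (∏ p ∈ (range (w + 1)).filter (fun p => p.Prime ∧ p ≠ 2), ((p : ℝ) - 1) / ((p : ℝ) - 2)) *
      (2 * ((1 / 2) * (∏ p ∈ (range (w + 1)).filter (fun p => p.Prime ∧ p ≠ 2), (1 - 1 / (p : ℝ))) *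
      ∏ p ∈ (range (w + 1)).filter (fun p => p.Prime ∧ p ≠ 2), (1 - 1 / ((p : ℝ) - 1) ^ 2))) =
      ∏ p ∈ (range (w + 1)).filter (fun p => p.Prime ∧ p ≠ 2), (((p : ℝ) - 1) / ((p : ℝ) - 2) * ((1 - 1 / (p : ℝ)) *
        (1 - 1 / ((p : ℝ) - 1) ^ 2))) := by
    rw [prod_mul_distrib, prod_mul_distrib]
    ring
  rw [e]
  refine prod_eq_one fun p hp => ?_
  rw [mem_filter] at hp
  have h4 : (3 : ℝ) ≤ p := by
    have := hp.2.1.two_le
    have h3 := hp.2.2
    have h5 : 3 ≤ p := by omega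
    exact_mod_cast h5
  have h5 : (p : ℝ) ≠ 0 := by linarith
  have h6 : (p : ℝ) - 1 ≠ 0 := by linarith
  have h7 : (p : ℝ) - 2 ≠ 0 := by linarith
  field_simp
  ring

theorem Ew_le (n w : ℕ) : Ew n w ≤ Mx w := by
  unfold Ew Mx
  refine prod_le_prod (fun p hp => ?_) fun p hp => ?_
  · rw [mem_filter] at hp
    split_ifs
    · linarith [fac_ge p hp.2.1 hp.2.2]
    · exact zero_le_one
  · rw [mem_filter] at hp
    split_ifs
    · exact le_rfl
    · exact fac_ge p hp.2.1 hp.2.2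

theorem En_max (n w : ℕ) (hn : n ≠ 0) (hw : 2 ≤ w) (h : ∀ p ≤ w, p.Prime → p ∣ n) : Mx w ≤ En n := by
  refine le_trans (le_of_eq ?_) (En_Ew n w hn hw).1
  unfold Ew Mx
  refine prod_congr rfl fun p hp => ?_
  rw [mem_filter, mem_range] at hp
  rw [if_pos (h p (by omega) hp.2.1)]

/-- the largest order of the prediction -/
theorem TG_up (c₂ : ℝ) (hc0 : 0 < c₂) (hc : Tendsto C2 atTop (𝓝 c₂)) (ε : ℝ) (hε : 0 < ε) :
    ∀ᶠ n : ℕ in atTop, TG c₂ n ≤ (1 / g + ε) * Real.log (Real.log n) := by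
  have hg := g_pos
  obtain ⟨K, hK1, hK⟩ : ∃ K : ℝ, 1 ≤ K ∧ Real.exp (1 / (K * Real.log 2)) * (1 / g) < 1 / g + ε := by
    have h1 : Tendsto (fun K : ℝ => Real.exp (1 / (K * Real.log 2)) * (1 / g)) atTop (𝓝 (Real.exp 0 * (1 / g))) := by
      refine Tendsto.mul_const _ ?_
      refine (Real.continuous_exp.tendsto 0).comp ?_
      refine tendsto_const_nhds.div_atTop ?_
      exact tendsto_id.atTop_mul_const (Real.log_pos one_lt_two)
    rw [Real.exp_zero, one_mul] at h1
    obtain ⟨K, h2, h3⟩ := ((h1.eventually_lt_const (show 1 / g < 1 / g + ε by linarith)).and (eventually_ge_atTop 1)).exists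
    exact ⟨K, h3, h2⟩
  have hlim : Tendsto (fun n : ℕ => Real.exp (1 / (K * Real.log 2)) * (1 / (V (U K n) * Real.log (Real.log n)))) atTop
      (𝓝 (Real.exp (1 / (K * Real.log 2)) * (1 / g))) :=
    (tendsto_const_nhds.div (V_U K hK1) hg.ne').const_mul _
  have hll : Tendsto (fun n : ℕ => Real.log (Real.log n)) atTop atTop := Real.tendsto_log_atTop.comp log_top
  filter_upwards [hlim.eventually_lt_const hK, log_top.eventually_ge_atTop 1, hll.eventually_ge_atTop 1,
    eventually_ge_atTop 1] with n h1 h2 h3 h4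
  have hU2 : 2 ≤ U K n := by
    unfold U
    omega
  have hUK : K * Real.log n ≤ (U K n : ℝ) - 1 := by
    unfold U
    push_cast
    have := Nat.lt_floor_add_one (K * Real.log n)
    linarith
  have h5 := (En_Ew n (U K n) (by omega) hU2).2
  have h6 := Ew_le n (U K n)
  have h7 := Mx_eq (U K n) hU2
  have h8 := C2_le c₂ hc (U K n)
  have hV := V_pos (U K n)
  have hC := C2_pos (U K n)
  have hM := Mx_pos (U K n)
  have hl2 : 0 < Real.log 2 := Real.log_pos one_lt_two
  have hKL : 0 < K * Real.log n := by nlinarith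
  have h9 : Real.exp ((Real.log n / Real.log 2) / ((U K n : ℝ) - 1)) ≤ Real.exp (1 / (K * Real.log 2)) := by
    rw [Real.exp_le_exp, div_div, div_le_div_iff₀ (by nlinarith) (by positivity)]
    have : Real.log n * (K * Real.log 2) = Real.log 2 * (K * Real.log n) := by ring
    rw [this, one_mul]
    exact mul_le_mul_of_nonneg_left hUK hl2.le
  have h10 : c₂ * Mx (U K n) * 2 ≤ 1 / V (U K n) := by
    rw [le_div_iff₀ hV, ← h7]
    have h11 : c₂ * Mx (U K n) * 2 * V (U K n) ≤ C2 (U K n) * Mx (U K n) * 2 * V (U K n) := by gcongr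
    linarith
  calc TG c₂ n = 2 * c₂ * En n := rfl
    _ ≤ 2 * c₂ * (Mx (U K n) * Real.exp (1 / (K * Real.log 2))) := by
        have : En n ≤ Mx (U K n) * Real.exp (1 / (K * Real.log 2)) := h5.trans (by gcongr)
        gcongr
    _ = Real.exp (1 / (K * Real.log 2)) * (c₂ * Mx (U K n) * 2) := by ring
    _ ≤ Real.exp (1 / (K * Real.log 2)) * (1 / V (U K n)) := by gcongr
    _ = (Real.exp (1 / (K * Real.log 2)) * (1 / (V (U K n) * Real.log (Real.log n)))) * Real.log (Real.log n) := by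
        field_simp
    _ ≤ (1 / g + ε) * Real.log (Real.log n) := by gcongr

/-- the largest order is attained -/
theorem TG_seq (c₂ : ℝ) (hc0 : 0 < c₂) (hc : Tendsto C2 atTop (𝓝 c₂)) :
    ∃ w : ℕ → ℕ, Tendsto w atTop atTop ∧ (∀ᶠ y in atTop, Even (w y)) ∧
      ∀ ε : ℝ, 0 < ε → ∀ᶠ y : ℕ in atTop, (1 / g - ε) * Real.log (Real.log (w y)) ≤ TG c₂ (w y) := by
  have hg := g_pos
  choose w hw1 hw2 hw3 using fun y => crt (fun _ => 0) y
  have hlog1 : ∀ y : ℕ, (y : ℝ) ≤ Real.log (w y) := by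
    intro y
    have h2 : ((4 : ℝ) ^ y) ≤ w y := by exact_mod_cast hw1 y
    have h3 : Real.log ((4 : ℝ) ^ y) ≤ Real.log (w y) := Real.log_le_log (by positivity) h2
    rw [Real.log_pow] at h3
    have h4 : 1 ≤ Real.log 4 := by
      rw [Real.le_log_iff_exp_le (by norm_num)]
      have := Real.exp_one_lt_d9
      linarith
    have h5 : (0 : ℝ) ≤ y := Nat.cast_nonneg _
    nlinarith
  have hlog2 : ∀ y : ℕ, 1 ≤ y → Real.log (w y) ≤ 4 * y := by
    intro y hy
    have h2 : (w y : ℝ) ≤ 2 * (4 : ℝ) ^ y := by exact_mod_cast hw2 y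
    have hwpos : 0 < w y := lt_of_lt_of_le (by positivity) (hw1 y)
    have h3 : Real.log (w y) ≤ Real.log (2 * (4 : ℝ) ^ y) := Real.log_le_log (by exact_mod_cast hwpos) h2
    rw [Real.log_mul (by norm_num) (by positivity), Real.log_pow] at h3
    have h5 : (1 : ℝ) ≤ y := by exact_mod_cast hy
    have h6 : Real.log 4 = 2 * Real.log 2 := by
      rw [show (4 : ℝ) = 2 ^ 2 by norm_num, Real.log_pow]
      norm_num
    have h7 := Real.log_two_lt_d9
    have h8 : 0 < Real.log 2 := Real.log_pos (by norm_num)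
    rw [h6] at h3
    nlinarith
  have hlim : Tendsto (fun y => V y * Real.log (Real.log (w y))) atTop (𝓝 g) := by
    refine shift (fun y => y) tendsto_id _ (Real.log 4) ?_
    filter_upwards [eventually_ge_atTop 1] with y hy
    have hy0 : (1 : ℝ) ≤ y := by exact_mod_cast hy
    have h1 := hlog1 y
    have h2 := hlog2 y hy
    have h3 : Real.log y ≤ Real.log (Real.log (w y)) := Real.log_le_log (by linarith) h1
    have h4 : Real.log (Real.log (w y)) ≤ Real.log 4 + Real.log y := by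
      rw [← Real.log_mul (by norm_num) (by positivity)]
      exact Real.log_le_log (by linarith) h2
    rw [abs_sub_comm, abs_of_nonneg (by linarith)]
    linarith
  have hwt : Tendsto w atTop atTop := by
    refine tendsto_atTop_mono (fun y => (?_ : y ≤ w y)) tendsto_id
    exact (Nat.lt_pow_self (by norm_num)).le.trans (hw1 y)
  have hdiv : ∀ y, ∀ p ≤ y, p.Prime → p ∣ w y := by
    intro y p hp hpp
    have := hw3 y p hp hpp
    rw [Nat.zero_mod] at this
    exact Nat.dvd_of_mod_eq_zero this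
  refine ⟨w, hwt, ?_, fun ε hε => ?_⟩
  · filter_upwards [eventually_ge_atTop 2] with y hy
    exact (hdiv y 2 hy Nat.prime_two).even even_two
  have hl : Tendsto (fun y => (c₂ / C2 y) * (1 / (V y * Real.log (Real.log (w y))))) atTop (𝓝 ((c₂ / c₂) * (1 / g))) :=
    (tendsto_const_nhds.div hc hc0.ne').mul (tendsto_const_nhds.div hlim hg.ne')
  rw [div_self hc0.ne', one_mul] at hl
  have hll : Tendsto (fun n : ℕ => Real.log (Real.log n)) atTop atTop := Real.tendsto_log_atTop.comp log_top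
  filter_upwards [hl.eventually_const_lt (show 1 / g - ε < 1 / g by linarith), (hll.comp hwt).eventually_ge_atTop 1,
    hwt.eventually_ge_atTop 1, eventually_ge_atTop 2] with y h1 h2 h3 h4
  simp only [Function.comp_apply] at h2
  have hV := V_pos y
  have hC := C2_pos y
  have hM := Mx_eq y h4
  have h5 := En_max (w y) y (by omega) h4 (hdiv y)
  calc (1 / g - ε) * Real.log (Real.log (w y)) ≤ ((c₂ / C2 y) * (1 / (V y * Real.log (Real.log (w y))))) *
        Real.log (Real.log (w y)) := by gcongr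
    _ = (c₂ / C2 y) * (1 / V y) := by field_simp
    _ = 2 * c₂ * Mx y := by
        have : Mx y = 1 / (2 * (V y * C2 y)) := by
          rw [eq_div_iff (by positivity)]
          exact hM
        rw [this]
        field_simp
    _ ≤ 2 * c₂ * En (w y) := by gcongr

section
variable (z : ℕ → ℕ) (hz : Limit z) (c : ℝ) (hc1 : 1 < c) (b : ℕ → ℕ) (hOK : OK z (WW c) b) (c₂ : ℝ) (hc0 : 0 < c₂)
  (hc : Tendsto C2 atTop (𝓝 c₂))
include hz hc1 hOK hc0 hc

theorem gold_up (ε : ℝ) (hε : 0 < ε) : ∀ᶠ n : ℕ in atTop, Even n →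
    (gR (RS z (WW c) b) n : ℝ) ≤ (1 / g + ε) * (n * Real.log (Real.log n) / Real.log n ^ 2) := by
  have hg := g_pos
  set δ : ℝ := min 1 (ε / (2 * (1 / g + ε / 2))) with hδ
  have hd : 0 < δ := lt_min one_pos (by positivity)
  have hll : Tendsto (fun n : ℕ => Real.log (Real.log n)) atTop atTop := Real.tendsto_log_atTop.comp log_top
  have hkey : (1 + δ) * (1 / g + ε / 2) ≤ 1 / g + ε := by
    have h1 : δ * (1 / g + ε / 2) ≤ ε / (2 * (1 / g + ε / 2)) * (1 / g + ε / 2) :=
      mul_le_mul_of_nonneg_right (min_le_right _ _) (by positivity)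
    have h2 : ε / (2 * (1 / g + ε / 2)) * (1 / g + ε / 2) = ε / 2 := by
      have : (1 / g + ε / 2) ≠ 0 := by positivity
      field_simp
    linarith
  filter_upwards [ratio z hz c hc1 b hOK c₂ hc0 hc δ hd, TG_up c₂ hc0 hc (ε / 2) (by positivity),
    log_top.eventually_ge_atTop 1, hll.eventually_ge_atTop 1, eventually_ge_atTop 1] with n h1 h2 h3 h4 h5 hn
  have hn0 : (0 : ℝ) < n := by exact_mod_cast h5
  have hL : 0 < Real.log n := by linarith
  have h6 := (h1 hn).2
  rw [div_le_iff₀ hn0] at h6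
  have h7 : (1 + δ) * TG c₂ n ≤ (1 / g + ε) * Real.log (Real.log n) := by
    calc (1 + δ) * TG c₂ n ≤ (1 + δ) * ((1 / g + ε / 2) * Real.log (Real.log n)) := by gcongr
      _ = ((1 + δ) * (1 / g + ε / 2)) * Real.log (Real.log n) := by ring
      _ ≤ (1 / g + ε) * Real.log (Real.log n) := by gcongr
  rw [← mul_div_assoc, le_div_iff₀ (by positivity)]
  refine h6.trans ?_
  have := mul_le_mul_of_nonneg_right h7 hn0.le
  linarith

theorem gold_up_sharp (ε : ℝ) (hε : 0 < ε) : ∃ᶠ n : ℕ in atTop, Even n ∧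
    (1 / g - ε) * (n * Real.log (Real.log n) / Real.log n ^ 2) ≤ gR (RS z (WW c) b) n := by
  have hg := g_pos
  obtain ⟨w, hw1, hw2, hw3⟩ := TG_seq c₂ hc0 hc
  set δ : ℝ := min 1 (ε * g / 2) with hδ
  have hd : 0 < δ := lt_min one_pos (by positivity)
  have hd1 : δ ≤ 1 := min_le_left _ _
  have hll : Tendsto (fun n : ℕ => Real.log (Real.log n)) atTop atTop := Real.tendsto_log_atTop.comp log_top
  have hkey : 1 / g - ε ≤ (1 - δ) * (1 / g - ε / 2) := by
    have h1 : δ * (1 / g) ≤ ε / 2 := by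
      have h2 : δ * (1 / g) ≤ (ε * g / 2) * (1 / g) := mul_le_mul_of_nonneg_right (min_le_right _ _) (by positivity)
      have h3 : (ε * g / 2) * (1 / g) = ε / 2 := by field_simp
      linarith
    have h4 : (1 - δ) * (1 / g - ε / 2) = 1 / g - ε / 2 - δ * (1 / g) + δ * (ε / 2) := by ring
    rw [h4]
    have : 0 ≤ δ * (ε / 2) := by positivity
    linarith
  refine hw1.frequently (Eventually.frequently ?_)
  filter_upwards [hw1.eventually (ratio z hz c hc1 b hOK c₂ hc0 hc δ hd), hw3 (ε / 2) (by positivity), hw2,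
    hw1.eventually (log_top.eventually_ge_atTop 1), hw1.eventually (hll.eventually_ge_atTop 1),
    hw1.eventually_ge_atTop 1] with y h1 h2 h3 h4 h5 h6
  set n := w y with hn
  have hn0 : (0 : ℝ) < n := by exact_mod_cast h6
  have hL : 0 < Real.log n := by linarith
  have h7 := (h1 h3).1
  rw [le_div_iff₀ hn0] at h7
  have h8 : (1 / g - ε) * Real.log (Real.log n) ≤ (1 - δ) * TG c₂ n := by
    calc (1 / g - ε) * Real.log (Real.log n) ≤ ((1 - δ) * (1 / g - ε / 2)) * Real.log (Real.log n) := by gcongr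
      _ = (1 - δ) * ((1 / g - ε / 2) * Real.log (Real.log n)) := by ring
      _ ≤ (1 - δ) * TG c₂ n := mul_le_mul_of_nonneg_left h2 (by linarith)
  refine ⟨h3, ?_⟩
  rw [← mul_div_assoc, div_le_iff₀ (by positivity)]
  refine le_trans ?_ h7
  have := mul_le_mul_of_nonneg_right h8 hn0.le
  linarith

end

end Pool.Agent.H559.HY
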