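import Pool.Agent.H559.HY.BH

set_option autoImplicit false

/-! # Binary systems: all values of the size of `m`, `n - m` or `n` -/

open Finset MeasureTheory ProbabilityTheory Filter Topology
open Pool.Agent.T2H32.BF (Model prob V V_pos V_anti V_ratio recip_le mertens)
open Pool.Agent.H559.BS (Limit TT TT_le TT_ge TT_top log_TT V_TT log_pow_le log_top g g_pos z_div)

namespace Pool.Agent.H559.HY

variable {k D : ℕ}

theorem z_two (z : ℕ → ℕ) (hz : Limit z) : Tendsto (fun n : ℕ => V (z (2 * n)) * Real.log n) atTop (𝓝 1) := by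
  have h := log_lin (fun n => 2 * n) 1 one_pos z hz (mul_lim 2 (by norm_num)).1 (mul_lim 2 (by norm_num)).2
  simpa using h

theorem algL2 (e y V2 S x L : ℝ) (k : ℕ) (hx : 0 < x) (hL : 0 < L) :
    (e * (y * (S * V2 ^ k)) - x / L ^ (k + 1)) * L ^ k / x = (e * ((y / x) * (V2 * L) ^ k)) * S - 1 / L := by
  have h1 : x / L ^ (k + 1) * L ^ k / x = 1 / L := by
    rw [pow_succ]
    field_simp
  rw [sub_mul, sub_div, h1, mul_pow]
  congr 1
  field_simp

theorem algU2 (s e q VT VJ S x L : ℝ) (k : ℕ) (hx : 0 < x) (hL : 0 < L) :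
    (2 * s + 2 * (e * (q * (S * VT ^ k)) + x / L ^ (k + 1)) + (e * (x * (S * VJ ^ k)) + x / L ^ (k + 1))) * L ^ k / x =
      (e * (2 * (q / x) * (VT * L) ^ k + (VJ * L) ^ k)) * S + (2 * (s * L ^ k / x) + 3 * (1 / L)) := by
  have h1 : x / L ^ (k + 1) * L ^ k / x = 1 / L := by
    rw [pow_succ]
    field_simp
  rw [← h1, mul_pow, mul_pow]
  field_simp
  ring

theorem sqrt_le_div (x J : ℕ) (hJ : 1 ≤ J) (hx : J ^ 2 ≤ x) : Nat.sqrt x ≤ x / J := by
  have hs1 : Nat.sqrt x * Nat.sqrt x ≤ x := Nat.sqrt_le x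
  rw [Nat.le_div_iff_mul_le (by omega)]
  have hJs : J ≤ Nat.sqrt x := Nat.le_sqrt'.2 hx
  calc Nat.sqrt x * J ≤ Nat.sqrt x * Nat.sqrt x := Nat.mul_le_mul_left _ hJs
    _ ≤ x := hs1

/-- **The asymptotic formula for the systems which depend on `n`.** -/
theorem lin (z : ℕ → ℕ) (hz : Limit z) (W : ℕ → ℕ) (b : ℕ → ℕ) (hOK : OK z W b) (C : ℕ → Arr k D) (P0 : ℕ)
    (hgood : ∀ n p, p.Prime → P0 < p → Good (C n) p) (hbox : ∀ᶠ n : ℕ in atTop, C n ∈ box k D (n ^ 2))
    (hval : ∀ᶠ n : ℕ in atTop, ∀ m : ℕ, Nat.sqrt n < m → m + Nat.sqrt n ≤ n → ∀ i,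
      ((min m (n - m) : ℕ) : ℤ) ≤ 2 * evl (C n i) m ∧ evl (C n i) m ≤ ((2 * n : ℕ) : ℤ)) (δ : ℝ) (hδ : 0 < δ) :
    ∀ᶠ n : ℕ in atTop, (1 - δ) * Sg (C n) (W (TT (1 / 4) n)) - δ ≤ (cnt (C n) (RS z W b) 0 n : ℝ) * Real.log n ^ k / n ∧
      (cnt (C n) (RS z W b) 0 n : ℝ) * Real.log n ^ k / n ≤ (1 + δ) * Sg (C n) (W (TT (1 / 4) n)) + δ := by
  obtain ⟨J, hJb⟩ := exists_nat_ge (max 8 ((8 * 4 ^ k + 8) / δ))
  have hJ8 : (8 : ℝ) ≤ J := (le_max_left _ _).trans hJb
  have hJ0 : (0 : ℝ) < J := by linarith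
  have hJd : 8 * 4 ^ k + 8 ≤ δ * J := by
    have h1 := (le_max_right _ _).trans hJb
    rw [div_le_iff₀ hδ] at h1
    linarith
  have hJ1 : 1 ≤ J := by
    have : (1 : ℝ) ≤ J := by linarith
    exact_mod_cast this
  obtain ⟨N, hNb⟩ := exists_nat_ge (max 8 (8 / δ))
  have hN0 : (0 : ℝ) < (N : ℝ) + 1 := by positivity
  set ε : ℝ := 1 / ((N : ℝ) + 1) with hε
  have hε0 : 0 < ε := by positivity
  have hε1 : ε ≤ 1 / 8 := by
    rw [hε]
    have : (8 : ℝ) ≤ N := (le_max_left _ _).trans hNb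
    exact one_div_le_one_div_of_le (by norm_num) (by linarith)
  have hεδ : ε ≤ δ / 8 := by
    have h1 : 8 / δ ≤ (N : ℝ) + 1 := ((le_max_right _ _).trans hNb).trans (by linarith)
    rw [hε, div_le_iff₀ hN0]
    rw [div_le_iff₀ hδ] at h1
    linarith
  -- the limits
  have hql : Tendsto (fun n : ℕ => ((n / J : ℕ) : ℝ) / n) atTop (𝓝 (1 / J)) := by
    have h1 : Tendsto (fun n : ℕ => 1 / (J : ℝ) - 1 / (n : ℝ)) atTop (𝓝 (1 / J - 0)) :=
      tendsto_const_nhds.sub (tendsto_one_div_atTop_nhds_zero_nat)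
    rw [sub_zero] at h1
    refine tendsto_of_tendsto_of_tendsto_of_le_of_le' h1 tendsto_const_nhds ?_ ?_
    · filter_upwards [eventually_ge_atTop 1] with n hn
      have hn0 : (0 : ℝ) < n := by exact_mod_cast hn
      have h2 : (n : ℝ) / J - 1 ≤ ((n / J : ℕ) : ℝ) := by
        have h3 : n < J * (n / J) + J := by
          have h7 := Nat.div_add_mod n J
          have h8 := Nat.mod_lt n (show 0 < J by omega)
          omega
        have h4 : (n : ℝ) ≤ J * ((n / J : ℕ) : ℝ) + J := by exact_mod_cast h3.le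
        rw [sub_le_iff_le_add, div_le_iff₀ hJ0]
        linarith
      rw [le_div_iff₀ hn0]
      have : (1 / (J : ℝ) - 1 / n) * n = n / J - 1 := by field_simp
      rw [this]
      exact h2
    · filter_upwards [eventually_ge_atTop 1] with n hn
      have hn0 : (0 : ℝ) < n := by exact_mod_cast hn
      rw [div_le_iff₀ hn0]
      calc ((n / J : ℕ) : ℝ) ≤ (n : ℝ) / J := Nat.cast_div_le
        _ = 1 / J * n := by ring
  have hVT := z_TT_lim z hz (1 / 4) (by norm_num)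
  have hV2 := z_two z hz
  have hVJ := z_div z hz (2 * J) (by omega)
  have hinv : Tendsto (fun n : ℕ => 1 / Real.log n) atTop (𝓝 0) := tendsto_const_nhds.div_atTop log_top
  have hL : Tendsto (fun n : ℕ => (1 - ε) * ((1 - 2 * (((n / J : ℕ) : ℝ) / n)) * (V (z (2 * n)) * Real.log n) ^ k)) atTop
      (𝓝 ((1 - ε) * ((1 - 2 * (1 / J)) * 1 ^ k))) :=
    ((tendsto_const_nhds.sub (hql.const_mul 2)).mul (hV2.pow k)).const_mul _
  have hU : Tendsto (fun n : ℕ => (1 + ε) * (2 * (((n / J : ℕ) : ℝ) / n) * (V (z (TT (1 / 4) n)) * Real.log n) ^ k +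
      (V (z (n / (2 * J))) * Real.log n) ^ k)) atTop (𝓝 ((1 + ε) * (2 * (1 / J) * (1 / (1 / 4)) ^ k + 1 ^ k))) :=
    (((hql.const_mul 2).mul (hVT.pow k)).add (hVJ.pow k)).const_mul _
  have hR : Tendsto (fun n : ℕ => 2 * (√(n : ℝ) * Real.log n ^ k / n) + 3 * (1 / Real.log n)) atTop (𝓝 (2 * 0 + 3 * 0)) :=
    ((sqrt_lim k).const_mul 2).add (hinv.const_mul 3)
  have hLlt : 1 - δ < (1 - ε) * ((1 - 2 * (1 / J)) * 1 ^ k) := by
    rw [one_pow, mul_one]
    have h1 : 1 / (J : ℝ) ≤ δ / 8 := by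
      rw [div_le_iff₀ hJ0]
      have : (0 : ℝ) ≤ 4 ^ k := by positivity
      linarith
    have h2 : (1 - ε) * (1 - 2 * (1 / (J : ℝ))) = 1 - ε - 2 * (1 / J) + 2 * (ε * (1 / J)) := by ring
    rw [h2]
    have h3 : 0 ≤ ε * (1 / (J : ℝ)) := by positivity
    linarith
  have hUlt : (1 + ε) * (2 * (1 / J) * (1 / (1 / 4)) ^ k + 1 ^ k) < 1 + δ := by
    rw [one_pow]
    have h0 : (1 : ℝ) / (1 / 4) = 4 := by norm_num
    rw [h0]
    have h1 : 1 / (J : ℝ) * 4 ^ k ≤ δ / 8 := by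
      rw [one_div_mul_eq_div, div_le_iff₀ hJ0]
      linarith
    have h2 : (1 + ε) * (2 * (1 / (J : ℝ)) * 4 ^ k + 1) = 1 + ε + 2 * (1 / J * 4 ^ k) + 2 * (ε * (1 / J * 4 ^ k)) := by ring
    rw [h2]
    have h3 : ε * (1 / (J : ℝ) * 4 ^ k) ≤ (1 / 8) * (δ / 8) := by gcongr
    linarith
  have hT : ∀ᶠ x : ℕ in atTop, 2 * (TT (1 / 4) x : ℝ) ≤ √x - 2 := by
    have h1 : Tendsto (fun n : ℕ => (n : ℝ) ^ (1 / 4 : ℝ)) atTop atTop :=
      (tendsto_rpow_atTop (by norm_num)).comp tendsto_natCast_atTop_atTop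
    filter_upwards [h1.eventually_ge_atTop 4, eventually_ge_atTop 1] with x hx hx1
    have hx0 : (0 : ℝ) < x := by exact_mod_cast hx1
    have h3 := TT_le (1 / 4) x
    have h2 : √(x : ℝ) = (x : ℝ) ^ (1 / 4 : ℝ) * (x : ℝ) ^ (1 / 4 : ℝ) := by
      rw [← Real.rpow_add hx0, Real.sqrt_eq_rpow]
      norm_num
    rw [h2]
    nlinarith
  filter_upwards [hbox, hval, hOK k D 2 P0 (k + 1) N (by norm_num), hL.eventually_const_lt hLlt,
    hU.eventually_lt_const hUlt, hR.eventually_lt_const (show 2 * 0 + 3 * 0 < δ by linarith),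
    hinv.eventually_lt_const hδ, log_top.eventually_ge_atTop 1, hT, eventually_ge_atTop ((4 * J) ^ 2 + 16)]
    with n b1 b2 b3 b4 b5 b6 b7 b8 b9 b10
  set L := Real.log n with hLdef
  have hL0 : 0 < L := by linarith
  have hn1 : 1 ≤ n := by omega
  have hn0 : (0 : ℝ) < n := by exact_mod_cast hn1
  set S := Sg (C n) (W (TT (1 / 4) n)) with hS
  have hS0 : 0 ≤ S := Sg_nonneg _ _
  have hLk : 0 < L ^ k := pow_pos hL0 k
  set q := n / J with hq
  set s := Nat.sqrt n with hs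
  have hJJ : J ^ 2 ≤ n := by nlinarith
  have hsq : s ≤ q := sqrt_le_div n J hJ1 hJJ
  have hqn : 2 * q ≤ n := by
    have h8 : 8 ≤ J := by exact_mod_cast hJ8
    have h1 : J * q ≤ n := Nat.mul_div_le n J
    have h2 : 8 * q ≤ J * q := Nat.mul_le_mul_right _ h8
    omega
  -- the middle
  have hTs : 2 * TT (1 / 4) n ≤ s := by
    have h1 : √(n : ℝ) ≤ s + 1 := by
      rw [Real.sqrt_le_left (by positivity)]
      have := Nat.lt_succ_sqrt' n
      exact_mod_cast this.le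
    have h2 : ((2 * TT (1 / 4) n : ℕ) : ℝ) ≤ (s : ℝ) := by
      push_cast
      linarith
    exact_mod_cast h2
  have hTq : TT (1 / 4) n ≤ n / (2 * J) := by
    have h1 : n / (2 * J) = q / 2 := by rw [hq, Nat.div_div_eq_div_mul, mul_comm]
    rw [h1]
    omega
  have hn2 : 2 * n ≤ n ^ 2 := by nlinarith
  have hTn : TT (1 / 4) n ≤ n ^ 2 := by
    have : n / (2 * J) ≤ n := Nat.div_le_self _ _
    omega
  have c1 := b3 (C n) b1 (hgood n) q (n - 2 * q) (fun _ => n / (2 * J)) (fun _ => 2 * n) (Nat.div_le_self _ _)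
    (Nat.sub_le _ _) (fun _ => hTq) (fun _ => hn2) (by
      intro m hm i
      rw [mem_Ioc] at hm
      obtain ⟨h1, h2⟩ := b2 m (by omega) (by omega) i
      refine ⟨?_, h2⟩
      have h3 : q ≤ min m (n - m) := by
        rw [le_min_iff]
        omega
      have h4 : n / (2 * J) = q / 2 := by rw [hq, Nat.div_div_eq_div_mul, mul_comm]
      have h5 : ((2 * (n / (2 * J)) : ℕ) : ℤ) ≤ 2 * evl (C n i) m := by
        refine le_trans ?_ h1
        exact_mod_cast (show 2 * (n / (2 * J)) ≤ min m (n - m) by omega)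
      push_cast at h5 ⊢
      omega)
  have cedge : ∀ k0 : ℕ, s ≤ k0 → k0 + (q - s) + s ≤ n → (cnt (C n) (RS z W b) k0 (q - s) : ℝ) ≤
      (1 + ε) * (q * (S * V (z (TT (1 / 4) n)) ^ k)) + n / L ^ (k + 1) := by
    intro k0 hk1 hk2
    have c := (b3 (C n) b1 (hgood n) k0 (q - s) (fun _ => TT (1 / 4) n) (fun _ => 2 * n) (by omega)
      (by omega) (fun _ => le_rfl) (fun _ => hn2) (by
        intro m hm i
        rw [mem_Ioc] at hm
        obtain ⟨h1, h2⟩ := b2 m (by omega) (by omega) i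
        refine ⟨?_, h2⟩
        have h3 : s ≤ min m (n - m) := by
          rw [le_min_iff]
          omega
        have h5 : ((2 * TT (1 / 4) n : ℕ) : ℤ) ≤ 2 * evl (C n i) m := by
          refine le_trans ?_ h1
          exact_mod_cast hTs.trans h3
        push_cast at h5 ⊢
        omega)).2
    simp only [prod_const, card_univ, Fintype.card_fin] at c
    refine c.trans ?_
    have h6 : ((q - s : ℕ) : ℝ) ≤ q := by exact_mod_cast Nat.sub_le _ _
    have h7 : 0 ≤ S * V (z (TT (1 / 4) n)) ^ k := mul_nonneg hS0 (pow_nonneg (V_pos _).le _)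
    gcongr
  have hsplit : cnt (C n) (RS z W b) 0 n = cnt (C n) (RS z W b) 0 s + cnt (C n) (RS z W b) s (q - s) +
      cnt (C n) (RS z W b) q (n - 2 * q) + cnt (C n) (RS z W b) (n - q) (q - s) + cnt (C n) (RS z W b) (n - s) s := by
    have e1 : s + ((q - s) + ((n - 2 * q) + ((q - s) + s))) = n := by omega
    have e0 : cnt (C n) (RS z W b) 0 n = cnt (C n) (RS z W b) 0 (s + ((q - s) + ((n - 2 * q) + ((q - s) + s)))) := by
      rw [e1]
    rw [e0, cnt_add, cnt_add, cnt_add, cnt_add]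
    have e2 : 0 + s = s := by omega
    have e3 : s + (q - s) = q := by omega
    have e4 : q + (n - 2 * q) = n - q := by omega
    have e5 : n - q + (q - s) = n - s := by omega
    rw [e2, e3, e4, e5]
    ring
  simp only [prod_const, card_univ, Fintype.card_fin] at c1
  constructor
  · have e1 : (cnt (C n) (RS z W b) q (n - 2 * q) : ℝ) ≤ cnt (C n) (RS z W b) 0 n := by
      rw [hsplit]
      push_cast
      have h1 : (0 : ℝ) ≤ cnt (C n) (RS z W b) 0 s := Nat.cast_nonneg _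
      have h2 : (0 : ℝ) ≤ cnt (C n) (RS z W b) s (q - s) := Nat.cast_nonneg _
      have h3 : (0 : ℝ) ≤ cnt (C n) (RS z W b) (n - q) (q - s) := Nat.cast_nonneg _
      have h4 : (0 : ℝ) ≤ cnt (C n) (RS z W b) (n - s) s := Nat.cast_nonneg _
      linarith
    have e2 := c1.1.trans e1
    have e3 := div_le_div_of_nonneg_right (mul_le_mul_of_nonneg_right e2 hLk.le) hn0.le
    rw [algL2 _ _ _ _ _ _ _ hn0 hL0] at e3
    refine le_trans ?_ e3
    have e4 : ((n - 2 * q : ℕ) : ℝ) / n = 1 - 2 * ((q : ℝ) / n) := by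
      rw [Nat.cast_sub hqn]
      push_cast
      field_simp
    rw [e4]
    have e5 := mul_le_mul_of_nonneg_right b4.le hS0
    linarith
  · have e0 : ∀ k0, (cnt (C n) (RS z W b) k0 s : ℝ) ≤ √n := by
      intro k0
      have h5 : (cnt (C n) (RS z W b) k0 s : ℝ) ≤ (s : ℝ) := by exact_mod_cast cnt_le _ _ _ _
      refine h5.trans ?_
      rw [← Real.sqrt_sq (Nat.cast_nonneg s)]
      exact Real.sqrt_le_sqrt (by exact_mod_cast Nat.sqrt_le' n)
    have e1 := cedge s le_rfl (by omega)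
    have e2 := cedge (n - q) (by omega) (by omega)
    have e3 : ((n - 2 * q : ℕ) : ℝ) ≤ n := by exact_mod_cast Nat.sub_le _ _
    have e4 : (cnt (C n) (RS z W b) q (n - 2 * q) : ℝ) ≤ (1 + ε) * (n * (S * V (z (n / (2 * J))) ^ k)) + n / L ^ (k + 1) := by
      refine c1.2.trans ?_
      have h7 : 0 ≤ S * V (z (n / (2 * J))) ^ k := mul_nonneg hS0 (pow_nonneg (V_pos _).le _)
      gcongr
    have e5 : (cnt (C n) (RS z W b) 0 n : ℝ) ≤ 2 * √n + 2 * ((1 + ε) * (q * (S * V (z (TT (1 / 4) n)) ^ k)) + n / L ^ (k + 1)) +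
        ((1 + ε) * (n * (S * V (z (n / (2 * J))) ^ k)) + n / L ^ (k + 1)) := by
      rw [hsplit]
      push_cast
      have h1 := e0 0
      have h2 := e0 (n - s)
      linarith
    have e6 := div_le_div_of_nonneg_right (mul_le_mul_of_nonneg_right e5 hLk.le) hn0.le
    rw [algU2 _ _ _ _ _ _ _ _ _ hn0 hL0] at e6
    refine e6.trans ?_
    have e7 := mul_le_mul_of_nonneg_right b5.le hS0
    linarith

end Pool.Agent.H559.HY
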