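import Pool.Agent.H559.HY.Conc
import Pool.Graph.R_pool_sql_team_seeded_707910d6.T2H32.GB.FLg

set_option autoImplicit false

/-! # Values of systems of polynomials modulo primes -/

open Finset

namespace Pool.Agent.H559.HY

/-- the coefficients of `k` polynomials of degree at most `D` -/
abbrev Arr (k D : ℕ) := Fin k → Fin (D + 1) → ℤ

/-- the value of a polynomial -/
def evl {D : ℕ} (g : Fin (D + 1) → ℤ) (m : ℕ) : ℤ := ∑ j, g j * (m : ℤ) ^ (j : ℕ)

/-- the class of the value modulo `p` -/
def cls {k D : ℕ} (C : Arr k D) (i : Fin k) (p m : ℕ) : ℕ := (evl (C i) m % (p : ℤ)).toNat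

variable {k D : ℕ}

theorem evl_mod (g : Fin (D + 1) → ℤ) (p m : ℕ) : evl g m % (p : ℤ) = evl g (m % p) % (p : ℤ) := by
  have h : evl g m ≡ evl g (m % p) [ZMOD p] := by
    unfold evl
    refine Int.ModEq.sum fun j _ => ?_
    refine Int.ModEq.mul_left _ (Int.ModEq.pow _ ?_)
    unfold Int.ModEq
    push_cast
    exact (Int.emod_emod_of_dvd _ dvd_rfl).symm
  exact h

theorem cls_mod (C : Arr k D) (i : Fin k) (p m : ℕ) : cls C i p m = cls C i p (m % p) := by
  unfold cls
  rw [evl_mod]

theorem cls_lt (C : Arr k D) (i : Fin k) (p m : ℕ) (hp : 0 < p) : cls C i p m < p := by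
  unfold cls
  have h1 : (0 : ℤ) < p := by exact_mod_cast hp
  have h2 := Int.emod_lt_of_pos (evl (C i) m) h1
  have h3 := Int.emod_nonneg (evl (C i) m) h1.ne'
  omega

theorem cls_eq_iff (C : Arr k D) (i : Fin k) (p m c : ℕ) (hp : 0 < p) (hc : c < p) :
    cls C i p m = c ↔ (p : ℤ) ∣ evl (C i) m - c := by
  unfold cls
  have h1 : (0 : ℤ) < p := by exact_mod_cast hp
  have h3 := Int.emod_nonneg (evl (C i) m) h1.ne'
  have h4 : ((c : ℤ)) % (p : ℤ) = c := Int.emod_eq_of_lt (by positivity) (by exact_mod_cast hc)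
  constructor
  · intro h
    have h5 : (c : ℤ) % (p : ℤ) = evl (C i) m % (p : ℤ) := by omega
    exact (Int.modEq_iff_dvd).1 h5
  · intro h
    have h5 : (c : ℤ) % (p : ℤ) = evl (C i) m % (p : ℤ) := (Int.modEq_iff_dvd).2 h
    rw [← h5, h4]
    simp

theorem cls_eq_cls (C : Arr k D) (i j : Fin k) (p m : ℕ) (hp : 0 < p) :
    cls C i p m = cls C j p m ↔ (p : ℤ) ∣ evl (C i) m - evl (C j) m := by
  unfold cls
  have h1 : (0 : ℤ) < p := by exact_mod_cast hp
  have h2 := Int.emod_nonneg (evl (C i) m) h1.ne'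
  have h3 := Int.emod_nonneg (evl (C j) m) h1.ne'
  constructor
  · intro h
    have h5 : evl (C j) m % (p : ℤ) = evl (C i) m % (p : ℤ) := by omega
    exact (Int.modEq_iff_dvd).1 h5
  · intro h
    have h5 : evl (C j) m % (p : ℤ) = evl (C i) m % (p : ℤ) := (Int.modEq_iff_dvd).2 h
    rw [h5]

/-- the number of the zeros -/
theorem zero_count (g : Fin (D + 1) → ℤ) (p : ℕ) (hp : p.Prime) (hg : ∃ j, ¬ (p : ℤ) ∣ g j) :
    ((range p).filter (fun r => (p : ℤ) ∣ evl g r)).card ≤ D := by
  classical
  have := Fact.mk hp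
  obtain ⟨j0, hj0⟩ := hg
  set G : Polynomial (ZMod p) := ∑ j : Fin (D + 1), Polynomial.C ((g j : ℤ) : ZMod p) * Polynomial.X ^ (j : ℕ) with hG
  have hcoeff : G.coeff j0 = ((g j0 : ℤ) : ZMod p) := by
    rw [hG, Polynomial.finsetSum_coeff]
    rw [sum_eq_single j0]
    · simp
    · intro j _ hj
      rw [Polynomial.coeff_C_mul, Polynomial.coeff_X_pow, if_neg, mul_zero]
      intro h
      exact hj (Fin.ext h.symm)
    · intro h
      exact absurd (mem_univ _) h
  have hG0 : G ≠ 0 := by
    intro h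
    rw [h, Polynomial.coeff_zero] at hcoeff
    exact hj0 ((ZMod.intCast_zmod_eq_zero_iff_dvd _ _).1 hcoeff.symm)
  have hdeg : G.natDegree ≤ D := by
    rw [hG]
    refine Polynomial.natDegree_sum_le_of_forall_le _ _ fun j _ => ?_
    refine (Polynomial.natDegree_C_mul_X_pow_le _ _).trans ?_
    have := j.2
    omega
  have hev : ∀ r : ℕ, G.eval (r : ZMod p) = ((evl g r : ℤ) : ZMod p) := by
    intro r
    rw [hG, Polynomial.eval_finsetSum]
    unfold evl
    push_cast
    refine sum_congr rfl fun j _ => ?_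
    simp
  calc ((range p).filter (fun r => (p : ℤ) ∣ evl g r)).card ≤ G.roots.toFinset.card := by
        refine card_le_card_of_injOn (fun r : ℕ => (r : ZMod p)) ?_ ?_
        · intro r hr
          rw [mem_coe, mem_filter] at hr
          rw [mem_coe, Multiset.mem_toFinset, Polynomial.mem_roots hG0, Polynomial.IsRoot.def, hev,
            ZMod.intCast_zmod_eq_zero_iff_dvd]
          exact hr.2
        · intro r hr s hs hrs
          rw [mem_coe, mem_filter, mem_range] at hr hs
          have h2 := (ZMod.natCast_eq_natCast_iff' r s p).1 hrs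
          rwa [Nat.mod_eq_of_lt hr.1, Nat.mod_eq_of_lt hs.1] at h2
    _ ≤ Multiset.card G.roots := Multiset.toFinset_card_le _
    _ ≤ G.natDegree := Polynomial.card_roots' G
    _ ≤ D := hdeg

theorem evl_sub_const (g : Fin (D + 1) → ℤ) (c : ℤ) (m : ℕ) :
    evl (fun j => g j - if j = 0 then c else 0) m = evl g m - c := by
  unfold evl
  simp only [sub_mul]
  rw [sum_sub_distrib]
  congr 1
  rw [sum_eq_single 0]
  · simp
  · intro j _ hj
    rw [if_neg hj, zero_mul]
  · intro h
    exact absurd (mem_univ _) h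

theorem evl_sub (g h : Fin (D + 1) → ℤ) (m : ℕ) : evl (fun j => g j - h j) m = evl g m - evl h m := by
  unfold evl
  simp only [sub_mul]
  rw [sum_sub_distrib]

/-- good reduction at `p`: no polynomial is constant and no two are equal modulo `p` -/
def Good (C : Arr k D) (p : ℕ) : Prop :=
  (∀ i, ∃ j : Fin (D + 1), j ≠ 0 ∧ ¬ (p : ℤ) ∣ C i j) ∧ ∀ i i' : Fin k, i ≠ i' → ∃ j : Fin (D + 1), ¬ (p : ℤ) ∣ C i j - C i' j

theorem fib_le (C : Arr k D) (p : ℕ) (hp : p.Prime) (hC : Good C p) (i : Fin k) (c : ℕ) :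
    ((range p).filter (fun r => cls C i p r = c)).card ≤ D := by
  rcases lt_or_ge c p with hc | hc
  · have h1 := zero_count (fun j => C i j - if j = 0 then (c : ℤ) else 0) p hp (by
      obtain ⟨j, hj0, hj⟩ := hC.1 i
      refine ⟨j, ?_⟩
      rw [if_neg hj0, sub_zero]
      exact hj)
    refine le_trans (card_le_card ?_) h1
    intro r hr
    rw [mem_filter] at hr ⊢
    refine ⟨hr.1, ?_⟩
    rw [evl_sub_const]
    exact (cls_eq_iff C i p r c hp.pos hc).1 hr.2
  · have : (range p).filter (fun r => cls C i p r = c) = ∅ := by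
      refine filter_eq_empty_iff.2 fun r _ h => ?_
      have := cls_lt C i p r hp.pos
      omega
    rw [this]
    simp

theorem coll_le (C : Arr k D) (p : ℕ) (hp : p.Prime) (hC : Good C p) (i i' : Fin k) (hi : i ≠ i') :
    ((range p).filter (fun r => cls C i p r = cls C i' p r)).card ≤ D := by
  have h1 := zero_count (fun j => C i j - C i' j) p hp (hC.2 i i' hi)
  refine le_trans (card_le_card ?_) h1
  intro r hr
  rw [mem_filter] at hr ⊢
  refine ⟨hr.1, ?_⟩
  rw [evl_sub]
  exact (cls_eq_cls C i i' p r hp.pos).1 hr.2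

/-- the number of the elements of an interval with residue in a given set -/
theorem res_le (p : ℕ) (hp : 0 < p) (S : Finset ℕ) (k0 y : ℕ) :
    (((Ioc k0 (k0 + y)).filter (fun m => m % p ∈ S)).card : ℝ) ≤ S.card * (y / p + 1) := by
  have e : (Ioc k0 (k0 + y)).filter (fun m => m % p ∈ S) ⊆
      S.biUnion (fun s => (Ioc k0 (k0 + y)).filter (fun m => m ≡ s [MOD p])) := by
    intro m hm
    rw [mem_filter] at hm
    rw [mem_biUnion]
    exact ⟨m % p, hm.2, mem_filter.2 ⟨hm.1, (Nat.mod_modEq m p).symm⟩⟩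
  have h3 : (((Ioc k0 (k0 + y)).filter (fun m => m % p ∈ S)).card : ℝ) ≤
      ∑ s ∈ S, (((Ioc k0 (k0 + y)).filter (fun m => m ≡ s [MOD p])).card : ℝ) := by
    exact_mod_cast (card_le_card e).trans card_biUnion_le
  refine h3.trans ?_
  have h5 : ∀ s ∈ S, (((Ioc k0 (k0 + y)).filter (fun m => m ≡ s [MOD p])).card : ℝ) ≤ y / p + 1 := by
    intro s _
    have := (abs_le.1 (Pool.Agent.T2H32.GM.cls p hp s k0 y)).2
    linarith
  refine (sum_le_sum h5).trans ?_
  rw [sum_const, nsmul_eq_mul]

/-- the classes killed at `m` by the prime `p` -/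
def kl (C : Arr k D) (Z : Fin k → ℕ) (p m : ℕ) : Finset ℕ :=
  ((univ : Finset (Fin k)).filter (fun i => p ≤ Z i)).image (fun i => cls C i p m)

/-- the number of the polynomials sieved at `p` -/
def wt (Z : Fin k → ℕ) (p : ℕ) : ℕ := ((univ : Finset (Fin k)).filter (fun i => p ≤ Z i)).card

theorem wt_le (Z : Fin k → ℕ) (p : ℕ) : wt Z p ≤ k := by
  unfold wt
  refine (card_filter_le _ _).trans ?_
  simp

theorem kl_sub (C : Arr k D) (Z : Fin k → ℕ) (p m : ℕ) (hp : 0 < p) : kl C Z p m ⊆ range p := by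
  intro r hr
  unfold kl at hr
  rw [mem_image] at hr
  obtain ⟨i, _, rfl⟩ := hr
  exact mem_range.2 (cls_lt C i p m hp)

theorem kl_card (C : Arr k D) (Z : Fin k → ℕ) (p m : ℕ) : (kl C Z p m).card ≤ wt Z p := card_image_le

theorem image_ge {ι : Type*} [DecidableEq ι] (g : ι → ℕ) (s : Finset ι) :
    s.card ≤ (s.image g).card + (s.offDiag.filter (fun q => g q.1 = g q.2)).card := by
  induction s using Finset.induction_on with
  | empty => simp
  | @insert x s hx ih =>
    rw [card_insert_of_notMem hx]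
    by_cases h : g x ∈ s.image g
    · obtain ⟨b, hb, hbx⟩ := mem_image.1 h
      have h1 : (insert x s).image g = s.image g := by
        rw [image_insert, insert_eq_self.2 h]
      have h2 : insert (x, b) (s.offDiag.filter (fun q => g q.1 = g q.2)) ⊆
          ((insert x s).offDiag.filter (fun q => g q.1 = g q.2)) := by
        intro q hq
        rw [mem_insert] at hq
        rw [mem_filter, mem_offDiag]
        rcases hq with rfl | hq
        · refine ⟨⟨mem_insert_self _ _, mem_insert_of_mem hb, ?_⟩, hbx.symm⟩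
          intro h3
          have h4 : x = b := h3
          exact hx (h4 ▸ hb)
        · rw [mem_filter, mem_offDiag] at hq
          exact ⟨⟨mem_insert_of_mem hq.1.1, mem_insert_of_mem hq.1.2.1, hq.1.2.2⟩, hq.2⟩
      have h3 := card_le_card h2
      rw [card_insert_of_notMem (by
        intro h4
        rw [mem_filter, mem_offDiag] at h4
        exact hx h4.1.1)] at h3
      rw [h1]
      omega
    · have h1 : ((insert x s).image g).card = (s.image g).card + 1 := by
        rw [image_insert, card_insert_of_notMem h]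
      have h3 : (s.offDiag.filter (fun q => g q.1 = g q.2)).card ≤
          ((insert x s).offDiag.filter (fun q => g q.1 = g q.2)).card := by
        refine card_le_card (filter_subset_filter _ ?_)
        exact offDiag_mono (subset_insert _ _)
      omega

theorem offDiag_le : ((univ : Finset (Fin k)).offDiag.card : ℝ) ≤ (k : ℝ) ^ 2 := by
  rw [offDiag_card, card_univ, Fintype.card_fin, sq]
  exact_mod_cast Nat.sub_le _ _

/-- the number of the `m` killed by the class `r` -/
theorem kill_le (C : Arr k D) (Z : Fin k → ℕ) (p : ℕ) (hp : p.Prime) (hC : Good C p) (k0 y r : ℕ) (A : Finset ℕ)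
    (hA : A ⊆ Ioc k0 (k0 + y)) :
    ((A.filter (fun u => r ∈ kl C Z p u)).card : ℝ) ≤ k * D * (y / p + 1) := by
  set S : Finset ℕ := (univ : Finset (Fin k)).biUnion (fun i => (range p).filter (fun s => cls C i p s = r)) with hS
  have h1 : A.filter (fun u => r ∈ kl C Z p u) ⊆ (Ioc k0 (k0 + y)).filter (fun m => m % p ∈ S) := by
    intro u hu
    rw [mem_filter] at hu
    refine mem_filter.2 ⟨hA hu.1, ?_⟩
    have h2 := hu.2
    unfold kl at h2
    rw [mem_image] at h2
    obtain ⟨i, _, h3⟩ := h2
    rw [hS, mem_biUnion]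
    refine ⟨i, mem_univ _, mem_filter.2 ⟨mem_range.2 (Nat.mod_lt _ hp.pos), ?_⟩⟩
    rw [← h3, ← cls_mod]
  have h2 : (S.card : ℝ) ≤ k * D := by
    have : S.card ≤ ∑ i : Fin k, ((range p).filter (fun s => cls C i p s = r)).card := card_biUnion_le
    have h3 : ∑ i : Fin k, ((range p).filter (fun s => cls C i p s = r)).card ≤ ∑ _i : Fin k, D :=
      sum_le_sum fun i _ => fib_le C p hp hC i r
    rw [sum_const, card_univ, Fintype.card_fin, smul_eq_mul] at h3
    exact_mod_cast this.trans h3
  have h3 : ((A.filter (fun u => r ∈ kl C Z p u)).card : ℝ) ≤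
      (((Ioc k0 (k0 + y)).filter (fun m => m % p ∈ S)).card : ℝ) := by exact_mod_cast card_le_card h1
  refine h3.trans ((res_le p hp.pos S k0 y).trans ?_)
  have h4 : (0 : ℝ) ≤ y / p + 1 := by positivity
  exact mul_le_mul_of_nonneg_right h2 h4

/-- the total number of the collisions -/
theorem dev_le (C : Arr k D) (Z : Fin k → ℕ) (p : ℕ) (hp : p.Prime) (hC : Good C p) (k0 y : ℕ) (A : Finset ℕ)
    (hA : A ⊆ Ioc k0 (k0 + y)) :
    ∑ u ∈ A, |(wt Z p : ℝ) - (kl C Z p u).card| ≤ k ^ 2 * D * (y / p + 1) := by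
  classical
  have h1 : ∀ u ∈ A, |(wt Z p : ℝ) - (kl C Z p u).card| ≤
      ∑ q ∈ (univ : Finset (Fin k)).offDiag, if cls C q.1 p u = cls C q.2 p u then (1 : ℝ) else 0 := by
    intro u _
    have h2 := kl_card C Z p u
    have h3 : wt Z p ≤ (kl C Z p u).card +
        ((((univ : Finset (Fin k)).filter (fun i => p ≤ Z i)).offDiag).filter (fun q => cls C q.1 p u = cls C q.2 p u)).card :=
      image_ge _ _
    have h4 : ((((univ : Finset (Fin k)).filter (fun i => p ≤ Z i)).offDiag).filter
        (fun q => cls C q.1 p u = cls C q.2 p u)).card ≤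
        (((univ : Finset (Fin k)).offDiag).filter (fun q => cls C q.1 p u = cls C q.2 p u)).card :=
      card_le_card (filter_subset_filter _ (offDiag_mono (filter_subset _ _)))
    have h5 : (∑ q ∈ (univ : Finset (Fin k)).offDiag, if cls C q.1 p u = cls C q.2 p u then (1 : ℝ) else 0) =
        ((((univ : Finset (Fin k)).offDiag).filter (fun q => cls C q.1 p u = cls C q.2 p u)).card : ℝ) := by
      rw [card_filter]
      push_cast
      rfl
    rw [h5]
    have h6 : (wt Z p : ℝ) ≤ (kl C Z p u).card +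
        ((((univ : Finset (Fin k)).offDiag).filter (fun q => cls C q.1 p u = cls C q.2 p u)).card : ℝ) := by
      exact_mod_cast h3.trans (Nat.add_le_add_left h4 _)
    have h7 : ((kl C Z p u).card : ℝ) ≤ wt Z p := by exact_mod_cast h2
    rw [abs_of_nonneg (by linarith)]
    linarith
  refine (sum_le_sum h1).trans ?_
  rw [sum_comm]
  have h2 : ∀ q ∈ (univ : Finset (Fin k)).offDiag,
      (∑ u ∈ A, if cls C q.1 p u = cls C q.2 p u then (1 : ℝ) else 0) ≤ D * (y / p + 1) := by
    intro q hq
    rw [mem_offDiag] at hq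
    have h3 : (∑ u ∈ A, if cls C q.1 p u = cls C q.2 p u then (1 : ℝ) else 0) =
        ((A.filter (fun u => cls C q.1 p u = cls C q.2 p u)).card : ℝ) := by
      rw [card_filter]
      push_cast
      rfl
    rw [h3]
    set S : Finset ℕ := (range p).filter (fun s => cls C q.1 p s = cls C q.2 p s) with hS
    have h4 : A.filter (fun u => cls C q.1 p u = cls C q.2 p u) ⊆ (Ioc k0 (k0 + y)).filter (fun m => m % p ∈ S) := by
      intro u hu
      rw [mem_filter] at hu
      refine mem_filter.2 ⟨hA hu.1, mem_filter.2 ⟨mem_range.2 (Nat.mod_lt _ hp.pos), ?_⟩⟩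
      rw [← cls_mod, ← cls_mod]
      exact hu.2
    have h5 : ((A.filter (fun u => cls C q.1 p u = cls C q.2 p u)).card : ℝ) ≤
        (((Ioc k0 (k0 + y)).filter (fun m => m % p ∈ S)).card : ℝ) := by exact_mod_cast card_le_card h4
    refine h5.trans ((res_le p hp.pos S k0 y).trans ?_)
    have h6 : (S.card : ℝ) ≤ D := by exact_mod_cast coll_le C p hp hC q.1 q.2 hq.2.2
    have h7 : (0 : ℝ) ≤ y / p + 1 := by positivity
    exact mul_le_mul_of_nonneg_right h6 h7
  refine (sum_le_sum h2).trans ?_
  rw [sum_const, nsmul_eq_mul]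
  have h3 := offDiag_le (k := k)
  have h7 : (0 : ℝ) ≤ D * (y / p + 1) := by positivity
  calc ((univ : Finset (Fin k)).offDiag.card : ℝ) * (D * (y / p + 1)) ≤ (k : ℝ) ^ 2 * (D * (y / p + 1)) :=
        mul_le_mul_of_nonneg_right h3 h7
    _ = _ := by ring

/-- the `s` modulo `p` at which some value is in the class `c` -/
def rts (C : Arr k D) (p c : ℕ) : Finset ℕ := (range p).filter (fun s => ∃ i, cls C i p s = c)

theorem rts_card (C : Arr k D) (p c : ℕ) (hp : p.Prime) (hC : Good C p) : (rts C p c).card ≤ k * D := by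
  have h1 : rts C p c ⊆ (univ : Finset (Fin k)).biUnion (fun i => (range p).filter (fun s => cls C i p s = c)) := by
    intro s hs
    unfold rts at hs
    rw [mem_filter] at hs
    obtain ⟨i, hi⟩ := hs.2
    rw [mem_biUnion]
    exact ⟨i, mem_univ _, mem_filter.2 ⟨hs.1, hi⟩⟩
  refine (card_le_card h1).trans (card_biUnion_le.trans ?_)
  refine (sum_le_sum fun i _ => fib_le C p hp hC i c).trans ?_
  rw [sum_const, card_univ, Fintype.card_fin, smul_eq_mul]

theorem rts_sub (C : Arr k D) (p c : ℕ) : rts C p c ⊆ range p := filter_subset _ _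

theorem rts_sum (C : Arr k D) (p : ℕ) (hp : p.Prime) (hC : Good C p) :
    |∑ r ∈ range p, (((rts C p r).card : ℝ) - k)| ≤ k ^ 2 * D := by
  classical
  have e : ∀ r, ((rts C p r).card : ℝ) = ∑ s ∈ range p, if (∃ i, cls C i p s = r) then (1 : ℝ) else 0 := by
    intro r
    unfold rts
    rw [card_filter]
    push_cast
    rfl
  have h1 : ∑ r ∈ range p, ((rts C p r).card : ℝ) =
      ∑ s ∈ range p, (((univ : Finset (Fin k)).image (fun i => cls C i p s)).card : ℝ) := by
    simp only [e]
    rw [sum_comm]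
    refine sum_congr rfl fun s _ => ?_
    rw [← sum_filter, sum_const, nsmul_eq_mul, mul_one]
    congr 1
    have : (range p).filter (fun r => ∃ i, cls C i p s = r) = (univ : Finset (Fin k)).image (fun i => cls C i p s) := by
      ext r
      rw [mem_filter, mem_image, mem_range]
      constructor
      · rintro ⟨_, i, hi⟩
        exact ⟨i, mem_univ _, hi⟩
      · rintro ⟨i, _, rfl⟩
        exact ⟨cls_lt C i p s hp.pos, i, rfl⟩
    rw [this]
  have h2 : ∀ s, (((univ : Finset (Fin k)).image (fun i => cls C i p s)).card : ℝ) ≤ k := by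
    intro s
    have : ((univ : Finset (Fin k)).image (fun i => cls C i p s)).card ≤ (univ : Finset (Fin k)).card := card_image_le
    rw [card_univ, Fintype.card_fin] at this
    exact_mod_cast this
  have h3 : ∀ s, (k : ℝ) ≤ (((univ : Finset (Fin k)).image (fun i => cls C i p s)).card : ℝ) +
      ∑ q ∈ (univ : Finset (Fin k)).offDiag, if cls C q.1 p s = cls C q.2 p s then (1 : ℝ) else 0 := by
    intro s
    have h4 := image_ge (fun i => cls C i p s) (univ : Finset (Fin k))
    rw [card_univ, Fintype.card_fin] at h4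
    have h5 : (∑ q ∈ (univ : Finset (Fin k)).offDiag, if cls C q.1 p s = cls C q.2 p s then (1 : ℝ) else 0) =
        ((((univ : Finset (Fin k)).offDiag).filter (fun q => cls C q.1 p s = cls C q.2 p s)).card : ℝ) := by
      rw [card_filter]
      push_cast
      rfl
    rw [h5]
    exact_mod_cast h4
  have h4 : ∑ s ∈ range p, ∑ q ∈ (univ : Finset (Fin k)).offDiag,
      (if cls C q.1 p s = cls C q.2 p s then (1 : ℝ) else 0) ≤ k ^ 2 * D := by
    rw [sum_comm]
    have h5 : ∀ q ∈ (univ : Finset (Fin k)).offDiag,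
        (∑ s ∈ range p, if cls C q.1 p s = cls C q.2 p s then (1 : ℝ) else 0) ≤ D := by
      intro q hq
      rw [mem_offDiag] at hq
      have h3 : (∑ s ∈ range p, if cls C q.1 p s = cls C q.2 p s then (1 : ℝ) else 0) =
          (((range p).filter (fun s => cls C q.1 p s = cls C q.2 p s)).card : ℝ) := by
        rw [card_filter]
        push_cast
        rfl
      rw [h3]
      exact_mod_cast coll_le C p hp hC q.1 q.2 hq.2.2
    refine (sum_le_sum h5).trans ?_
    rw [sum_const, nsmul_eq_mul]
    exact mul_le_mul_of_nonneg_right offDiag_le (Nat.cast_nonneg _)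
  rw [sum_sub_distrib, h1, ← sum_sub_distrib, abs_le]
  constructor
  · have h5 : ∑ s ∈ range p, -(∑ q ∈ (univ : Finset (Fin k)).offDiag,
        (if cls C q.1 p s = cls C q.2 p s then (1 : ℝ) else 0)) ≤
        ∑ s ∈ range p, ((((univ : Finset (Fin k)).image (fun i => cls C i p s)).card : ℝ) - k) := by
      refine sum_le_sum fun s _ => ?_
      linarith [h3 s]
    rw [sum_neg_distrib] at h5
    linarith
  · have h5 : ∑ s ∈ range p, ((((univ : Finset (Fin k)).image (fun i => cls C i p s)).card : ℝ) - k) ≤ 0 :=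
      sum_nonpos fun s _ => by linarith [h2 s]
    have : (0 : ℝ) ≤ k ^ 2 * D := by positivity
    linarith

end Pool.Agent.H559.HY
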