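import Pool.Agent.H559.HY.Local
import Pool.Agent.H559.BS.Main

set_option autoImplicit false

/-! # Probabilities of the exceptional events, uniformly in the systems of polynomials -/

open Finset MeasureTheory ProbabilityTheory Filter Topology
open Pool.Agent.T2H32.BF (Model prob V V_pos V_anti V_ratio recip_le)
open Pool.Agent.H559.BS (TT TT_le TT_ge log_pow_le bc log_top)

namespace Pool.Agent.H559.HY

variable {Ω : Type*} [MeasurableSpace Ω] {P : Measure Ω} {a : ℕ → Ω → ℕ} {k D : ℕ}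

/-- the deviation of the number of the survivors of the random part -/
noncomputable def dev (C : Arr k D) (Z : Fin k → ℕ) (T N : ℕ) (b : ℕ → ℕ) (A : Finset ℕ) : ℝ :=
  |((surv (kl C Z) b ((Ioc T N).filter Nat.Prime) A).card : ℝ) -
    A.card * ∏ p ∈ (Ioc T N).filter Nat.Prime, (1 - (wt Z p : ℝ) / (p : ℝ))|

theorem blockP (h : Model P a) (k D : ℕ) (δ ε₁ c1 : ℝ) (B M : ℕ) (hδ : 0 < δ) (hδ2 : δ ≤ 1) (hε : 0 < ε₁)
    (hc1 : 0 < c1) :
    ∀ᶠ x : ℕ in atTop, ∀ (C : Arr k D), (∀ p, p.Prime → TT δ x < p → Good C p) → ∀ (Z : Fin k → ℕ) (N k0 y : ℕ),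
      y ≤ x → V (TT δ x) ≤ c1 * V N → ∀ A : (ℕ → ℕ) → Finset ℕ, (∀ b, A b ⊆ Ioc k0 (k0 + y)) →
      (∀ b b' : ℕ → ℕ, (∀ p ≤ TT δ x, p.Prime → b p = b' p) → A b = A b') →
      P.real {ω | ε₁ * (x / Real.log x ^ B) ≤ dev C Z (TT δ x) N (fun i => a i ω) (A (fun i => a i ω))} ≤
        1 / (x : ℝ) ^ M := by
  set K1 : ℝ := k ^ 2 * D + k * D + 1 with hK1
  have hK1p : 1 ≤ K1 := by
    have : (0 : ℝ) ≤ k ^ 2 * D + k * D := by positivity
    linarith
  have hK10 : 0 < K1 := by linarith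
  have hlog : Tendsto (fun n : ℕ => Real.log n) atTop atTop := log_top
  filter_upwards [TT_ge δ hδ, eventually_ge_atTop 2, hlog.eventually_ge_atTop (max 1 (4 * K1 * k * c1 / ε₁)),
    log_pow_le (2 * B + 2) δ (8 * K1 * ((M : ℝ) + 1 + c1) / ε₁) hδ, (Pool.Agent.H559.BS.TT_top δ hδ).eventually_ge_atTop k]
    with x hT hx hL hpow hkT C hC Z N k0 y hy hV A hAs hAd
  obtain ⟨hT2, hT1⟩ := hT
  set T := TT δ x with hTd
  set L := Real.log x with hLd
  have hL1 : 1 ≤ L := (le_max_left _ _).trans hL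
  have hL2 : 4 * K1 * k * c1 / ε₁ ≤ L := (le_max_right _ _).trans hL
  have hL0 : 0 < L := by linarith
  have hxR : (2 : ℝ) ≤ x := by exact_mod_cast hx
  have hx0 : (0 : ℝ) < x := by linarith
  have hT0 : (0 : ℝ) < T := by exact_mod_cast hT1
  have hTx : (T : ℝ) ≤ x := by
    refine (TT_le δ x).trans ?_
    calc (x : ℝ) ^ δ ≤ (x : ℝ) ^ (1 : ℝ) := Real.rpow_le_rpow_of_exponent_le (by linarith) hδ2
      _ = x := Real.rpow_one _
  set c : ℝ := K1 * (x / T + 1) with hc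
  have hc0 : 0 < c := by positivity
  have hc1' : c * T ≤ 2 * K1 * x := by
    have : c * T = K1 * (x + T) := by
      rw [hc]
      field_simp
    rw [this]
    nlinarith
  have hc2 : (x : ℝ) ≤ c * T := by
    have : c * T = K1 * (x + T) := by
      rw [hc]
      field_simp
    rw [this]
    nlinarith
  set θ : ℝ := 1 / (c * L ^ (B + 1)) with hθ
  have hθ0 : 0 ≤ θ := by positivity
  have hθc : θ * c ≤ 1 := by
    have : θ * c = 1 / L ^ (B + 1) := by
      rw [hθ]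
      field_simp
    rw [this, div_le_one (by positivity)]
    exact one_le_pow₀ hL1
  have hyx : (y : ℝ) / T + 1 ≤ x / T + 1 := by
    have : (y : ℝ) ≤ x := by exact_mod_cast hy
    gcongr
  have hy0 : (0 : ℝ) ≤ y / T + 1 := by positivity
  have hcA : (k : ℝ) * D * (y / T + 1) ≤ c := by
    calc (k : ℝ) * D * (y / T + 1) ≤ K1 * (x / T + 1) := by
          refine mul_le_mul ?_ hyx hy0 hK10.le
          have : (0 : ℝ) ≤ k ^ 2 * D := by positivity
          linarith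
      _ = c := rfl
  have hcB : (k : ℝ) ^ 2 * D * (y / T + 1) ≤ c := by
    calc (k : ℝ) ^ 2 * D * (y / T + 1) ≤ K1 * (x / T + 1) := by
          refine mul_le_mul ?_ hyx hy0 hK10.le
          have : (0 : ℝ) ≤ k * D := by positivity
          linarith
      _ = c := rfl
  have hb := block h C Z T N k0 y hT1 hkT hC A hAs hAd θ (ε₁ * (x / L ^ B)) hθ0
    ((mul_le_mul_of_nonneg_left hcA hθ0).trans hθc)
  refine hb.trans ?_
  -- the sum over the primes
  set R : ℝ := ∑ p ∈ (Ioc T N).filter Nat.Prime, 1 / (p : ℝ) with hR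
  have hR0 : 0 ≤ R := sum_nonneg fun p _ => by positivity
  have hRc : R ≤ c1 := by
    rcases le_or_gt T N with h1 | h1
    · refine (recip_le T N h1).trans ?_
      have h2 := V_pos N
      have h3 := V_pos T
      have h4 : V T / V N ≤ c1 := by
        rw [div_le_iff₀ h2]
        exact hV
      refine (Real.log_le_log (by positivity) h4).trans ?_
      have := Real.log_le_sub_one_of_pos hc1
      linarith
    · rw [hR, Ioc_eq_empty (by omega)]
      simp only [filter_empty, sum_empty]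
      exact hc1.le
  have e1 : ∑ p ∈ (Ioc T N).filter Nat.Prime, (k ^ 2 * D * (y / T + 1)) / (p : ℝ) = (k ^ 2 * D * (y / T + 1)) * R := by
    rw [hR, mul_sum]
    exact sum_congr rfl fun p _ => by ring
  have e2 : ∑ p ∈ (Ioc T N).filter Nat.Prime, k * (k * D * (y / T + 1)) / (p : ℝ) = k * (k * D * (y / T + 1)) * R := by
    rw [hR, mul_sum]
    exact sum_congr rfl fun p _ => by ring
  rw [e1, e2]
  have h1 : θ * ((k ^ 2 * D * (y / T + 1)) * R) ≤ c1 := by
    calc θ * ((k ^ 2 * D * (y / T + 1)) * R) ≤ θ * (c * c1) := by gcongr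
      _ = θ * c * c1 := by ring
      _ ≤ 1 * c1 := by gcongr
      _ = c1 := one_mul _
  have h2 : θ ^ 2 * (y * (k * (k * D * (y / T + 1)) * R)) ≤ T * k * c1 / L ^ (2 * B + 2) := by
    have hyx' : (y : ℝ) ≤ c * T := le_trans (by exact_mod_cast hy) hc2
    have h3 : (y : ℝ) * (k * (k * D * (y / T + 1)) * R) ≤ (c * T) * (k * c * c1) := by
      refine mul_le_mul hyx' ?_ (by positivity) (by positivity)
      gcongr
    refine (mul_le_mul_of_nonneg_left h3 (sq_nonneg θ)).trans (le_of_eq ?_)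
    have h9 : θ * c = 1 / L ^ (B + 1) := by
      rw [hθ]
      field_simp
    calc θ ^ 2 * ((c * T) * (k * c * c1)) = (θ * c) ^ 2 * (T * k * c1) := by ring
      _ = T * k * c1 / L ^ (2 * B + 2) := by
          rw [h9, show 2 * B + 2 = (B + 1) * 2 by ring, pow_mul, div_pow, one_pow]
          ring
  set U : ℝ := ε₁ * T / (4 * K1 * L ^ (2 * B + 1)) with hU
  have h3 : 2 * U ≤ θ * (ε₁ * (x / L ^ B)) := by
    have h8 : θ * (ε₁ * (x / L ^ B)) = ε₁ * x / (c * L ^ (2 * B + 1)) := by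
      rw [hθ, show 2 * B + 1 = B + 1 + B by ring, pow_add]
      field_simp
      ring
    rw [h8, hU, ← mul_div_assoc, div_le_div_iff₀ (by positivity) (by positivity)]
    calc 2 * (ε₁ * T) * (c * L ^ (2 * B + 1)) = 2 * ε₁ * (c * T) * L ^ (2 * B + 1) := by ring
      _ ≤ 2 * ε₁ * (2 * K1 * x) * L ^ (2 * B + 1) := by gcongr
      _ = ε₁ * x * (4 * K1 * L ^ (2 * B + 1)) := by ring
  have h4 : T * k * c1 / L ^ (2 * B + 2) ≤ U := by
    rw [hU, div_le_div_iff₀ (by positivity) (by positivity)]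
    rw [div_le_iff₀ hε] at hL2
    calc T * k * c1 * (4 * K1 * L ^ (2 * B + 1)) = T * L ^ (2 * B + 1) * (4 * K1 * k * c1) := by ring
      _ ≤ T * L ^ (2 * B + 1) * (L * ε₁) := by gcongr
      _ = ε₁ * T * L ^ (2 * B + 2) := by ring
  have h5 : ((M : ℝ) + 1) * L + c1 ≤ U := by
    rw [hU, le_div_iff₀ (by positivity)]
    have h12 : 8 * K1 * ((M : ℝ) + 1 + c1) / ε₁ * L ^ (2 * B + 2) ≤ 2 * T := hpow.trans (by linarith)
    rw [div_mul_eq_mul_div, div_le_iff₀ hε] at h12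
    have h13 : ((M : ℝ) + 1) * L + c1 ≤ ((M : ℝ) + 1 + c1) * L := by nlinarith
    calc (((M : ℝ) + 1) * L + c1) * (4 * K1 * L ^ (2 * B + 1)) ≤ (((M : ℝ) + 1 + c1) * L) * (4 * K1 * L ^ (2 * B + 1)) := by
          gcongr
      _ = (8 * K1 * ((M : ℝ) + 1 + c1) * L ^ (2 * B + 2)) / 2 := by ring
      _ ≤ 2 * T * ε₁ / 2 := by gcongr
      _ = ε₁ * T := by ring
  have h12 : -(θ * (ε₁ * (x / L ^ B))) + θ * ((k ^ 2 * D * (y / T + 1)) * R) +
      θ ^ 2 * (y * (k * (k * D * (y / T + 1)) * R)) ≤ -(((M + 1 : ℕ) : ℝ) * L) := by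
    push_cast
    linarith
  refine (mul_le_mul_of_nonneg_left (Real.exp_le_exp.2 h12) (by norm_num)).trans ?_
  have h13 : Real.exp (-(((M + 1 : ℕ) : ℝ) * L)) = 1 / (x : ℝ) ^ (M + 1) := by
    rw [Real.exp_neg, Real.exp_nat_mul, hLd, Real.exp_log hx0, one_div]
  rw [h13, mul_one_div, div_le_div_iff₀ (by positivity) (by positivity), pow_succ]
  have := pow_pos hx0 M
  nlinarith

/-- Borel-Cantelli for finite families of events -/
theorem bcU [IsProbabilityMeasure P] {ι : Type*} (I : ℕ → Finset ι) (Q : ℕ → ι → Set Ω) (M : ℕ)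
    (hI : ∀ᶠ x : ℕ in atTop, ((I x).card : ℝ) ≤ (x : ℝ) ^ M)
    (hQ : ∀ᶠ x : ℕ in atTop, ∀ i ∈ I x, P.real (Q x i) ≤ 1 / (x : ℝ) ^ (M + 2)) :
    ∀ᵐ ω ∂P, ∀ᶠ x : ℕ in atTop, ∀ i ∈ I x, ω ∉ Q x i := by
  have h1 := bc (P := P) (fun x => ⋃ i ∈ I x, Q x i) 1 zero_le_one (by
    filter_upwards [hI, hQ, eventually_ge_atTop 1] with x h1 h2 h3
    have hx : (0 : ℝ) < x := by exact_mod_cast h3
    refine (measureReal_biUnion_finset_le _ _).trans ((sum_le_sum h2).trans ?_)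
    rw [sum_const, nsmul_eq_mul]
    calc ((I x).card : ℝ) * (1 / (x : ℝ) ^ (M + 2)) ≤ (x : ℝ) ^ M * (1 / (x : ℝ) ^ (M + 2)) := by gcongr
      _ = 1 / (x : ℝ) ^ 2 := by
          rw [pow_add]
          field_simp)
  filter_upwards [h1] with ω hω
  filter_upwards [hω] with x hx i hi hcon
  exact hx (Set.mem_biUnion hi hcon)

/-- the arrays with coefficients at most `H` -/
noncomputable def box (k D H : ℕ) : Finset (Arr k D) :=
  Fintype.piFinset fun _ => Fintype.piFinset fun _ => Icc (-(H : ℤ)) H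

theorem mem_box (H : ℕ) (C : Arr k D) : C ∈ box k D H ↔ ∀ i j, |C i j| ≤ H := by
  unfold box
  simp only [Fintype.mem_piFinset, mem_Icc, abs_le]

theorem card_box (k D H : ℕ) : (box k D H).card = (2 * H + 1) ^ ((D + 1) * k) := by
  unfold box
  simp only [Fintype.card_piFinset_const, Int.card_Icc]
  rw [← pow_mul]
  congr 1
  omega

/-- the classes removed by the deterministic rule -/
def Om (C : Arr k D) (w1 w2 : ℕ) (up : Bool) (b : ℕ → ℕ) (p : ℕ) : Finset ℕ :=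
  if p ≤ w1 then rts C p 0 else if p ≤ w2 then (if up then ∅ else rts C p 0 ∪ rts C p (b p)) else rts C p (b p)

/-- the survivors of the deterministic rule -/
def base (C : Arr k D) (w1 w2 : ℕ) (up : Bool) (T k0 y : ℕ) (b : ℕ → ℕ) : Finset ℕ :=
  (Ioc k0 (k0 + y)).filter (fun m => ∀ p ≤ T, p.Prime → m % p ∉ Om C w1 w2 up b p)

theorem base_sub (C : Arr k D) (w1 w2 : ℕ) (up : Bool) (T k0 y : ℕ) (b : ℕ → ℕ) :
    base C w1 w2 up T k0 y b ⊆ Ioc k0 (k0 + y) := filter_subset _ _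

theorem base_dep (C : Arr k D) (w1 w2 : ℕ) (up : Bool) (T k0 y : ℕ) (b b' : ℕ → ℕ)
    (h : ∀ p ≤ T, p.Prime → b p = b' p) : base C w1 w2 up T k0 y b = base C w1 w2 up T k0 y b' := by
  unfold base
  refine filter_congr fun m _ => forall₃_congr fun p hp hpp => ?_
  unfold Om
  rw [h p hp hpp]

/-- **The random part of the sieve, uniformly in everything.** -/
theorem ev1 (h : Model P a) (k D A P0 B : ℕ) (δ ε₁ c1 : ℝ) (hδ : 0 < δ) (hδ2 : δ ≤ 1) (hε : 0 < ε₁)
    (hc1 : 0 < c1) (w1 w2 : ℕ → ℕ) :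
    ∀ᵐ ω ∂P, ∀ᶠ x : ℕ in atTop, ∀ C ∈ box k D (x ^ A), (∀ p, p.Prime → P0 < p → Good C p) →
      ∀ (Z : Fin k → ℕ) (N k0 y : ℕ) (up : Bool), (∀ i, Z i ≤ x ^ A) → N ≤ x ^ A → k0 ≤ x → y ≤ x →
      V (TT δ x) ≤ c1 * V N →
      dev C Z (TT δ x) N (fun i => a i ω) (base C (w1 x) (w2 x) up (TT δ x) k0 y (fun i => a i ω)) <
        ε₁ * (x / Real.log x ^ B) := by
  have hprob := prob h
  set M : ℕ := (A + 2) * ((D + 1) * k) + (A + 2) * k + (A + 2) + 3 + 3 + 1 with hM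
  set I : ℕ → Finset (Arr k D × (Fin k → ℕ) × ℕ × ℕ × ℕ × Bool) := fun x =>
    box k D (x ^ A) ×ˢ (Fintype.piFinset fun _ => range (x ^ A + 1)) ×ˢ range (x ^ A + 1) ×ˢ range (x + 1) ×ˢ
      range (x + 1) ×ˢ univ with hI
  set Q : ℕ → Arr k D × (Fin k → ℕ) × ℕ × ℕ × ℕ × Bool → Set Ω := fun x i =>
    {ω | ((∀ p, p.Prime → P0 < p → Good i.1 p) ∧ V (TT δ x) ≤ c1 * V i.2.2.1) ∧
      ε₁ * (x / Real.log x ^ B) ≤ dev i.1 i.2.1 (TT δ x) i.2.2.1 (fun i => a i ω)
        (base i.1 (w1 x) (w2 x) i.2.2.2.2.2 (TT δ x) i.2.2.2.1 i.2.2.2.2.1 (fun i => a i ω))} with hQ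
  have hcard : ∀ᶠ x : ℕ in atTop, ((I x).card : ℝ) ≤ (x : ℝ) ^ M := by
    filter_upwards [eventually_ge_atTop 2] with x hx
    have h1 : 2 * x ^ A + 1 ≤ x ^ (A + 2) := by
      have h2 : 1 ≤ x ^ A := Nat.one_le_pow _ _ (by omega)
      have h3 : 4 ≤ x ^ 2 := Nat.pow_le_pow_left hx 2
      calc 2 * x ^ A + 1 ≤ x ^ A * 4 := by omega
        _ ≤ x ^ A * x ^ 2 := Nat.mul_le_mul_left _ h3
        _ = x ^ (A + 2) := by rw [pow_add]
    have h2 : x ^ A + 1 ≤ x ^ (A + 2) := by omega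
    have h3 : x + 1 ≤ x ^ 3 := by
      have : 4 ≤ x ^ 2 := Nat.pow_le_pow_left hx 2
      calc x + 1 ≤ 4 * x := by omega
        _ ≤ x ^ 2 * x := Nat.mul_le_mul_right _ this
        _ = x ^ 3 := by ring
    have h4 : (I x).card ≤ x ^ M := by
      rw [hI]
      simp only [card_product, card_box, Fintype.card_piFinset_const, card_range, card_univ, Fintype.card_bool]
      calc (2 * x ^ A + 1) ^ ((D + 1) * k) * ((x ^ A + 1) ^ k * ((x ^ A + 1) * ((x + 1) * ((x + 1) * 2))))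
          ≤ (x ^ (A + 2)) ^ ((D + 1) * k) * ((x ^ (A + 2)) ^ k * (x ^ (A + 2) * (x ^ 3 * (x ^ 3 * x)))) := by
            gcongr
        _ = x ^ M := by
            rw [hM, ← pow_mul, ← pow_mul]
            ring
    exact_mod_cast h4
  have hbad : ∀ᶠ x : ℕ in atTop, ∀ i ∈ I x, P.real (Q x i) ≤ 1 / (x : ℝ) ^ (M + 2) := by
    filter_upwards [blockP h k D δ ε₁ c1 B (M + 2) hδ hδ2 hε hc1,
      (Pool.Agent.H559.BS.TT_top δ hδ).eventually_ge_atTop P0] with x h1 h2 i hi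
    rw [hI] at hi
    simp only [mem_product, mem_range] at hi
    by_cases hcon : (∀ p, p.Prime → P0 < p → Good i.1 p) ∧ V (TT δ x) ≤ c1 * V i.2.2.1
    · refine le_trans (measureReal_mono ?_ (measure_ne_top _ _)) (h1 i.1 (fun p hp hpT => hcon.1 p hp (by omega)) i.2.1 i.2.2.1
        i.2.2.2.1 i.2.2.2.2.1 (by omega) hcon.2 (base i.1 (w1 x) (w2 x) i.2.2.2.2.2 (TT δ x) i.2.2.2.1 i.2.2.2.2.1)
        (base_sub _ _ _ _ _ _ _) (base_dep _ _ _ _ _ _ _))
      intro ω hω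
      exact hω.2
    · have : Q x i = ∅ := by
        ext ω
        simp only [hQ, Set.mem_ofPred_eq, Set.mem_empty_iff_false, iff_false]
        exact fun h => hcon h.1
      rw [this, measureReal_empty]
      positivity
  filter_upwards [bcU I Q M hcard hbad] with ω hω
  filter_upwards [hω] with x hx C hCb hC Z N k0 y up hZ hN hk0 hy hV
  by_contra hcon
  rw [not_lt] at hcon
  refine hx (C, Z, N, k0, y, up) ?_ ⟨⟨hC, hV⟩, hcon⟩
  rw [hI]
  simp only [mem_product, mem_range, Fintype.mem_piFinset]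
  exact ⟨hCb, fun i => by have := hZ i; omega, by omega, by omega, by omega, mem_univ _⟩

end Pool.Agent.H559.HY
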