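import Pool.Agent.H559.HY.ZetaLim
import Pool.Agent.H559.HY.BH
import Pool.Graph.R_seed8.H474R2.PG.MertensF
import Pool.Graph.R_seed8.H474R2.GE.RhoHoms
import Mathlib.RingTheory.Polynomial.Resultant.Basic

set_option autoImplicit false

/-! # Convergence of the product of Bateman and Horn -/

open Finset Filter Topology Polynomial NumberField
open Pool.Agent.H474R2.PG (rho P2_core rho_le)

namespace Pool.Agent.H559.HY

/-- both inequalities for the same field -/
theorem rho_eq_homs (f : ℤ[X]) (hf : Irreducible f) (hd : 0 < f.natDegree) :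
    ∃ (K : Type) (_ : Field K) (_ : NumberField K), ∃ B : ℕ, ∀ p : ℕ, p.Prime → B < p →
      Nat.card (𝓞 K →+* ZMod p) = rho f p := by
  have hprim : f.IsPrimitive := hf.isPrimitive hd.ne'
  have hF : Irreducible (f.map (Int.castRingHom ℚ)) :=
    (IsPrimitive.Int.irreducible_iff_irreducible_map_cast hprim).1 hf
  have hfact : Fact (Irreducible (f.map (Int.castRingHom ℚ))) := ⟨hF⟩
  have hroot : eval₂ (Int.castRingHom (AdjoinRoot (f.map (Int.castRingHom ℚ))))
      (AdjoinRoot.root (f.map (Int.castRingHom ℚ))) f = 0 := by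
    have h1 := AdjoinRoot.eval₂_root (f.map (Int.castRingHom ℚ))
    rw [eval₂_map] at h1
    have h2 : (AdjoinRoot.of (f.map (Int.castRingHom ℚ))).comp (Int.castRingHom ℚ) =
        Int.castRingHom (AdjoinRoot (f.map (Int.castRingHom ℚ))) := RingHom.ext_int _ _
    rw [h2] at h1
    exact h1
  have hadj : ∀ x : AdjoinRoot (f.map (Int.castRingHom ℚ)), ∃ q : ℚ[X],
      eval₂ (Rat.castHom (AdjoinRoot (f.map (Int.castRingHom ℚ)))) (AdjoinRoot.root (f.map (Int.castRingHom ℚ))) q = x := by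
    intro x
    obtain ⟨q, rfl⟩ := AdjoinRoot.mk_surjective x
    refine ⟨q, ?_⟩
    have h2 : Rat.castHom (AdjoinRoot (f.map (Int.castRingHom ℚ))) =
        AdjoinRoot.of (f.map (Int.castRingHom ℚ)) := Subsingleton.elim _ _
    rw [h2]
    have h3 := AdjoinRoot.aeval_eq (f := f.map (Int.castRingHom ℚ)) q
    rw [← h3]
    rfl
  refine ⟨AdjoinRoot (f.map (Int.castRingHom ℚ)), inferInstance, inferInstance, ?_⟩
  obtain ⟨B1, hB1⟩ := P2_core _ f hd (AdjoinRoot.root (f.map (Int.castRingHom ℚ))) hroot hadj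
  obtain ⟨B2, hB2⟩ := Pool.Agent.H474R2.GE.M1_core (AdjoinRoot (f.map (Int.castRingHom ℚ))) f
    (AdjoinRoot.root (f.map (Int.castRingHom ℚ))) (by
      intro A hA
      have h1 : AdjoinRoot.mk (f.map (Int.castRingHom ℚ)) (A.map (Int.castRingHom ℚ)) = 0 := by
        have h3 := AdjoinRoot.aeval_eq (f := f.map (Int.castRingHom ℚ)) (A.map (Int.castRingHom ℚ))
        rw [← h3, aeval_def, eval₂_map]
        have hg : ∀ g : ℤ →+* AdjoinRoot (f.map (Int.castRingHom ℚ)),
            eval₂ g (AdjoinRoot.root (f.map (Int.castRingHom ℚ))) A = 0 := by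
          intro g
          rw [RingHom.ext_int g (Int.castRingHom _)]
          exact hA
        exact hg _
      rw [AdjoinRoot.mk_eq_zero] at h1
      exact (IsPrimitive.Int.dvd_iff_map_cast_dvd_map_cast f A hprim).2 h1) hadj
  exact ⟨max B1 B2, fun p hp hB => le_antisymm (hB1 p hp (lt_of_le_of_lt (le_max_left _ _) hB))
    (hB2 p hp (lt_of_le_of_lt (le_max_right _ _) hB))⟩

/-- `∑ (ρ(p) - 1)/p` converges -/
theorem rho_conv (f : ℤ[X]) (hf : Irreducible f) (hd : 0 < f.natDegree) : ∃ L : ℝ,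
    Tendsto (fun N : ℕ => ∑ p ∈ (Ioc 1 N).filter Nat.Prime, ((rho f p : ℝ) - 1) / p) atTop (𝓝 L) := by
  obtain ⟨K, iF, iN, B, hB⟩ := rho_eq_homs f hf hd
  obtain ⟨L, hL⟩ := CV.homs_conv K
  set c : ℝ := ∑ p ∈ (Ioc 1 B).filter Nat.Prime, ((rho f p : ℝ) - Nat.card (𝓞 K →+* ZMod p)) / p with hc
  refine ⟨L + c, (hL.add_const c).congr' ?_⟩
  filter_upwards [eventually_ge_atTop B] with N hN
  have h1 : ∑ p ∈ (Ioc 1 N).filter Nat.Prime, ((rho f p : ℝ) - Nat.card (𝓞 K →+* ZMod p)) / p = c := by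
    symm
    refine sum_subset (filter_subset_filter _ (Ioc_subset_Ioc_right hN)) ?_
    intro p hp hp2
    rw [mem_filter, mem_Ioc] at hp hp2
    have h3 : B < p := by
      by_contra h
      exact hp2 ⟨⟨hp.1.1, by omega⟩, hp.2⟩
    rw [hB p hp.2 h3]
    simp
  rw [← h1, ← sum_add_distrib]
  refine sum_congr rfl fun p _ => ?_
  ring

/-- no common roots modulo large primes -/
theorem no_common (f g : ℤ[X]) (hf : Irreducible f) (hg : Irreducible g) (hdf : 0 < f.natDegree)
    (hdg : 0 < g.natDegree) (h1 : f ≠ g) (h2 : f ≠ -g) :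
    ∃ B : ℕ, ∀ p : ℕ, p.Prime → B < p → ∀ x : ℤ, (p : ℤ) ∣ f.eval x → ¬ (p : ℤ) ∣ g.eval x := by
  have hpf : f.IsPrimitive := hf.isPrimitive hdf.ne'
  have hpg : g.IsPrimitive := hg.isPrimitive hdg.ne'
  have hF : Irreducible (f.map (Int.castRingHom ℚ)) :=
    (IsPrimitive.Int.irreducible_iff_irreducible_map_cast hpf).1 hf
  have hG : Irreducible (g.map (Int.castRingHom ℚ)) :=
    (IsPrimitive.Int.irreducible_iff_irreducible_map_cast hpg).1 hg
  have hcop : IsCoprime (f.map (Int.castRingHom ℚ)) (g.map (Int.castRingHom ℚ)) := by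
    rw [hF.coprime_iff_not_dvd]
    intro hdvd
    have h3 : f ∣ g := (IsPrimitive.Int.dvd_iff_map_cast_dvd_map_cast f g hpf).2 hdvd
    have h4 : Associated f g := hf.associated_of_dvd hg h3
    obtain ⟨u, hu⟩ := h4
    have h5 := Polynomial.isUnit_iff.1 u.isUnit
    obtain ⟨r, hr, hru⟩ := h5
    rcases Int.isUnit_iff.1 hr with h6 | h6
    · rw [h6] at hru
      apply h1
      rw [← hu, ← hru]
      simp
    · rw [h6] at hru
      apply h2
      rw [← hu, ← hru]
      simp
  have hres : f.resultant g f.natDegree g.natDegree ≠ 0 := by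
    intro h0
    have h3 := resultant_map_map f g f.natDegree g.natDegree (Int.castRingHom ℚ)
    rw [h0, map_zero] at h3
    have h4 := resultant_ne_zero _ _ hcop
    rw [natDegree_map_eq_of_injective (RingHom.injective_int (Int.castRingHom ℚ)) f,
      natDegree_map_eq_of_injective (RingHom.injective_int (Int.castRingHom ℚ)) g] at h4
    exact h4 h3
  obtain ⟨P, Q, -, -, hPQ⟩ := exists_mul_add_mul_eq_C_resultant f g (le_refl f.natDegree) (le_refl g.natDegree)
    (Or.inl hdf.ne')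
  refine ⟨(f.resultant g f.natDegree g.natDegree).natAbs, fun p hp hB x hx hgx => ?_⟩
  have h3 := congrArg (fun q : ℤ[X] => q.eval x) hPQ
  simp only [eval_add, eval_mul, eval_C] at h3
  have h4 : (p : ℤ) ∣ f.resultant g f.natDegree g.natDegree := by
    rw [← h3]
    exact dvd_add (hx.mul_right _) (hgx.mul_right _)
  have h5 := Nat.le_of_dvd (Int.natAbs_pos.2 hres) (Int.natCast_dvd.1 h4)
  omega

variable {k : ℕ}

/-- the number of the classes is the sum of the numbers of the roots -/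
theorem rts_rho (D : ℕ) (f : Fin k → ℤ[X]) (hD : ∀ i, (f i).natDegree ≤ D) (hirr : ∀ i, Irreducible (f i))
    (hd : ∀ i, 0 < (f i).natDegree) (hne : ∀ i j, i ≠ j → f i ≠ f j ∧ f i ≠ -f j) :
    ∃ B : ℕ, ∀ p : ℕ, p.Prime → B < p → (rts (arr D f) p 0).card = ∑ i, rho (f i) p := by
  classical
  have h0 : ∀ q : Fin k × Fin k, ∃ B : ℕ, q.1 ≠ q.2 → ∀ p : ℕ, p.Prime → B < p → ∀ x : ℤ,
      (p : ℤ) ∣ (f q.1).eval x → ¬ (p : ℤ) ∣ (f q.2).eval x := by
    intro q
    by_cases h : q.1 = q.2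
    · exact ⟨0, fun h2 => absurd h h2⟩
    · obtain ⟨B, hB⟩ := no_common (f q.1) (f q.2) (hirr _) (hirr _) (hd _) (hd _) (hne _ _ h).1 (hne _ _ h).2
      exact ⟨B, fun _ => hB⟩
  choose B hB using h0
  refine ⟨∑ q, B q, fun p hp hpB => ?_⟩
  have hBq : ∀ q, B q < p := fun q => lt_of_le_of_lt
    (single_le_sum (f := B) (fun _ _ => Nat.zero_le _) (mem_univ q)) hpB
  have e : rts (arr D f) p 0 = (univ : Finset (Fin k)).biUnion
      (fun i => (range p).filter (fun a : ℕ => (p : ℤ) ∣ (f i).eval (a : ℤ))) := by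
    ext s
    unfold rts
    simp only [mem_filter, mem_biUnion, mem_univ, true_and]
    constructor
    · rintro ⟨h1, i, h2⟩
      refine ⟨i, h1, ?_⟩
      have h3 := (cls_eq_iff (arr D f) i p s 0 hp.pos hp.pos).1 h2
      rw [evl_arr D f hD, Nat.cast_zero, sub_zero] at h3
      exact h3
    · rintro ⟨i, h1, h2⟩
      refine ⟨h1, i, (cls_eq_iff (arr D f) i p s 0 hp.pos hp.pos).2 ?_⟩
      rw [evl_arr D f hD, Nat.cast_zero, sub_zero]
      exact h2
  rw [e, card_biUnion]
  · rfl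
  · intro i _ j _ hij
    rw [Function.onFun, disjoint_left]
    intro s h1 h2
    rw [mem_filter] at h1 h2
    exact hB (i, j) hij p hp (hBq _) s h1.2 h2.2

theorem log_err {u : ℝ} (h0 : 0 ≤ u) (h1 : u ≤ 1 / 2) : |Real.log (1 - u) + u| ≤ u ^ 2 := by
  have h2 := Pool.Agent.H921R2.TatePole.neg_log_one_sub_le h0 h1
  have h3 := Real.log_le_sub_one_of_pos (show (0 : ℝ) < 1 - u by linarith)
  rw [abs_le]
  constructor <;> nlinarith

/-- **The product of Bateman and Horn converges.** -/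
theorem sg_conv (D : ℕ) (f : Fin k → ℤ[X]) (hD : ∀ i, (f i).natDegree ≤ D) (hirr : ∀ i, Irreducible (f i))
    (hd : ∀ i, 0 < (f i).natDegree) (hne : ∀ i j, i ≠ j → f i ≠ f j ∧ f i ≠ -f j) :
    ∃ S : ℝ, Tendsto (fun w : ℕ => Sg (arr D f) w) atTop (𝓝 S) := by
  classical
  obtain ⟨B1, hB1⟩ := rts_rho D f hD hirr hd hne
  have hrl : ∀ i, ∃ B : ℕ, ∀ p : ℕ, p.Prime → B < p → rho (f i) p ≤ (f i).natDegree := fun i =>
    rho_le (f i) (hirr i).ne_zero
  choose B2 hB2 using hrl
  set B : ℕ := B1 + ∑ i, B2 i + 2 * (k * D) + 2 with hB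
  have hom : ∀ p : ℕ, p.Prime → B < p → (rts (arr D f) p 0).card ≤ k * D := by
    intro p hp hpB
    rw [hB1 p hp (by omega)]
    calc ∑ i, rho (f i) p ≤ ∑ _i : Fin k, D := by
          refine sum_le_sum fun i _ => ?_
          have h1 : B2 i ≤ ∑ i, B2 i := single_le_sum (f := B2) (fun _ _ => Nat.zero_le _) (mem_univ i)
          exact (hB2 i p hp (by omega)).trans (hD i)
      _ = k * D := by simp
  choose L hL using fun i => rho_conv (f i) (hirr i) (hd i)
  have hsumL : Tendsto (fun N : ℕ => ∑ i, ∑ p ∈ (Ioc 1 N).filter Nat.Prime, ((rho (f i) p : ℝ) - 1) / p) atTop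
      (𝓝 (∑ i, L i)) := tendsto_finsetSum _ fun i _ => hL i
  set t : ℕ → ℝ := fun p => (1 - ((rts (arr D f) p 0).card : ℝ) / p) / (1 - 1 / (p : ℝ)) ^ k with ht
  set v : ℕ → ℝ := fun p => if p.Prime ∧ B < p then Real.log (t p) + (((rts (arr D f) p 0).card : ℝ) - k) / p else 0 with hv
  have hbig : ∀ p : ℕ, p.Prime → B < p → 0 < t p ∧
      |Real.log (t p) + (((rts (arr D f) p 0).card : ℝ) - k) / p| ≤ ((k * D : ℕ) ^ 2 + k : ℝ) * (1 / (p : ℝ) ^ 2) := by
    intro p hp hpB
    have hp0 : (0 : ℝ) < p := by exact_mod_cast hp.pos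
    have h1 : ((rts (arr D f) p 0).card : ℝ) ≤ ((k * D : ℕ) : ℝ) := by exact_mod_cast hom p hp hpB
    have h2 : 2 * ((k * D : ℕ) : ℝ) ≤ p := by
      have : 2 * (k * D) ≤ p := by omega
      exact_mod_cast this
    have h3 : (2 : ℝ) ≤ p := by exact_mod_cast hp.two_le
    set u : ℝ := ((rts (arr D f) p 0).card : ℝ) / p with hu
    have hu0 : 0 ≤ u := by positivity
    have hu1 : u ≤ 1 / 2 := by
      rw [hu, div_le_iff₀ hp0]
      linarith
    have hw0 : (0 : ℝ) ≤ 1 / p := by positivity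
    have hw1 : (1 : ℝ) / p ≤ 1 / 2 := one_div_le_one_div_of_le (by norm_num) h3
    have e1 := log_err hu0 hu1
    have e2 := log_err hw0 hw1
    have hpos1 : 0 < 1 - u := by linarith
    have hpos2 : 0 < 1 - 1 / (p : ℝ) := by linarith
    refine ⟨div_pos hpos1 (pow_pos hpos2 k), ?_⟩
    have e3 : Real.log (t p) = Real.log (1 - u) - k * Real.log (1 - 1 / p) := by
      rw [ht]
      simp only
      rw [Real.log_div hpos1.ne' (pow_pos hpos2 k).ne', Real.log_pow]
    have e4 : Real.log (t p) + (((rts (arr D f) p 0).card : ℝ) - k) / p =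
        (Real.log (1 - u) + u) - k * (Real.log (1 - 1 / p) + 1 / p) := by
      rw [e3, hu]
      ring
    rw [e4]
    refine (abs_sub _ _).trans ?_
    rw [abs_mul, abs_of_nonneg (Nat.cast_nonneg k : (0 : ℝ) ≤ k)]
    have h4 : u ^ 2 ≤ ((k * D : ℕ) : ℝ) ^ 2 * (1 / (p : ℝ) ^ 2) := by
      rw [hu, div_pow, mul_one_div]
      gcongr
    have h5 : (k : ℝ) * |Real.log (1 - 1 / p) + 1 / p| ≤ k * (1 / (p : ℝ) ^ 2) := by
      have : (1 / (p : ℝ)) ^ 2 = 1 / (p : ℝ) ^ 2 := by rw [div_pow, one_pow]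
      rw [← this]
      gcongr
    calc |Real.log (1 - u) + u| + (k : ℝ) * |Real.log (1 - 1 / p) + 1 / p| ≤
          ((k * D : ℕ) : ℝ) ^ 2 * (1 / (p : ℝ) ^ 2) + k * (1 / (p : ℝ) ^ 2) := add_le_add (e1.trans h4) h5
      _ = _ := by ring
  have hvs : Summable v := by
    have h1 : Summable (fun n : ℕ => ((k * D : ℕ) ^ 2 + k : ℝ) * (1 / (n : ℝ) ^ 2)) :=
      (Real.summable_one_div_nat_pow.2 (by norm_num)).mul_left _
    refine Summable.of_norm_bounded h1 fun n => ?_
    rw [Real.norm_eq_abs, hv]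
    simp only
    split_ifs with h
    · exact (hbig n h.1 h.2).2
    · rw [abs_zero]
      positivity
  have hvl := (hvs.hasSum.tendsto_sum_nat).comp (tendsto_add_atTop_nat 1)
  set c : ℝ := ∑ p ∈ (Ioc 1 B).filter Nat.Prime, ∑ i, ((rho (f i) p : ℝ) - 1) / p with hc
  have hlim : Tendsto (fun N : ℕ => (∏ p ∈ (range (B + 1)).filter Nat.Prime, t p) *
      Real.exp (∑ n ∈ range (N + 1), v n - (∑ i, ∑ p ∈ (Ioc 1 N).filter Nat.Prime, ((rho (f i) p : ℝ) - 1) / p - c)))
      atTop (𝓝 ((∏ p ∈ (range (B + 1)).filter Nat.Prime, t p) * Real.exp (∑' n, v n - (∑ i, L i - c)))) := by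
    refine Tendsto.const_mul _ ?_
    refine (Real.continuous_exp.tendsto _).comp ?_
    exact hvl.sub (hsumL.sub_const c)
  refine ⟨_, hlim.congr' ?_⟩
  filter_upwards [eventually_ge_atTop B] with N hN
  have e1 : ∑ n ∈ range (N + 1), v n = ∑ p ∈ (Ioc B N).filter Nat.Prime,
      (Real.log (t p) + (((rts (arr D f) p 0).card : ℝ) - k) / p) := by
    rw [hv]
    simp only
    rw [← sum_filter]
    refine sum_congr ?_ fun _ _ => rfl
    ext n
    simp only [mem_filter, mem_range, mem_Ioc]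
    constructor
    · rintro ⟨h1, h2, h3⟩
      exact ⟨⟨h3, by omega⟩, h2⟩
    · rintro ⟨⟨h1, h2⟩, h3⟩
      exact ⟨by omega, h3, h1⟩
  have e2 : ∑ i, ∑ p ∈ (Ioc 1 N).filter Nat.Prime, ((rho (f i) p : ℝ) - 1) / p - c =
      ∑ p ∈ (Ioc B N).filter Nat.Prime, (((rts (arr D f) p 0).card : ℝ) - k) / p := by
    rw [sum_comm, hc]
    have e3 : (Ioc 1 N).filter Nat.Prime = (Ioc 1 B).filter Nat.Prime ∪ (Ioc B N).filter Nat.Prime := by
      rw [← filter_union]
      congr 1
      ext n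
      simp only [mem_union, mem_Ioc]
      omega
    have e4 : Disjoint ((Ioc 1 B).filter Nat.Prime) ((Ioc B N).filter Nat.Prime) := by
      refine disjoint_filter_filter ?_
      rw [disjoint_left]
      intro n h1 h2
      rw [mem_Ioc] at h1 h2
      omega
    rw [e3, sum_union e4, add_sub_cancel_left]
    refine sum_congr rfl fun p hp => ?_
    rw [mem_filter, mem_Ioc] at hp
    rw [hB1 p hp.2 (by omega), ← sum_div, sum_sub_distrib]
    simp
  have e5 : Sg (arr D f) N = (∏ p ∈ (range (B + 1)).filter Nat.Prime, t p) * ∏ p ∈ (Ioc B N).filter Nat.Prime, t p := by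
    unfold Sg
    have e3 : (range (N + 1)).filter Nat.Prime = (range (B + 1)).filter Nat.Prime ∪ (Ioc B N).filter Nat.Prime := by
      rw [← filter_union]
      congr 1
      ext n
      simp only [mem_union, mem_Ioc, mem_range]
      omega
    have e4 : Disjoint ((range (B + 1)).filter Nat.Prime) ((Ioc B N).filter Nat.Prime) := by
      refine disjoint_filter_filter ?_
      rw [disjoint_left]
      intro n h1 h2
      rw [mem_Ioc] at h2
      rw [mem_range] at h1
      omega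
    rw [e3, prod_union e4]
  rw [e5, e1, e2, ← sum_sub_distrib, Real.exp_sum]
  congr 1
  refine prod_congr rfl fun p hp => ?_
  rw [mem_filter, mem_Ioc] at hp
  rw [add_sub_cancel_right, Real.exp_log (hbig p hp.2 hp.1.1).1]

end Pool.Agent.H559.HY
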