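import Pool.Agent.H559.HY.Prob

set_option autoImplicit false

/-! # The tails of the local densities -/

open Finset MeasureTheory ProbabilityTheory Filter Topology
open Pool.Agent.T2H32.BF (Model prob V V_pos V_anti V_ratio recip_le)
open Pool.Agent.H559.BS (integral_class ae_lt sum_sq exp_avg log_top)

namespace Pool.Agent.H559.HY

variable {Ω : Type*} [MeasurableSpace Ω] {P : Measure Ω} {a : ℕ → Ω → ℕ} {k D : ℕ}

/-- the deviation of the number of the roots from its mean value -/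
noncomputable def X (C : Arr k D) (p r : ℕ) : ℝ := (((rts C p r).card : ℝ) - k) / p

/-- a bound for the number of the roots -/
def K2 (k D : ℕ) : ℝ := k * D + k + 1

theorem K2_pos (k D : ℕ) : 1 ≤ K2 k D := by
  unfold K2
  have : (0 : ℝ) ≤ k * D + k := by positivity
  linarith

theorem X_abs (C : Arr k D) (p r : ℕ) (hp : p.Prime) (hC : Good C p) : |X C p r| ≤ K2 k D / p := by
  have hp0 : (0 : ℝ) < p := by exact_mod_cast hp.pos
  have h1 : ((rts C p r).card : ℝ) ≤ k * D := by exact_mod_cast rts_card C p r hp hC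
  have h2 : (0 : ℝ) ≤ ((rts C p r).card : ℝ) := Nat.cast_nonneg _
  have h3 : (0 : ℝ) ≤ k * D := by positivity
  have h4 : (0 : ℝ) ≤ k := by positivity
  unfold X K2
  rw [abs_div, abs_of_pos hp0]
  refine div_le_div_of_nonneg_right ?_ hp0.le
  rw [abs_le]
  constructor <;> linarith

theorem X_mean (C : Arr k D) (p : ℕ) (hp : p.Prime) (hC : Good C p) :
    |(1 / (p : ℝ)) * ∑ r ∈ range p, X C p r| ≤ k ^ 2 * D / (p : ℝ) ^ 2 := by
  have hp0 : (0 : ℝ) < p := by exact_mod_cast hp.pos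
  unfold X
  rw [← sum_div, abs_mul, abs_of_pos (by positivity : (0 : ℝ) < 1 / p), abs_div _ (p : ℝ), abs_of_pos hp0]
  have h1 := rts_sum C p hp hC
  calc 1 / (p : ℝ) * (|∑ r ∈ range p, (((rts C p r).card : ℝ) - k)| / p) ≤ 1 / (p : ℝ) * ((k ^ 2 * D) / p) := by gcongr
    _ = _ := by
        field_simp

theorem mgf_X (h : Model P a) (C : Arr k D) (p : ℕ) (hp : p.Prime) (hC : Good C p) (t : ℝ)
    (ht : |t| * (2 * K2 k D) ≤ p) :
    mgf (fun ω => X C p (a p ω)) P t ≤ Real.exp (|t| * (k ^ 2 * D / (p : ℝ) ^ 2) + 4 * t ^ 2 * K2 k D ^ 2 / p ^ 2) := by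
  have hp0 : (0 : ℝ) < p := by exact_mod_cast hp.pos
  have h1 : mgf (fun ω => X C p (a p ω)) P t = (1 / p) * ∑ r ∈ range p, Real.exp (t * X C p r) := by
    unfold mgf
    exact integral_class h p hp (fun r => Real.exp (t * X C p r))
  set μ : ℝ := (1 / (p : ℝ)) * ∑ r ∈ range p, X C p r with hμ
  have hK := K2_pos k D
  have hX : ∀ r, |X C p r| ≤ K2 k D / p := fun r => X_abs C p r hp hC
  have hμa : |μ| ≤ K2 k D / p := by
    rw [hμ, abs_mul, abs_of_pos (by positivity : (0 : ℝ) < 1 / p)]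
    calc 1 / (p : ℝ) * |∑ r ∈ range p, X C p r| ≤ 1 / (p : ℝ) * ∑ r ∈ range p, |X C p r| := by
          gcongr
          exact abs_sum_le_sum_abs _ _
      _ ≤ 1 / (p : ℝ) * ∑ _r ∈ range p, K2 k D / p := by
          gcongr with r _
          exact hX r
      _ = _ := by
          rw [sum_const, card_range, nsmul_eq_mul]
          field_simp
  have hdiff : ∀ r, |X C p r - μ| ≤ 2 * K2 k D / p := by
    intro r
    calc |X C p r - μ| ≤ |X C p r| + |μ| := abs_sub _ _
      _ ≤ K2 k D / p + K2 k D / p := add_le_add (hX r) hμa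
      _ = _ := by ring
  have h2 := exp_avg p hp.pos (fun r => t * (X C p r - μ)) (by
    rw [← mul_sum, sum_sub_distrib, sum_const, card_range, nsmul_eq_mul, hμ]
    field_simp
    ring) (by
    intro r _
    rw [abs_mul]
    calc |t| * |X C p r - μ| ≤ |t| * (2 * K2 k D / p) := by
          gcongr
          exact hdiff r
      _ = |t| * (2 * K2 k D) / p := by ring
      _ ≤ 1 := by rw [div_le_one hp0]; exact ht)
  have h3 : (1 / (p : ℝ)) * ∑ r ∈ range p, (t * (X C p r - μ)) ^ 2 ≤ 4 * t ^ 2 * K2 k D ^ 2 / p ^ 2 := by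
    have h4 : ∀ r ∈ range p, (t * (X C p r - μ)) ^ 2 ≤ 4 * t ^ 2 * K2 k D ^ 2 / p ^ 2 := by
      intro r _
      rw [mul_pow]
      have h5 : (X C p r - μ) ^ 2 ≤ (2 * K2 k D / p) ^ 2 := by
        rw [← sq_abs]
        exact pow_le_pow_left₀ (abs_nonneg _) (hdiff r) 2
      calc t ^ 2 * (X C p r - μ) ^ 2 ≤ t ^ 2 * (2 * K2 k D / p) ^ 2 := by gcongr
        _ = _ := by ring
    calc (1 / (p : ℝ)) * ∑ r ∈ range p, (t * (X C p r - μ)) ^ 2 ≤
          (1 / (p : ℝ)) * ∑ _r ∈ range p, 4 * t ^ 2 * K2 k D ^ 2 / p ^ 2 := by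
          gcongr with r hr
          exact h4 r hr
      _ = _ := by
          rw [sum_const, card_range, nsmul_eq_mul]
          field_simp
  have h4 : ∀ r, Real.exp (t * X C p r) = Real.exp (t * μ) * Real.exp (t * (X C p r - μ)) := by
    intro r
    rw [← Real.exp_add]
    congr 1
    ring
  rw [h1]
  simp only [h4]
  rw [← mul_sum, ← mul_assoc, mul_comm (1 / (p : ℝ)), mul_assoc, Real.exp_add]
  refine mul_le_mul ?_ (h2.trans (Real.exp_le_exp.2 h3)) (by positivity) (Real.exp_pos _).le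
  apply Real.exp_le_exp.2
  calc t * μ ≤ |t * μ| := le_abs_self _
    _ = |t| * |μ| := abs_mul _ _
    _ ≤ _ := mul_le_mul_of_nonneg_left (X_mean C p hp hC) (abs_nonneg _)

/-- one-sided bound -/
theorem tail_one (h : Model P a) (C : Arr k D) (u x : ℕ) (hu : 1 ≤ u) (hC : ∀ p, p.Prime → u < p → Good C p)
    (t lam : ℝ) (ht : t * (2 * K2 k D) ≤ u) (s : ℝ) (hs : s = 1 ∨ s = -1) (ht0 : 0 ≤ t) :
    P.real {ω | lam ≤ s * ∑ p ∈ (Ioc u x).filter Nat.Prime, X C p (a p ω)} ≤
      Real.exp (-(t * lam) + (t * (k ^ 2 * D) + 4 * t ^ 2 * K2 k D ^ 2) / u) := by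
  have hprob := prob h
  have hK := K2_pos k D
  set L := (Ioc u x).filter Nat.Prime with hL
  have hLp : ∀ p ∈ L, p.Prime ∧ u < p := fun p hp => by
    rw [hL, mem_filter, mem_Ioc] at hp
    exact ⟨hp.2, hp.1.1⟩
  have hmeas : ∀ p, Measurable (fun ω => X C p (a p ω)) := fun p =>
    (measurable_from_top (f := X C p)).comp (h.measurable p)
  have hind : iIndepFun (fun p ω => X C p (a p ω)) P :=
    h.independent.comp (fun p => X C p) (fun p => measurable_from_top)
  set Y : Ω → ℝ := ∑ p ∈ L, fun ω => X C p (a p ω) with hY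
  have hYe : ∀ ω, ∑ p ∈ L, X C p (a p ω) = Y ω := fun ω => by rw [hY, Finset.sum_apply]
  have hmgf : ∀ t' : ℝ, |t'| = t → mgf Y P t' ≤ Real.exp ((t * (k ^ 2 * D) + 4 * t ^ 2 * K2 k D ^ 2) / u) := by
    intro t' ht'
    have ht2 : t' ^ 2 = t ^ 2 := by rw [← sq_abs, ht']
    rw [hY, hind.mgf_sum hmeas L]
    calc ∏ p ∈ L, mgf (fun ω => X C p (a p ω)) P t' ≤
          ∏ p ∈ L, Real.exp ((t * (k ^ 2 * D) + 4 * t ^ 2 * K2 k D ^ 2) * (1 / (p : ℝ) ^ 2)) := by
          refine prod_le_prod (fun p _ => mgf_nonneg) fun p hp => ?_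
          obtain ⟨h1, h2⟩ := hLp p hp
          refine (mgf_X h C p h1 (hC p h1 h2) t' ?_).trans (le_of_eq ?_)
          · rw [ht']
            refine ht.trans ?_
            exact_mod_cast h2.le
          · rw [ht', ht2]
            congr 1
            ring
      _ = Real.exp (∑ p ∈ L, (t * (k ^ 2 * D) + 4 * t ^ 2 * K2 k D ^ 2) * (1 / (p : ℝ) ^ 2)) := (Real.exp_sum _ _).symm
      _ ≤ _ := by
          apply Real.exp_le_exp.2
          have h1 := sum_sq u x hu
          rw [← mul_sum, div_eq_mul_one_div]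
          refine mul_le_mul_of_nonneg_left h1 ?_
          have : 0 ≤ t * (k ^ 2 * D) := by positivity
          have : 0 ≤ 4 * t ^ 2 * K2 k D ^ 2 := by positivity
          linarith
  -- boundedness
  have hYb : ∀ ω, |Y ω| ≤ L.card * K2 k D := by
    intro ω
    rw [← hYe]
    calc |∑ p ∈ L, X C p (a p ω)| ≤ ∑ p ∈ L, |X C p (a p ω)| := abs_sum_le_sum_abs _ _
      _ ≤ ∑ p ∈ L, K2 k D := by
          refine sum_le_sum fun p hp => ?_
          obtain ⟨h1, h2⟩ := hLp p hp
          refine (X_abs C p _ h1 (hC p h1 h2)).trans ?_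
          rw [div_le_iff₀ (by exact_mod_cast h1.pos)]
          have : (1 : ℝ) ≤ p := by exact_mod_cast h1.one_le
          nlinarith
      _ = L.card * K2 k D := by simp
  have hYm : Measurable Y := by
    have e : Y = fun ω => ∑ p ∈ L, X C p (a p ω) := funext fun ω => (hYe ω).symm
    rw [e]
    exact Finset.measurable_sum _ fun p _ => hmeas p
  have hint : ∀ t : ℝ, Integrable (fun ω => Real.exp (t * Y ω)) P := by
    intro t
    refine Integrable.of_bound ((Real.measurable_exp.comp (hYm.const_mul t)).aestronglyMeasurable)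
      (Real.exp (|t| * (L.card * K2 k D))) (Eventually.of_forall fun ω => ?_)
    simp only [Real.norm_eq_abs, Real.abs_exp]
    apply Real.exp_le_exp.2
    calc t * Y ω ≤ |t * Y ω| := le_abs_self _
      _ = |t| * |Y ω| := abs_mul _ _
      _ ≤ _ := by gcongr; exact hYb ω
  rcases hs with hs | hs
  · subst hs
    simp only [one_mul, hYe]
    refine (measure_ge_le_exp_mul_mgf lam ht0 (hint t)).trans ?_
    calc Real.exp (-t * lam) * mgf Y P t ≤ Real.exp (-t * lam) * _ :=
          mul_le_mul_of_nonneg_left (hmgf t (abs_of_nonneg ht0)) (Real.exp_pos _).le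
      _ = _ := by
          rw [← Real.exp_add]
          congr 1
          ring
  · subst hs
    have e : {ω | lam ≤ -1 * ∑ p ∈ L, X C p (a p ω)} = {ω | Y ω ≤ -lam} := by
      ext ω
      simp only [Set.mem_ofPred_eq, hYe]
      constructor <;> intro h <;> linarith
    rw [e]
    refine (measure_le_le_exp_mul_mgf (-lam) (by linarith : -t ≤ 0) (hint (-t))).trans ?_
    calc Real.exp (-(-t) * -lam) * mgf Y P (-t) ≤ Real.exp (-(-t) * -lam) * _ :=
          mul_le_mul_of_nonneg_left (hmgf (-t) (by rw [abs_neg, abs_of_nonneg ht0])) (Real.exp_pos _).le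
      _ = _ := by
          rw [← Real.exp_add]
          congr 1
          ring

/-- the slope -/
noncomputable def tau (k D : ℕ) (ε : ℝ) : ℝ := ε / (8 * K2 k D ^ 2)

theorem tailP (h : Model P a) (C : Arr k D) (u x : ℕ) (hu : 1 ≤ u) (hC : ∀ p, p.Prime → u < p → Good C p)
    (ε : ℝ) (hε : 0 < ε) (hε1 : ε ≤ 1) :
    P.real {ω | ε ≤ |∑ p ∈ (Ioc u x).filter Nat.Prime, X C p (a p ω)|} ≤
      2 * Real.exp (-(tau k D ε * ε / 2) * u + tau k D ε * (k ^ 2 * D)) := by
  have hprob := prob h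
  have hK := K2_pos k D
  have hu1 : (1 : ℝ) ≤ u := by exact_mod_cast hu
  have hu0 : (0 : ℝ) < u := by linarith
  set τ := tau k D ε with hτ
  have hτ0 : 0 < τ := by
    rw [hτ]
    unfold tau
    positivity
  have hτe : τ * (8 * K2 k D ^ 2) = ε := by
    rw [hτ]
    unfold tau
    field_simp
  have h3 : -(τ * u * ε) + (τ * u * (k ^ 2 * D) + 4 * (τ * u) ^ 2 * K2 k D ^ 2) / u =
      -(τ * ε / 2) * u + τ * (k ^ 2 * D) := by
    have e1 : (τ * u * (k ^ 2 * D) + 4 * (τ * u) ^ 2 * K2 k D ^ 2) / u = τ * (k ^ 2 * D) + 4 * τ ^ 2 * u * K2 k D ^ 2 := by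
      field_simp
    rw [e1]
    have e2 : 4 * τ ^ 2 * u * K2 k D ^ 2 = τ * u * ε / 2 := by
      rw [← hτe]
      ring
    rw [e2]
    ring
  have ht : τ * u * (2 * K2 k D) ≤ u := by
    have h4 : τ * (2 * K2 k D) ≤ 1 := by
      have h5 : τ * (2 * K2 k D) ≤ τ * (8 * K2 k D ^ 2) := by
        refine mul_le_mul_of_nonneg_left ?_ hτ0.le
        nlinarith
      linarith
    calc τ * u * (2 * K2 k D) = (τ * (2 * K2 k D)) * u := by ring
      _ ≤ 1 * u := by gcongr
      _ = u := one_mul _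
  have h4 := tail_one h C u x hu hC (τ * u) ε ht 1 (Or.inl rfl) (by positivity)
  have h5 := tail_one h C u x hu hC (τ * u) ε ht (-1) (Or.inr rfl) (by positivity)
  rw [h3] at h4 h5
  have e : {ω | ε ≤ |∑ p ∈ (Ioc u x).filter Nat.Prime, X C p (a p ω)|} ⊆
      {ω | ε ≤ 1 * ∑ p ∈ (Ioc u x).filter Nat.Prime, X C p (a p ω)} ∪
      {ω | ε ≤ -1 * ∑ p ∈ (Ioc u x).filter Nat.Prime, X C p (a p ω)} := by
    intro ω hω
    rcases le_abs.1 (show ε ≤ |∑ p ∈ (Ioc u x).filter Nat.Prime, X C p (a p ω)| from hω) with h7 | h7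
    · left
      show ε ≤ 1 * _
      rwa [one_mul]
    · right
      show ε ≤ -1 * _
      rwa [neg_one_mul]
  calc P.real _ ≤ P.real _ := measureReal_mono e (measure_ne_top _ _)
    _ ≤ _ := measureReal_union_le _ _
    _ ≤ _ := by linarith

/-- **The tails of the local densities, uniformly in everything.** -/
theorem ev2 (h : Model P a) (k D A P0 : ℕ) (ε : ℝ) (hε : 0 < ε) (hε1 : ε ≤ 1) (w : ℕ → ℕ)
    (hw : Tendsto (fun x : ℕ => (w x : ℝ) / Real.log x) atTop atTop) :
    ∀ᵐ ω ∂P, ∀ᶠ x : ℕ in atTop, ∀ C ∈ box k D (x ^ A), (∀ p, p.Prime → P0 < p → Good C p) →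
      ∀ v ≤ x ^ A, |∑ p ∈ (Ioc (w x) v).filter Nat.Prime, X C p (a p ω)| < ε := by
  have hprob := prob h
  have hK := K2_pos k D
  have hτ0 : 0 < tau k D ε := by
    unfold tau
    positivity
  set M : ℕ := (A + 2) * ((D + 1) * k) + (A + 2) with hM
  set I : ℕ → Finset (Arr k D × ℕ) := fun x => box k D (x ^ A) ×ˢ range (x ^ A + 1) with hI
  set Q : ℕ → Arr k D × ℕ → Set Ω := fun x i =>
    {ω | (∀ p, p.Prime → P0 < p → Good i.1 p) ∧
      ε ≤ |∑ p ∈ (Ioc (w x) i.2).filter Nat.Prime, X i.1 p (a p ω)|} with hQ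
  have hcard : ∀ᶠ x : ℕ in atTop, ((I x).card : ℝ) ≤ (x : ℝ) ^ M := by
    filter_upwards [eventually_ge_atTop 2] with x hx
    have h1 : 2 * x ^ A + 1 ≤ x ^ (A + 2) := by
      have h2 : 1 ≤ x ^ A := Nat.one_le_pow _ _ (by omega)
      have h3 : 4 ≤ x ^ 2 := Nat.pow_le_pow_left hx 2
      calc 2 * x ^ A + 1 ≤ x ^ A * 4 := by omega
        _ ≤ x ^ A * x ^ 2 := Nat.mul_le_mul_left _ h3
        _ = x ^ (A + 2) := by rw [pow_add]
    have h2 : x ^ A + 1 ≤ x ^ (A + 2) := by omega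
    have h4 : (I x).card ≤ x ^ M := by
      rw [hI]
      simp only [card_product, card_box, card_range]
      calc (2 * x ^ A + 1) ^ ((D + 1) * k) * (x ^ A + 1)
          ≤ (x ^ (A + 2)) ^ ((D + 1) * k) * x ^ (A + 2) := by gcongr
        _ = x ^ M := by
            rw [hM, ← pow_mul]
            ring
    exact_mod_cast h4
  have hwtop : Tendsto w atTop atTop := by
    have h1 : Tendsto (fun x : ℕ => (w x : ℝ)) atTop atTop := by
      refine tendsto_atTop_mono' atTop ?_ hw
      filter_upwards [log_top.eventually_ge_atTop 1] with x hx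
      exact div_le_self (Nat.cast_nonneg _) hx
    exact tendsto_natCast_atTop_iff.1 h1
  have hbad : ∀ᶠ x : ℕ in atTop, ∀ i ∈ I x, P.real (Q x i) ≤ 1 / (x : ℝ) ^ (M + 2) := by
    filter_upwards [hw.eventually_ge_atTop (((M : ℝ) + 3 + tau k D ε * (k ^ 2 * D)) / (tau k D ε * ε / 2)),
      hwtop.eventually_ge_atTop (max 1 P0), log_top.eventually_ge_atTop 1, eventually_ge_atTop 2] with x h1 h2 h3 hx i hi
    have hx0 : (0 : ℝ) < x := by exact_mod_cast (show 0 < x by omega)
    have hx2 : (2 : ℝ) ≤ x := by exact_mod_cast hx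
    by_cases hcon : ∀ p, p.Prime → P0 < p → Good i.1 p
    · have h4 := tailP h i.1 (w x) i.2 ((le_max_left _ _).trans h2)
        (fun p hp hpw => hcon p hp (((le_max_right _ _).trans h2).trans_lt hpw)) ε hε hε1
      have h5 : Q x i ⊆ {ω | ε ≤ |∑ p ∈ (Ioc (w x) i.2).filter Nat.Prime, X i.1 p (a p ω)|} := fun ω hω => hω.2
      refine (measureReal_mono h5 (measure_ne_top _ _)).trans (h4.trans ?_)
      set L := Real.log x with hL
      have hc0 : 0 < tau k D ε * ε / 2 := by positivity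
      have hn0 : 0 ≤ tau k D ε * (k ^ 2 * D) := by positivity
      rw [div_le_iff₀ hc0, div_mul_eq_mul_div, le_div_iff₀ (by linarith)] at h1
      have h6 : -(tau k D ε * ε / 2) * (w x) + tau k D ε * (k ^ 2 * D) ≤ -(((M + 3 : ℕ) : ℝ) * L) := by
        push_cast
        nlinarith
      refine (mul_le_mul_of_nonneg_left (Real.exp_le_exp.2 h6) (by norm_num)).trans ?_
      have h13 : Real.exp (-(((M + 3 : ℕ) : ℝ) * L)) = 1 / (x : ℝ) ^ (M + 3) := by
        rw [Real.exp_neg, Real.exp_nat_mul, hL, Real.exp_log hx0, one_div]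
      have e9 : (x : ℝ) ^ (M + 3) = (x : ℝ) ^ (M + 2) * x := by ring
      have h14 := pow_pos hx0 (M + 2)
      rw [h13, e9, mul_one_div, div_le_div_iff₀ (by positivity) (by positivity)]
      nlinarith
    · have : Q x i = ∅ := by
        ext ω
        simp only [hQ, Set.mem_ofPred_eq, Set.mem_empty_iff_false, iff_false]
        exact fun h => hcon h.1
      rw [this, measureReal_empty]
      positivity
  filter_upwards [bcU I Q M hcard hbad] with ω hω
  filter_upwards [hω] with x hx C hCb hC v hv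
  by_contra hcon
  rw [not_lt] at hcon
  refine hx (C, v) ?_ ⟨hC, hcon⟩
  rw [hI]
  simp only [mem_product, mem_range]
  exact ⟨hCb, by omega⟩

end Pool.Agent.H559.HY
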