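import Mathlib

set_option autoImplicit false

/-! # A Tauberian theorem for Dirichlet series with logarithmic weights -/

open Finset Filter Topology

namespace Pool.Agent.H559.HY.CV

theorem abel_bound (a g : ℕ → ℝ) (m : ℕ) (C ε : ℝ) (_hε : 0 ≤ ε)
    (hA : ∀ n, |∑ k ∈ range (n + 1), a k| ≤ C + ε * n) (hg0 : ∀ n, m < n → 0 ≤ g n)
    (hg : ∀ n, m < n → g (n + 1) ≤ g n) (M : ℕ) (hM : m ≤ M) :
    |∑ n ∈ Ioc m M, a n * g n| ≤ 2 * (C + ε * m) * g (m + 1) + ε * ∑ n ∈ Ioc m M, g n := by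
  set A : ℕ → ℝ := fun n => ∑ k ∈ range (n + 1), a k with hAd
  have hstep : ∀ n, a (n + 1) = A (n + 1) - A n := by
    intro n
    simp only [hAd]
    rw [sum_range_succ _ (n + 1)]
    ring
  have key : ∀ M, m ≤ M → |∑ n ∈ Ioc m M, a n * g n - A M * g (M + 1)| ≤
      2 * (C + ε * m) * g (m + 1) + ε * ∑ n ∈ Ioc m M, g n - (C + ε * M) * g (M + 1) := by
    intro M hM
    induction M, hM using Nat.le_induction with
    | base =>
      simp only [Ioc_self, sum_empty, zero_sub, abs_neg, abs_mul, mul_zero, add_zero]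
      rw [abs_of_nonneg (hg0 (m + 1) (by omega))]
      have h1 := mul_le_mul_of_nonneg_right (hA m) (hg0 (m + 1) (by omega))
      linarith
    | succ M hM ih =>
      rw [sum_Ioc_succ_top hM, sum_Ioc_succ_top hM]
      have e1 : ∑ n ∈ Ioc m M, a n * g n + a (M + 1) * g (M + 1) - A (M + 1) * g (M + 1 + 1) =
          (∑ n ∈ Ioc m M, a n * g n - A M * g (M + 1)) + A (M + 1) * (g (M + 1) - g (M + 1 + 1)) := by
        rw [hstep]
        ring
      rw [e1]
      have h1 : 0 ≤ g (M + 1) - g (M + 1 + 1) := by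
        have := hg (M + 1) (by omega)
        linarith
      have h2 : |A (M + 1) * (g (M + 1) - g (M + 1 + 1))| ≤ (C + ε * ((M + 1 : ℕ) : ℝ)) * (g (M + 1) - g (M + 1 + 1)) := by
        rw [abs_mul, abs_of_nonneg h1]
        exact mul_le_mul_of_nonneg_right (hA (M + 1)) h1
      refine (abs_add_le _ _).trans ((add_le_add ih h2).trans (le_of_eq ?_))
      push_cast
      ring
  have h1 := key M hM
  have h2 : |A M * g (M + 1)| ≤ (C + ε * M) * g (M + 1) := by
    rw [abs_mul, abs_of_nonneg (hg0 (M + 1) (by omega))]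
    exact mul_le_mul_of_nonneg_right (hA M) (hg0 (M + 1) (by omega))
  have e : ∑ n ∈ Ioc m M, a n * g n = (∑ n ∈ Ioc m M, a n * g n - A M * g (M + 1)) + A M * g (M + 1) := by ring
  rw [e]
  refine (abs_add_le _ _).trans ((add_le_add h1 h2).trans (le_of_eq ?_))
  ring

theorem slope_le {σ u v : ℝ} (hu : 0 < u) (huv : u ≤ v) :
    (1 - Real.exp (-(σ * v))) / v ≤ (1 - Real.exp (-(σ * u))) / u := by
  have hv : 0 < v := lt_of_lt_of_le hu huv
  have ha : 0 ≤ 1 - u / v := by
    rw [sub_nonneg, div_le_one hv]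
    exact huv
  have hb : 0 ≤ u / v := by positivity
  have hab : 1 - u / v + u / v = 1 := by ring
  have h1 := convexOn_exp.2 (Set.mem_univ (0 : ℝ)) (Set.mem_univ (-(σ * v))) ha hb hab
  simp only [smul_eq_mul, mul_zero, zero_add, Real.exp_zero, mul_one] at h1
  have e1 : u / v * -(σ * v) = -(σ * u) := by field_simp
  rw [e1] at h1
  rw [div_le_div_iff₀ hv hu]
  have h2 : (1 - Real.exp (-(σ * v))) * u ≤ (1 - Real.exp (-(σ * u))) * v := by
    have h3 : u / v * v = u := by field_simp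
    have h4 := mul_le_mul_of_nonneg_right h1 hv.le
    have h5 : (1 - u / v + u / v * Real.exp (-(σ * v))) * v = v - u + u * Real.exp (-(σ * v)) := by
      field_simp
    rw [h5] at h4
    nlinarith
  exact h2

theorem one_sub_exp_le {t : ℝ} : 1 - Real.exp (-t) ≤ t := by
  have := Real.add_one_le_exp (-t)
  linarith

/-- the weight inside -/
noncomputable def gw (σ : ℝ) (n : ℕ) : ℝ := (1 - Real.exp (-(σ * Real.log n))) / Real.log n / n

/-- the weight outside -/
noncomputable def hw (σ : ℝ) (n : ℕ) : ℝ := Real.exp (-(σ * Real.log n)) / Real.log n / n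

theorem log_pos' {n : ℕ} (hn : 2 ≤ n) : 0 < Real.log n := Real.log_pos (by exact_mod_cast hn)

theorem gw_nonneg {σ : ℝ} (hσ : 0 ≤ σ) {n : ℕ} (hn : 2 ≤ n) : 0 ≤ gw σ n := by
  unfold gw
  have h1 := log_pos' hn
  have h2 : Real.exp (-(σ * Real.log n)) ≤ 1 := by
    rw [Real.exp_le_one_iff]
    have : 0 ≤ σ * Real.log n := by positivity
    linarith
  have h3 : 0 ≤ 1 - Real.exp (-(σ * Real.log n)) := by linarith
  positivity

theorem gw_le {σ : ℝ} {n : ℕ} (hn : 2 ≤ n) : gw σ n ≤ σ / n := by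
  unfold gw
  have h1 := log_pos' hn
  have h2 : (1 - Real.exp (-(σ * Real.log n))) / Real.log n ≤ σ := by
    rw [div_le_iff₀ h1]
    exact one_sub_exp_le
  gcongr

theorem gw_anti {σ : ℝ} (hσ : 0 ≤ σ) {n : ℕ} (hn : 2 ≤ n) : gw σ (n + 1) ≤ gw σ n := by
  have h0 := gw_nonneg hσ (n := n + 1) (by omega)
  have hn0 : (0 : ℝ) < n := by positivity
  unfold gw at h0 ⊢
  have h1 := log_pos' hn
  have h2 : Real.log n ≤ Real.log ((n + 1 : ℕ) : ℝ) := Real.log_le_log hn0 (by push_cast; linarith)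
  have h3 := slope_le (σ := σ) h1 h2
  have h4 : (n : ℝ) ≤ ((n + 1 : ℕ) : ℝ) := by push_cast; linarith
  have h6 := log_pos' (n := n + 1) (by omega)
  have h5 : 0 ≤ (1 - Real.exp (-(σ * Real.log ((n + 1 : ℕ) : ℝ)))) / Real.log ((n + 1 : ℕ) : ℝ) := by
    have h7 : Real.exp (-(σ * Real.log ((n + 1 : ℕ) : ℝ))) ≤ 1 := by
      rw [Real.exp_le_one_iff]
      have : 0 ≤ σ * Real.log ((n + 1 : ℕ) : ℝ) := by positivity
      linarith
    exact div_nonneg (by linarith) h6.le
  exact div_le_div₀ (h5.trans h3) h3 hn0 h4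

theorem hw_nonneg {σ : ℝ} {n : ℕ} (hn : 2 ≤ n) : 0 ≤ hw σ n := by
  unfold hw
  have h1 := log_pos' hn
  positivity

theorem hw_anti {σ : ℝ} (hσ : 0 ≤ σ) {n : ℕ} (hn : 2 ≤ n) : hw σ (n + 1) ≤ hw σ n := by
  have hn0 : (0 : ℝ) < n := by positivity
  unfold hw
  have h1 := log_pos' hn
  have h2 : Real.log n ≤ Real.log ((n + 1 : ℕ) : ℝ) := Real.log_le_log hn0 (by push_cast; linarith)
  have h4 : (n : ℝ) ≤ ((n + 1 : ℕ) : ℝ) := by push_cast; linarith
  gcongr

theorem hw_le {σ : ℝ} (hσ : 0 ≤ σ) {n : ℕ} (hn : 2 ≤ n) : hw σ n ≤ 1 / Real.log n / n := by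
  unfold hw
  have h1 := log_pos' hn
  have h2 : Real.exp (-(σ * Real.log n)) ≤ 1 := by
    rw [Real.exp_le_one_iff]
    have : 0 ≤ σ * Real.log n := by positivity
    linarith
  gcongr

/-- one step of the tail -/
theorem tail_step {σ : ℝ} (hσ : 0 < σ) {n : ℕ} (hn : 1 ≤ n) :
    Real.exp (-(σ * Real.log ((n + 1 : ℕ) : ℝ))) / ((n + 1 : ℕ) : ℝ) ≤
      (Real.exp (-(σ * Real.log n)) - Real.exp (-(σ * Real.log ((n + 1 : ℕ) : ℝ)))) / σ := by
  have hn0 : (0 : ℝ) < n := by exact_mod_cast hn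
  have hn1 : (0 : ℝ) < ((n + 1 : ℕ) : ℝ) := by positivity
  have h1 : Real.log n ≤ Real.log ((n + 1 : ℕ) : ℝ) - 1 / ((n + 1 : ℕ) : ℝ) := by
    have h2 := Real.log_le_sub_one_of_pos (x := (n : ℝ) / ((n + 1 : ℕ) : ℝ)) (by positivity)
    rw [Real.log_div hn0.ne' hn1.ne'] at h2
    have h3 : (n : ℝ) / ((n + 1 : ℕ) : ℝ) - 1 = -(1 / ((n + 1 : ℕ) : ℝ)) := by
      field_simp
      push_cast
      ring
    linarith
  have h2 : Real.exp (-(σ * Real.log ((n + 1 : ℕ) : ℝ))) * (1 + σ / ((n + 1 : ℕ) : ℝ)) ≤ Real.exp (-(σ * Real.log n)) := by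
    have h3 : 1 + σ / ((n + 1 : ℕ) : ℝ) ≤ Real.exp (σ / ((n + 1 : ℕ) : ℝ)) := by
      have := Real.add_one_le_exp (σ / ((n + 1 : ℕ) : ℝ))
      linarith
    calc Real.exp (-(σ * Real.log ((n + 1 : ℕ) : ℝ))) * (1 + σ / ((n + 1 : ℕ) : ℝ))
        ≤ Real.exp (-(σ * Real.log ((n + 1 : ℕ) : ℝ))) * Real.exp (σ / ((n + 1 : ℕ) : ℝ)) := by gcongr
      _ = Real.exp (-(σ * Real.log ((n + 1 : ℕ) : ℝ)) + σ / ((n + 1 : ℕ) : ℝ)) := by rw [Real.exp_add]
      _ ≤ Real.exp (-(σ * Real.log n)) := by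
          rw [Real.exp_le_exp]
          have := mul_le_mul_of_nonneg_left h1 hσ.le
          have e : σ * (Real.log ((n + 1 : ℕ) : ℝ) - 1 / ((n + 1 : ℕ) : ℝ)) =
            σ * Real.log ((n + 1 : ℕ) : ℝ) - σ / ((n + 1 : ℕ) : ℝ) := by ring
          rw [e] at this
          linarith
  rw [le_div_iff₀ hσ]
  have e : Real.exp (-(σ * Real.log ((n + 1 : ℕ) : ℝ))) * (1 + σ / ((n + 1 : ℕ) : ℝ)) =
      Real.exp (-(σ * Real.log ((n + 1 : ℕ) : ℝ))) + Real.exp (-(σ * Real.log ((n + 1 : ℕ) : ℝ))) / ((n + 1 : ℕ) : ℝ) * σ := by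
    ring
  rw [e] at h2
  linarith

theorem tail_sum {σ : ℝ} (hσ : 0 < σ) {N : ℕ} (hN : 2 ≤ N) (M : ℕ) (hM : N ≤ M) :
    ∑ n ∈ Ioc N M, hw σ n ≤ 1 / (σ * Real.log N) := by
  have hl := log_pos' hN
  have h1 : ∀ M, N ≤ M → ∑ n ∈ Ioc N M, Real.exp (-(σ * Real.log n)) / n ≤
      (Real.exp (-(σ * Real.log N)) - Real.exp (-(σ * Real.log M))) / σ := by
    intro M hM
    induction M, hM using Nat.le_induction with
    | base => simp
    | succ M hM ih =>
      rw [sum_Ioc_succ_top hM]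
      have := tail_step hσ (n := M) (by omega)
      refine (add_le_add ih this).trans (le_of_eq ?_)
      ring
  have h2 : ∑ n ∈ Ioc N M, hw σ n ≤ (1 / Real.log N) * ∑ n ∈ Ioc N M, Real.exp (-(σ * Real.log n)) / n := by
    rw [mul_sum]
    refine sum_le_sum fun n hn => ?_
    rw [mem_Ioc] at hn
    have hn0 : (0 : ℝ) < n := by
      have : 0 < n := by omega
      exact_mod_cast this
    have hln : Real.log N ≤ Real.log n := Real.log_le_log (by positivity) (by exact_mod_cast hn.1.le)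
    unfold hw
    have : Real.exp (-(σ * Real.log n)) / Real.log n / n ≤ Real.exp (-(σ * Real.log n)) / Real.log N / n := by gcongr
    refine this.trans (le_of_eq ?_)
    ring
  have h3 := h1 M hM
  have h4 : Real.exp (-(σ * Real.log N)) ≤ 1 := by
    rw [Real.exp_le_one_iff]
    have : 0 ≤ σ * Real.log N := by positivity
    linarith
  have h5 : (Real.exp (-(σ * Real.log N)) - Real.exp (-(σ * Real.log M))) / σ ≤ 1 / σ := by
    have := Real.exp_pos (-(σ * Real.log M))
    gcongr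
    linarith
  calc ∑ n ∈ Ioc N M, hw σ n ≤ (1 / Real.log N) * (1 / σ) := h2.trans (by
        have := h3.trans h5
        gcongr)
    _ = 1 / (σ * Real.log N) := by
        field_simp

theorem harm_le (N : ℕ) (hN : 1 ≤ N) : ∑ n ∈ Ioc 1 N, (1 : ℝ) / n ≤ Real.log N := by
  induction N, hN using Nat.le_induction with
  | base => simp
  | succ N hN ih =>
    rw [sum_Ioc_succ_top hN]
    have hn0 : (0 : ℝ) < N := by exact_mod_cast hN
    have hn1 : (0 : ℝ) < ((N + 1 : ℕ) : ℝ) := by positivity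
    have h2 := Real.log_le_sub_one_of_pos (x := (N : ℝ) / ((N + 1 : ℕ) : ℝ)) (by positivity)
    rw [Real.log_div hn0.ne' hn1.ne'] at h2
    have h3 : (N : ℝ) / ((N + 1 : ℕ) : ℝ) - 1 = -(1 / ((N + 1 : ℕ) : ℝ)) := by
      field_simp
      push_cast
      ring
    linarith

/-- **The Tauberian theorem.** -/
theorem tauber (a : ℕ → ℝ) (hA : Tendsto (fun n : ℕ => (∑ k ∈ range (n + 1), a k) / (n : ℝ)) atTop (𝓝 0))
    (D : ℝ → ℝ) (L : ℝ) (hD : Tendsto D (𝓝[>] 0) (𝓝 L))
    (hsum : ∀ σ : ℝ, 0 < σ → HasSum (fun n : ℕ => if 2 ≤ n then a n * hw σ n else 0) (D σ)) :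
    Tendsto (fun N : ℕ => ∑ n ∈ Ioc 1 N, a n * (1 / Real.log n / n)) atTop (𝓝 L) := by
  have hlog : Tendsto (fun n : ℕ => Real.log n) atTop atTop := Real.tendsto_log_atTop.comp tendsto_natCast_atTop_atTop
  have hσlim : Tendsto (fun N : ℕ => 1 / Real.log N) atTop (𝓝[>] 0) := by
    rw [tendsto_nhdsWithin_iff]
    refine ⟨tendsto_const_nhds.div_atTop hlog, ?_⟩
    filter_upwards [eventually_ge_atTop 2] with N hN
    have := log_pos' hN
    simp only [Set.mem_Ioi]
    positivity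
  have hDlim := hD.comp hσlim
  -- the difference
  have hdiff : Tendsto (fun N : ℕ => ∑ n ∈ Ioc 1 N, a n * (1 / Real.log n / n) - D (1 / Real.log N)) atTop (𝓝 0) := by
    rw [Metric.tendsto_nhds]
    intro ε0 hε0
    set ε : ℝ := ε0 / 5 with hε
    have hεp : 0 < ε := by positivity
    obtain ⟨C, hC0, hC⟩ : ∃ C : ℝ, 0 ≤ C ∧ ∀ n : ℕ, |∑ k ∈ range (n + 1), a k| ≤ C + ε * n := by
      have h1 : ∀ᶠ n : ℕ in atTop, |∑ k ∈ range (n + 1), a k| ≤ ε * n := by
        rw [Metric.tendsto_nhds] at hA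
        filter_upwards [hA ε hεp, eventually_ge_atTop 1] with n h2 h3
        have hn0 : (0 : ℝ) < n := by exact_mod_cast h3
        rw [Real.dist_eq, sub_zero, abs_div, abs_of_pos hn0, div_lt_iff₀ hn0] at h2
        exact h2.le
      obtain ⟨n0, hn0⟩ := eventually_atTop.1 h1
      refine ⟨∑ n ∈ range n0, |∑ k ∈ range (n + 1), a k|, sum_nonneg fun _ _ => abs_nonneg _, fun n => ?_⟩
      rcases lt_or_ge n n0 with h2 | h2
      · have h3 := single_le_sum (f := fun n => |∑ k ∈ range (n + 1), a k|) (fun _ _ => abs_nonneg _)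
          (mem_range.2 h2)
        have h4 : 0 ≤ ε * (n : ℝ) := by positivity
        linarith
      · have h3 : (0 : ℝ) ≤ ∑ n ∈ range n0, |∑ k ∈ range (n + 1), a k| := sum_nonneg fun _ _ => abs_nonneg _
        have := hn0 n h2
        linarith
    have hbd : ∀ N : ℕ, 2 ≤ N → |∑ n ∈ Ioc 1 N, a n * (1 / Real.log n / n) - D (1 / Real.log N)| ≤
        2 * (C + ε) * (1 / Real.log N) + ε + (2 * C * (1 / Real.log N) + 2 * ε * (1 / Real.log N)) + ε := by
      intro N hN
      have hl := log_pos' hN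
      set σ : ℝ := 1 / Real.log N with hσ
      have hσ0 : 0 < σ := by positivity
      have hN0 : (0 : ℝ) < N := by positivity
      have hN1 : (1 : ℝ) ≤ N := by exact_mod_cast (by omega : 1 ≤ N)
      -- inside
      have hin : |∑ n ∈ Ioc 1 N, a n * gw σ n| ≤ 2 * (C + ε) * σ + ε := by
        have h1 := abel_bound a (gw σ) 1 C ε hεp.le hC (fun n hn => gw_nonneg hσ0.le (by omega))
          (fun n hn => gw_anti hσ0.le (by omega)) N (by omega)
        have h2 : gw σ (1 + 1) ≤ σ := by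
          refine (gw_le (by norm_num)).trans ?_
          have : σ / ((1 + 1 : ℕ) : ℝ) ≤ σ := by
            rw [div_le_iff₀ (by positivity)]
            push_cast
            linarith
          exact this
        have h3 : ∑ n ∈ Ioc 1 N, gw σ n ≤ 1 := by
          calc ∑ n ∈ Ioc 1 N, gw σ n ≤ ∑ n ∈ Ioc 1 N, σ * (1 / (n : ℝ)) := by
                refine sum_le_sum fun n hn => ?_
                rw [mem_Ioc] at hn
                refine (gw_le (by omega)).trans (le_of_eq ?_)
                ring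
            _ ≤ σ * Real.log N := by
                rw [← mul_sum]
                exact mul_le_mul_of_nonneg_left (harm_le N (by omega)) hσ0.le
            _ = 1 := by rw [hσ]; field_simp
        rw [Nat.cast_one, mul_one] at h1
        refine h1.trans ?_
        have h4 : 2 * (C + ε) * gw σ (1 + 1) ≤ 2 * (C + ε) * σ := by gcongr
        have h5 : ε * ∑ n ∈ Ioc 1 N, gw σ n ≤ ε * 1 := by gcongr
        linarith
      -- outside
      have hout : |D σ - ∑ n ∈ Ioc 1 N, a n * hw σ n| ≤ (2 * C * σ + 2 * ε * σ) + ε := by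
        have h1 := (hsum σ hσ0).tendsto_sum_nat
        have h2 : Tendsto (fun M : ℕ => |(∑ n ∈ range (M + 1), if 2 ≤ n then a n * hw σ n else 0) -
            ∑ n ∈ Ioc 1 N, a n * hw σ n|) atTop (𝓝 |D σ - ∑ n ∈ Ioc 1 N, a n * hw σ n|) :=
          ((h1.comp (tendsto_add_atTop_nat 1)).sub tendsto_const_nhds).abs
        refine le_of_tendsto h2 ?_
        filter_upwards [eventually_ge_atTop N] with M hM
        have e1 : ∑ n ∈ range (M + 1), (if 2 ≤ n then a n * hw σ n else 0) =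
            ∑ n ∈ Ioc 1 N, a n * hw σ n + ∑ n ∈ Ioc N M, a n * hw σ n := by
          rw [← sum_filter]
          have e2 : (range (M + 1)).filter (fun n => 2 ≤ n) = Ioc 1 N ∪ Ioc N M := by
            ext n
            simp only [mem_filter, mem_range, mem_union, mem_Ioc]
            omega
          rw [e2, sum_union]
          rw [disjoint_left]
          intro n h3 h4
          rw [mem_Ioc] at h3 h4
          omega
        rw [e1, add_sub_cancel_left]
        have h3 := abel_bound a (hw σ) N C ε hεp.le hC (fun n hn => hw_nonneg (by omega))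
          (fun n hn => hw_anti hσ0.le (by omega)) M hM
        have h4 : hw σ (N + 1) ≤ σ / N := by
          refine (hw_le hσ0.le (by omega)).trans ?_
          rw [hσ]
          have h5 : Real.log N ≤ Real.log ((N + 1 : ℕ) : ℝ) := Real.log_le_log hN0 (by push_cast; linarith)
          have h6 : (N : ℝ) ≤ ((N + 1 : ℕ) : ℝ) := by push_cast; linarith
          gcongr
        have h5 : ∑ n ∈ Ioc N M, hw σ n ≤ 1 := by
          refine (tail_sum hσ0 hN M hM).trans (le_of_eq ?_)
          rw [hσ]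
          field_simp
        refine h3.trans ?_
        have h6 : 2 * (C + ε * N) * hw σ (N + 1) ≤ 2 * (C + ε * N) * (σ / N) := by gcongr
        have h7 : 2 * (C + ε * N) * (σ / N) ≤ 2 * C * σ + 2 * ε * σ := by
          have h8 : 2 * (C + ε * N) * (σ / N) = 2 * C * σ * (1 / N) + 2 * ε * σ := by
            field_simp
          rw [h8]
          have h9 : 1 / (N : ℝ) ≤ 1 := by
            rw [div_le_one hN0]
            exact hN1
          have h10 : 2 * C * σ * (1 / N) ≤ 2 * C * σ * 1 := by gcongr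
          linarith
        have h8 : ε * ∑ n ∈ Ioc N M, hw σ n ≤ ε * 1 := by gcongr
        linarith
      have e : ∑ n ∈ Ioc 1 N, a n * (1 / Real.log n / n) - D σ =
          ∑ n ∈ Ioc 1 N, a n * gw σ n - (D σ - ∑ n ∈ Ioc 1 N, a n * hw σ n) := by
        have e1 : ∑ n ∈ Ioc 1 N, a n * (1 / Real.log n / n) =
            ∑ n ∈ Ioc 1 N, a n * gw σ n + ∑ n ∈ Ioc 1 N, a n * hw σ n := by
          rw [← sum_add_distrib]
          refine sum_congr rfl fun n _ => ?_
          unfold gw hw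
          ring
        rw [e1]
        ring
      rw [e]
      refine (abs_sub _ _).trans ?_
      linarith
    have hlim : Tendsto (fun N : ℕ => 2 * (C + ε) * (1 / Real.log N) + ε + (2 * C * (1 / Real.log N) +
        2 * ε * (1 / Real.log N)) + ε) atTop (𝓝 (2 * (C + ε) * 0 + ε + (2 * C * 0 + 2 * ε * 0) + ε)) := by
      have h1 : Tendsto (fun N : ℕ => 1 / Real.log N) atTop (𝓝 0) := tendsto_const_nhds.div_atTop hlog
      exact (((h1.const_mul _).add tendsto_const_nhds).add ((h1.const_mul _).add (h1.const_mul _))).add tendsto_const_nhds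
    have hlt : 2 * (C + ε) * 0 + ε + (2 * C * 0 + 2 * ε * 0) + ε < ε0 := by
      rw [hε]
      linarith
    filter_upwards [hlim.eventually_lt_const hlt, eventually_ge_atTop 2] with N h1 h2
    rw [Real.dist_eq, sub_zero]
    exact lt_of_le_of_lt (hbd N h2) h1
  have h := hdiff.add hDlim
  rw [zero_add] at h
  refine h.congr fun N => ?_
  simp only [Function.comp_apply]
  ring

end Pool.Agent.H559.HY.CV
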