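import Pool.Graph.R_seed8.H332R2.PIT.Main
import Pool.Graph.R_seed8.H484R2.Zeta
import Pool.Agent.H559.HY.Tauber
import Mathlib.NumberTheory.LSeries.PrimesInAP

set_option autoImplicit false
set_option linter.unusedSectionVars false

/-! # The prime sum of a number field at the edge -/

open Filter Topology NumberField Pool.Agent.H921R2.TatePole H332.PIT

namespace Pool.Agent.H559.HY.CV

section
variable (K : Type) [Field K] [NumberField K]

/-- the number of homomorphisms to `𝔽_p`, zero if `p` is not a prime -/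
noncomputable def cK (n : ℕ) : ℝ := if n.Prime then (Nat.card (𝓞 K →+* ZMod n) : ℝ) else 0

theorem cK_nonneg (n : ℕ) : 0 ≤ cK K n := by
  unfold cK
  split_ifs
  · positivity
  · exact le_rfl

theorem cK_le (n : ℕ) : cK K n ≤ Module.finrank ℚ K := by
  unfold cK
  split_ifs with h
  · exact hc_cast_le h
  · positivity

theorem cK_zero : cK K 0 = 0 := by
  unfold cK
  rw [if_neg Nat.not_prime_zero]

/-- the prime sum -/
noncomputable def PK (x : ℝ) : ℝ := ∑' n : ℕ, cK K n * (n : ℝ) ^ (-x)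

theorem term_cK (x : ℝ) (n : ℕ) : LSeries.term (fun n => (cK K n : ℂ)) (x : ℂ) n = ((cK K n * (n : ℝ) ^ (-x) : ℝ) : ℂ) := by
  rcases eq_or_ne n 0 with rfl | hn
  · simp [cK_zero]
  · rw [LSeries.term_of_ne_zero hn, div_eq_mul_inv]
    push_cast
    rw [Complex.ofReal_cpow (by positivity)]
    push_cast
    rw [Complex.cpow_neg]

theorem LSeries_cK (x : ℝ) : LSeries (fun n => (cK K n : ℂ)) (x : ℂ) = ((PK K x : ℝ) : ℂ) := by
  unfold LSeries PK
  rw [Complex.ofReal_tsum]
  exact tsum_congr fun n => term_cK K x n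

theorem cK_summable' {s : ℂ} (hs : 1 < s.re) : LSeriesSummable (fun n => (cK K n : ℂ)) s := by
  refine LSeriesSummable_of_le_const_mul_rpow (x := 1) hs ⟨Module.finrank ℚ K, fun n _ => ?_⟩
  rw [Complex.norm_real, Real.norm_of_nonneg (cK_nonneg K n), sub_self, Real.rpow_zero, mul_one]
  exact cK_le K n

theorem cK_summable {x : ℝ} (hx : 1 < x) : Summable (fun n : ℕ => cK K n * (n : ℝ) ^ (-x)) := by
  have h := cK_summable' K (s := (x : ℂ)) (by simpa using hx)
  unfold LSeriesSummable at h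
  have h2 : Summable (fun n : ℕ => ((cK K n * (n : ℝ) ^ (-x) : ℝ) : ℂ)) := h.congr fun n => term_cK K x n
  exact_mod_cast h2

theorem absc_cK : LSeries.abscissaOfAbsConv (fun n => (cK K n : ℂ)) ≤ 1 := by
  refine LSeries.abscissaOfAbsConv_le_of_forall_lt_LSeriesSummable (x := 1) fun y hy => ?_
  exact cK_summable' K (by simpa using hy)

/-- the function without the pole -/
noncomputable def hK (x : ℝ) : ℝ := Real.log (ZK K x) - PK K x

theorem hK_deriv {x : ℝ} (hx : 1 < x) :
    HasDerivAt (hK K) (-(LL K (x : ℂ) - LSeries (LSeries.logMul fun n => (cK K n : ℂ)) (x : ℂ)).re) x := by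
  have hs : (1 : ℝ) < ((x : ℝ) : ℂ).re := by simpa using hx
  have h1 : HasDerivAt (fun y : ℝ => (dedekindZeta K (y : ℂ)).re) (deriv (dedekindZeta K) (x : ℂ)).re x :=
    (zeta_diffAt hs).hasDerivAt.real_of_complex
  have h2 : HasDerivAt (fun y : ℝ => (LSeries (fun n => (cK K n : ℂ)) (y : ℂ)).re)
      (-LSeries (LSeries.logMul fun n => (cK K n : ℂ)) (x : ℂ)).re x :=
    (LSeries_hasDerivAt (one_lt_re (absc_cK K) hs)).real_of_complex
  have e1 : (fun y : ℝ => (dedekindZeta K (y : ℂ)).re) = ZK K := by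
    funext y
    rw [dedekindZeta_real, Complex.ofReal_re]
  have e2 : (fun y : ℝ => (LSeries (fun n => (cK K n : ℂ)) (y : ℂ)).re) = PK K := by
    funext y
    rw [LSeries_cK, Complex.ofReal_re]
  rw [e1] at h1
  rw [e2] at h2
  have hpos : 0 < ZK K x := lt_of_lt_of_le one_pos (one_le_ZK hx)
  have h3 := (h1.log hpos.ne').sub h2
  have e3 : (deriv (dedekindZeta K) (x : ℂ)).re / ZK K x - (-LSeries (LSeries.logMul fun n => (cK K n : ℂ)) (x : ℂ)).re =
      -(LL K (x : ℂ) - LSeries (LSeries.logMul fun n => (cK K n : ℂ)) (x : ℂ)).re := by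
    rw [deriv_zeta hs, dedekindZeta_real, Complex.neg_re, Complex.re_mul_ofReal, Complex.neg_re, Complex.sub_re]
    field_simp
    ring
  rw [e3] at h3
  exact h3

/-- the sum of `Λ(n)/n` over the `n` which are not primes -/
noncomputable def npr (n : ℕ) : ℝ := (if n.Prime then 0 else ArithmeticFunction.vonMangoldt n) / n

theorem npr_summable : Summable npr := by
  have h := ArithmeticFunction.vonMangoldt.summable_residueClass_non_primes_div (q := 1) (a := 0)
  refine h.congr fun n => ?_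
  unfold npr ArithmeticFunction.vonMangoldt.residueClass
  rw [Set.indicator_of_mem]
  exact Subsingleton.elim _ _

theorem npr_nonneg (n : ℕ) : 0 ≤ npr n := by
  unfold npr
  split_ifs
  · simp
  · exact div_nonneg ArithmeticFunction.vonMangoldt_nonneg (Nat.cast_nonneg _)

theorem deriv_bound {x : ℝ} (hx : 1 < x) :
    |(-(LL K (x : ℂ) - LSeries (LSeries.logMul fun n => (cK K n : ℂ)) (x : ℂ)).re)| ≤
      (Module.finrank ℚ K : ℝ) ^ 2 * ∑' n, npr n := by
  have hs : (1 : ℝ) < ((x : ℝ) : ℂ).re := by simpa using hx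
  have hL1 := LamK_summable (K := K) hs
  have hL2 : LSeriesSummable (LSeries.logMul fun n => (cK K n : ℂ)) (x : ℂ) :=
    LSeriesSummable_logMul_of_lt_re (one_lt_re (absc_cK K) hs)
  rw [abs_neg]
  refine (Complex.abs_re_le_norm _).trans ?_
  unfold LL
  rw [← LSeries_sub hL1 hL2]
  unfold LSeries
  refine tsum_of_norm_bounded (g := fun n => (Module.finrank ℚ K : ℝ) ^ 2 * npr n) (npr_summable.hasSum.mul_left _) fun n => ?_
  rcases eq_or_ne n 0 with rfl | hn
  · rw [LSeries.term_zero, norm_zero]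
    exact mul_nonneg (by positivity) (npr_nonneg 0)
  · rw [LSeries.term_of_ne_zero hn, Pi.sub_apply]
    unfold LSeries.logMul
    have hn0 : (0 : ℝ) < n := by
      have : 0 < n := Nat.pos_of_ne_zero hn
      exact_mod_cast this
    have e1 : ‖(n : ℂ) ^ ((x : ℝ) : ℂ)‖ = (n : ℝ) ^ x := by
      rw [Complex.norm_natCast_cpow_of_pos (Nat.pos_of_ne_zero hn)]
      simp
    rw [norm_div, e1]
    have h3 : Complex.log (n : ℂ) = ((Real.log n : ℝ) : ℂ) := (Complex.natCast_log).symm
    rw [h3]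
    have hle : (n : ℝ) ≤ (n : ℝ) ^ x := by
      calc (n : ℝ) = (n : ℝ) ^ (1 : ℝ) := (Real.rpow_one _).symm
        _ ≤ (n : ℝ) ^ x := Real.rpow_le_rpow_of_exponent_le (by
          have : 1 ≤ n := Nat.pos_of_ne_zero hn
          exact_mod_cast this) hx.le
    unfold npr
    by_cases hp : n.Prime
    · have e2 : (LamK K n : ℂ) - ((Real.log n : ℝ) : ℂ) * (cK K n : ℂ) = 0 := by
        rw [LamK_prime' hp]
        unfold cK
        rw [if_pos hp]
        push_cast
        ring
      rw [e2, norm_zero, if_pos hp]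
      simp
    · have e2 : (LamK K n : ℂ) - ((Real.log n : ℝ) : ℂ) * (cK K n : ℂ) = (LamK K n : ℂ) := by
        unfold cK
        rw [if_neg hp]
        simp
      rw [e2, if_neg hp, Complex.norm_real, Real.norm_of_nonneg (LamK_nonneg n), ← mul_div_assoc]
      exact div_le_div₀ (mul_nonneg (by positivity) ArithmeticFunction.vonMangoldt_nonneg) (LamK_le n) hn0 hle

theorem hK_lim : ∃ l : ℝ, Tendsto (hK K) (𝓝[>] 1) (𝓝 l) := by
  set M : ℝ := (Module.finrank ℚ K : ℝ) ^ 2 * ∑' n, npr n with hM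
  have hM0 : 0 ≤ M := mul_nonneg (by positivity) (tsum_nonneg npr_nonneg)
  have hlip : LipschitzOnWith ⟨M, hM0⟩ (hK K) (Set.Ioi 1) := by
    refine Convex.lipschitzOnWith_of_nnnorm_hasDerivWithin_le (convex_Ioi 1)
      (f' := fun x : ℝ => (-(LL K (x : ℂ) - LSeries (LSeries.logMul fun n => (cK K n : ℂ)) (x : ℂ)).re)) ?_ ?_
    · intro x hx
      exact (hK_deriv K hx).hasDerivWithinAt
    · intro x hx
      rw [← NNReal.coe_le_coe, coe_nnnorm, Real.norm_eq_abs]
      exact deriv_bound K hx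
  obtain ⟨g, hg, hgeq⟩ := hlip.extend_real
  refine ⟨g 1, ?_⟩
  have h1 : Tendsto g (𝓝[>] 1) (𝓝 (g 1)) := hg.continuous.continuousAt.tendsto.mono_left nhdsWithin_le_nhds
  refine h1.congr' ?_
  filter_upwards [self_mem_nhdsWithin] with x hx
  exact (hgeq hx).symm

/-- `∑ R(p) p^{-x} - log (1/(x-1))` converges -/
theorem PK_lim : ∃ l : ℝ, Tendsto (fun x => PK K x - Lam x) (𝓝[>] 1) (𝓝 l) := by
  obtain ⟨l, hl⟩ := hK_lim K
  have h1 := ((ZK_tendsto (K := K)).log (dedekindZeta_residue_ne_zero K))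
  refine ⟨Real.log (dedekindZeta_residue K) - l, (h1.sub hl).congr' ?_⟩
  filter_upwards [self_mem_nhdsWithin] with x hx
  have hx' : 0 < x - 1 := sub_pos.2 hx
  have hpos : 0 < ZK K x := lt_of_lt_of_le one_pos (one_le_ZK hx)
  rw [Real.log_mul hx'.ne' hpos.ne']
  unfold hK Lam
  rw [one_div, Real.log_inv]
  ring

end

theorem card_rat (p : ℕ) : Nat.card (𝓞 ℚ →+* ZMod p) = 1 := by
  have e : (𝓞 ℚ →+* ZMod p) ≃ (ℤ →+* ZMod p) :=
    { toFun := fun φ => φ.comp (Rat.ringOfIntegersEquiv.symm : ℤ ≃+* 𝓞 ℚ).toRingHom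
      invFun := fun ψ => ψ.comp (Rat.ringOfIntegersEquiv : 𝓞 ℚ ≃+* ℤ).toRingHom
      left_inv := fun φ => by
        refine RingHom.ext fun x => ?_
        change φ (Rat.ringOfIntegersEquiv.symm (Rat.ringOfIntegersEquiv x)) = φ x
        rw [RingEquiv.symm_apply_apply]
      right_inv := fun ψ => RingHom.ext_int _ _ }
  rw [Nat.card_congr e]
  have : Nonempty (ℤ →+* ZMod p) := ⟨Int.castRingHom _⟩
  exact Nat.card_unique

section
variable (K : Type) [Field K] [NumberField K]

/-- the coefficients -/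
noncomputable def aD (n : ℕ) : ℝ := if n.Prime then ((Nat.card (𝓞 K →+* ZMod n) : ℝ) - 1) * Real.log n else 0

theorem aD_eq (n : ℕ) : aD K n = (cK K n - cK ℚ n) * Real.log n := by
  unfold aD cK
  split_ifs
  · rw [card_rat]
    push_cast
    ring
  · ring

theorem aD_sum (N : ℕ) : ∑ k ∈ Finset.range (N + 1), aD K k = TT K N - TT ℚ N := by
  unfold TT aD
  rw [← Finset.sum_sub_distrib, ← Finset.sum_filter]
  refine Finset.sum_congr rfl fun p _ => ?_
  rw [card_rat]
  push_cast
  ring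

theorem aD_small : Tendsto (fun n : ℕ => (∑ k ∈ Finset.range (n + 1), aD K k) / (n : ℝ)) atTop (𝓝 0) := by
  have h1 := TT_tendsto (K := K) (Pool.Agent.H484R2.continuation K)
  have h2 := TT_tendsto (K := ℚ) (Pool.Agent.H484R2.continuation ℚ)
  have h3 := h1.sub h2
  rw [sub_self] at h3
  refine h3.congr fun n => ?_
  rw [aD_sum]
  ring

theorem aD_hasSum {σ : ℝ} (hσ : 0 < σ) :
    HasSum (fun n : ℕ => if 2 ≤ n then aD K n * hw σ n else 0) (PK K (1 + σ) - PK ℚ (1 + σ)) := by
  have h1 := (cK_summable K (x := 1 + σ) (by linarith)).hasSum.sub (cK_summable ℚ (x := 1 + σ) (by linarith)).hasSum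
  unfold PK
  refine h1.congr_fun ?_ |> fun h => h
  intro n
  split_ifs with hn
  · rw [aD_eq]
    unfold hw
    have hl := log_pos' hn
    have hn0 : (0 : ℝ) < n := by positivity
    have e : (n : ℝ) ^ (-(1 + σ)) = Real.exp (-(σ * Real.log n)) / n := by
      rw [Real.rpow_def_of_pos hn0, show Real.log n * -(1 + σ) = -(σ * Real.log n) - Real.log n by ring,
        Real.exp_sub, Real.exp_log hn0]
    rw [e]
    field_simp
  · have : ¬ n.Prime := fun h => hn h.two_le
    unfold cK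
    rw [if_neg this, if_neg this]
    simp

/-- **Convergence of `∑ (R(p) - 1)/p`.** -/
theorem homs_conv : ∃ L : ℝ, Tendsto (fun N : ℕ => ∑ p ∈ (Finset.Ioc 1 N).filter Nat.Prime,
    ((Nat.card (𝓞 K →+* ZMod p) : ℝ) - 1) / p) atTop (𝓝 L) := by
  obtain ⟨l1, hl1⟩ := PK_lim K
  obtain ⟨l2, hl2⟩ := PK_lim ℚ
  have hsh : Tendsto (fun σ : ℝ => 1 + σ) (𝓝[>] 0) (𝓝[>] 1) := by
    rw [tendsto_nhdsWithin_iff]
    constructor
    · have : Tendsto (fun σ : ℝ => 1 + σ) (𝓝 0) (𝓝 (1 + 0)) := tendsto_const_nhds.add tendsto_id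
      rw [add_zero] at this
      exact this.mono_left nhdsWithin_le_nhds
    · filter_upwards [self_mem_nhdsWithin] with σ hσ
      simp only [Set.mem_Ioi] at hσ ⊢
      linarith
  have hD : Tendsto (fun σ : ℝ => PK K (1 + σ) - PK ℚ (1 + σ)) (𝓝[>] 0) (𝓝 (l1 - l2)) := by
    refine ((hl1.comp hsh).sub (hl2.comp hsh)).congr fun σ => ?_
    simp only [Function.comp_apply]
    ring
  have h := tauber (aD K) (aD_small K) _ _ hD (fun σ hσ => aD_hasSum K hσ)
  refine ⟨l1 - l2, h.congr fun N => ?_⟩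
  rw [Finset.sum_filter]
  refine Finset.sum_congr rfl fun n hn => ?_
  rw [Finset.mem_Ioc] at hn
  unfold aD
  have hl := log_pos' (n := n) (by omega)
  split_ifs
  · field_simp
  · simp

end

end Pool.Agent.H559.HY.CV
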